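import Pool.Agent.Lib.MP_305fdd_al.Su.CM.Am
import Pool.Agent.Lib.MP_305fdd_al.Su.SM.E34
import Pool.Agent.Lib.MP_305fdd_al.Su.AA.Pk
import Pool.Agent.Lib.MP_305fdd_al.Su.Div.Good

/-!
# MP_305fdd_al, closed surface groups, class membership for the amalgams of the package

`pk_div`: only `1` has trace zero.  `inp_of_pk`, `cm_am_pk`: class membership for the two sides of a
cyclic amalgam, for the package of helper94.
-/

set_option autoImplicit false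
set_option linter.unusedSectionVars false

namespace Pool.Agent.SuCM

open Matrix (SpecialLinearGroup)
open Pool.Agent.FrN Pool.Agent.FrS Pool.Agent.SuD Pool.Agent.Lib.MP_305fdd_al
  Pool.Agent.MP_305fdd_al Pool.Agent.SurfCnt Pool.Agent.FrAsm

section pk

variable {g : ℕ} {Λ Γ F : Type} [Group Λ] [Group Γ] [Field F] [Algebra (ZMod 2) F]
  {π : Λ →* Γ} {ρ : Γ →* SpecialLinearGroup (Fin 2) F}

/-- `ρ ∘ π` is weakly universal -/
theorem pk_wuL (P : SuAA.Pk g π ρ) : SuS.WU (ρ.comp π) := by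
  intro R _ _ _ r _
  obtain ⟨r', hr'⟩ := P.exists_fac R r
  obtain ⟨φ, hφ⟩ := P.pts R r'
  refine ⟨φ.comp (Subalgebra.equivOfEq _ _ (SuAA.OO_comp P.surj ρ)).toAlgHom, fun x i j => ?_⟩
  rw [← hr']
  exact hφ (π x) i j

/-- DIVISION for the package: only `1` has trace zero -/
theorem pk_div (P : SuAA.Pk g π ρ) (x : Γ) (hx : (ρ x).1.trace = 0) : x = 1 := by
  have := P.fgL
  obtain ⟨Φ⟩ := P.nb
  obtain ⟨y, rfl⟩ := P.surj x
  have h1 := SuDiv.div_of_same P.two Φ (ρ.comp π) (pk_wuL P) y hx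
  exact P.inj (h1.trans (map_one ρ).symm)

theorem pk_triv (P : SuAA.Pk g π ρ) : SuTk.Triv ρ := by
  obtain ⟨φ, hφ⟩ := P.pts (ZMod 2) (1 : Γ →* SpecialLinearGroup (Fin 2) (ZMod 2))
  exact ⟨φ, hφ⟩

/-- the transcendence degree of the field -/
theorem pk_tr (P : SuAA.Pk g π ρ) : Algebra.trdeg (ZMod 2) F = ((6 * g - 3 : ℕ) : Cardinal) := by
  have h1 := P.trF
  have h2 := P.two
  have h3 : ((6 * g : ℕ) : Cardinal) = ((6 * g - 3 : ℕ) : Cardinal) + 3 := by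
    have h4 : 6 * g = (6 * g - 3) + 3 := by omega
    conv_lhs => rw [h4]
    push_cast
    rfl
  rw [h3] at h1
  exact Cardinal.eq_of_add_eq_add_right h1 (by exact_mod_cast Cardinal.natCast_lt_aleph0 (n := 3))

/-- the rank of the ring of the entries -/
theorem pk_rk (P : SuAA.Pk g π ρ) : ((6 * g - 3 : ℕ) : ℕ∞) ≤ er (OO 2 ρ : Set F) := by
  rw [← er_univ (pk_tr P)]
  exact er_univ_le P.frac

/-- every specialisation over a finite field -/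
theorem pk_pts (P : SuAA.Pk g π ρ) : Pts ρ := fun κ _ _ _ r => P.pts κ r

theorem pk_fac (P : SuAA.Pk g π ρ) : Fac π := ⟨P.surj, fun κ _ _ _ r => P.ker_le κ r⟩

theorem pk_nab (P : SuAA.Pk g π ρ) : ¬ ∀ x y : Γ, x * y = y * x := P.nab

/-- (E3) for the package -/
theorem pk_e3 (P : SuAA.Pk g π ρ) {z : Γ} (hz : z ≠ 1) : 3 ≤ er (En ρ {z}) := by
  refine (SuTk.e3 P.frac P.wu P.inj (pk_div P) (pk_nab P) (pk_triv P) hz).trans (er_mono ?_)
  rintro x ⟨i, j, rfl⟩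
  exact ⟨z, rfl, i, j, rfl⟩

/-- (E4) for the package -/
theorem pk_e4 (P : SuAA.Pk g π ρ) (A : Subgroup Γ) (hA : ¬ ∀ x ∈ A, ∀ y ∈ A, x * y = y * x) :
    4 ≤ er (En ρ (A : Set Γ)) :=
  SuTk.e4 P.frac P.wu P.inj (pk_div P) (pk_nab P) (pk_triv P) A hA

variable {A A' : Subgroup Γ} {z : Γ}

/-- THE INPUT for the package -/
theorem inp_of_glu (P : SuAA.Pk g π ρ) (hG : Glu A A' z) (hfg : A.FG) (hfg' : A'.FG) (hz : z ≠ 1)
    (hA : ¬ ∀ x ∈ A, ∀ y ∈ A, x * y = y * x) (hA' : ¬ ∀ x ∈ A', ∀ y ∈ A', x * y = y * x) :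
    Inp g π ρ A A' z where
  one := by have := P.two; omega
  glu := hG
  fac := pk_fac P
  nb := P.nbG
  pts := pk_pts P
  fg := (Group.fg_iff_subgroup_fg A).2 hfg
  fg' := (Group.fg_iff_subgroup_fg A').2 hfg'
  rk := pk_rk P
  e3 := pk_e3 P hz
  e4 := pk_e4 P A hA
  e4' := pk_e4 P A' hA'

theorem inp_of_pk (P : SuAA.Pk g π ρ) (hG : IsAm (⊤ : Subgroup Γ) A A' (Subgroup.zpowers z))
    (hfg : A.FG) (hfg' : A'.FG) (hz : z ≠ 1)
    (hA : ¬ ∀ x ∈ A, ∀ y ∈ A, x * y = y * x) (hA' : ¬ ∀ x ∈ A', ∀ y ∈ A', x * y = y * x) :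
    Inp g π ρ A A' z := inp_of_glu P (glu_of_isAm hG) hfg hfg' hz hA hA'

/-- CLASS MEMBERSHIP FOR AMALGAMS, for the package -/
theorem cm_am_pk (P : SuAA.Pk g π ρ) (hG : IsAm (⊤ : Subgroup Γ) A A' (Subgroup.zpowers z))
    (hfg : A.FG) (hfg' : A'.FG) (hz : z ≠ 1)
    (hA : ¬ ∀ x ∈ A, ∀ y ∈ A, x * y = y * x) (hA' : ¬ ∀ x ∈ A', ∀ y ∈ A', x * y = y * x) :
    ∃ b b' : ℕ, b + b' = 2 * g ∧ 2 ≤ b ∧ 2 ≤ b' ∧ InCls b A ∧ InCls b' A' :=
  cm_am (inp_of_pk P hG hfg hfg' hz hA hA') P.inj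

end pk

end Pool.Agent.SuCM
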