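import Pool.Agent.Lib.MP_305fdd_al.Su.CM.Glu

/-!
# MP_305fdd_al, closed surface groups, class membership: affine groups inside `SL_2`

`TK κ`: the matrices of trace zero.  `eD`: the affine group of `TK κ` inside `SL_2(κ[ε])`.  `eT`: the
dihedral groups, `eB`: the group of the upper triangular matrices.
-/

set_option autoImplicit false
set_option linter.unusedSectionVars false

namespace Pool.Agent.SuCM

open Matrix (SpecialLinearGroup)
open Pool.Agent.SuD

/-! ## Matrices of trace zero -/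

section tk

variable (κ : Type) [CommRing κ]

/-- matrices of trace zero -/
def Tm : Submodule κ (Matrix (Fin 2) (Fin 2) κ) where
  carrier := {M | M 0 0 + M 1 1 = 0}
  zero_mem' := by simp
  add_mem' {a b} ha hb := by
    change a 0 0 + b 0 0 + (a 1 1 + b 1 1) = 0
    have ha' : a 0 0 + a 1 1 = 0 := ha
    have hb' : b 0 0 + b 1 1 = 0 := hb
    linear_combination ha' + hb'
  smul_mem' c {a} ha := by
    change c * a 0 0 + c * a 1 1 = 0
    have ha' : a 0 0 + a 1 1 = 0 := ha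
    linear_combination c * ha'

/-- matrices of trace zero -/
def TK : Type := ↥(Tm κ)

instance : AddCommGroup (TK κ) := inferInstanceAs (AddCommGroup ↥(Tm κ))
instance : Module κ (TK κ) := inferInstanceAs (Module κ ↥(Tm κ))
instance [Finite κ] : Finite (TK κ) := inferInstanceAs (Finite ↥(Tm κ))

variable {κ}

/-- the matrix -/
def TK.m (x : TK κ) : Matrix (Fin 2) (Fin 2) κ := x.1

theorem TK.ext {x y : TK κ} (h : x.m = y.m) : x = y := Subtype.ext h

theorem TK.tr (x : TK κ) : x.m 0 0 + x.m 1 1 = 0 := x.2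

@[simp] theorem TK.m_add (x y : TK κ) : (x + y).m = x.m + y.m := rfl
@[simp] theorem TK.m_zero : (0 : TK κ).m = 0 := rfl
@[simp] theorem TK.m_neg (x : TK κ) : (-x).m = -x.m := rfl
@[simp] theorem TK.m_sub (x y : TK κ) : (x - y).m = x.m - y.m := rfl
@[simp] theorem TK.m_smul (c : κ) (x : TK κ) : (c • x).m = c • x.m := rfl

/-- a matrix of trace zero -/
def TK.mk (M : Matrix (Fin 2) (Fin 2) κ) (h : M 0 0 + M 1 1 = 0) : TK κ := ⟨M, h⟩

@[simp] theorem TK.m_mk (M : Matrix (Fin 2) (Fin 2) κ) (h : M 0 0 + M 1 1 = 0) :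
    (TK.mk M h).m = M := rfl

theorem tk_conj (q : SpecialLinearGroup (Fin 2) κ) (x : TK κ) :
    (q.1 * x.m * (q⁻¹).1) 0 0 + (q.1 * x.m * (q⁻¹).1) 1 1 = 0 := by
  have h1 : (q.1 * x.m * (q⁻¹).1) 0 0 + (q.1 * x.m * (q⁻¹).1) 1 1 =
      (q.1 * x.m * (q⁻¹).1).trace := (Matrix.trace_fin_two _).symm
  have h2 : (q⁻¹).1 * q.1 = 1 := congrArg Subtype.val (inv_mul_cancel q)
  rw [h1, mul_assoc, Matrix.trace_mul_comm, mul_assoc, h2, mul_one, Matrix.trace_fin_two]
  exact x.tr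

instance : DistribMulAction (SpecialLinearGroup (Fin 2) κ) (TK κ) where
  smul q x := TK.mk (q.1 * x.m * (q⁻¹).1) (tk_conj q x)
  one_smul x := by
    apply TK.ext
    change (1 : Matrix (Fin 2) (Fin 2) κ) * x.m * ((1 : SpecialLinearGroup (Fin 2) κ)⁻¹).1 = x.m
    rw [inv_one]
    change (1 : Matrix (Fin 2) (Fin 2) κ) * x.m * (1 : Matrix (Fin 2) (Fin 2) κ) = x.m
    rw [one_mul, mul_one]
  mul_smul q r x := by
    apply TK.ext
    change (q * r).1 * x.m * ((q * r)⁻¹).1 = q.1 * (r.1 * x.m * (r⁻¹).1) * (q⁻¹).1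
    rw [_root_.mul_inv_rev]
    change (q.1 * r.1) * x.m * ((r⁻¹).1 * (q⁻¹).1) = _
    simp only [mul_assoc]
  smul_zero q := by
    apply TK.ext
    change q.1 * 0 * (q⁻¹).1 = 0
    rw [mul_zero, zero_mul]
  smul_add q x y := by
    apply TK.ext
    change q.1 * (x.m + y.m) * (q⁻¹).1 = q.1 * x.m * (q⁻¹).1 + q.1 * y.m * (q⁻¹).1
    rw [mul_add, add_mul]

theorem TK.m_act (q : SpecialLinearGroup (Fin 2) κ) (x : TK κ) :
    (q • x).m = q.1 * x.m * (q⁻¹).1 := rfl

theorem sl_mul_inv (q : SpecialLinearGroup (Fin 2) κ) : q.1 * (q⁻¹).1 = 1 :=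
  congrArg Subtype.val (mul_inv_cancel q)

theorem sl_inv_mul (q : SpecialLinearGroup (Fin 2) κ) : (q⁻¹).1 * q.1 = 1 :=
  congrArg Subtype.val (inv_mul_cancel q)

/-- the coordinates of a matrix of trace zero -/
def tkEquiv : TK κ ≃ κ × κ × κ where
  toFun x := (x.m 0 0, x.m 0 1, x.m 1 0)
  invFun y := TK.mk !![y.1, y.2.1; y.2.2, -y.1] (by simp)
  left_inv x := by
    apply TK.ext
    have h := x.tr
    ext i j
    fin_cases i <;> fin_cases j <;> simp
    linear_combination -h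
  right_inv y := by simp

theorem card_TK : Nat.card (TK κ) = Nat.card κ ^ 3 := by
  rw [Nat.card_congr tkEquiv, Nat.card_prod, Nat.card_prod]
  ring

end tk

/-! ## Dual numbers -/

section dual

variable {κ : Type} [CommRing κ]

/-- the constant part -/
def fM (M : Matrix (Fin 2) (Fin 2) (DualNumber κ)) : Matrix (Fin 2) (Fin 2) κ :=
  Matrix.of fun i j => TrivSqZeroExt.fst (M i j)

/-- the infinitesimal part -/
def sM (M : Matrix (Fin 2) (Fin 2) (DualNumber κ)) : Matrix (Fin 2) (Fin 2) κ :=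
  Matrix.of fun i j => TrivSqZeroExt.snd (M i j)

theorem fM_apply (M : Matrix (Fin 2) (Fin 2) (DualNumber κ)) (i j : Fin 2) :
    fM M i j = TrivSqZeroExt.fst (M i j) := rfl

theorem sM_apply (M : Matrix (Fin 2) (Fin 2) (DualNumber κ)) (i j : Fin 2) :
    sM M i j = TrivSqZeroExt.snd (M i j) := rfl

/-- `a + b ε` -/
def dr (a b : κ) : DualNumber κ := TrivSqZeroExt.inl a + TrivSqZeroExt.inr b

theorem fst_dr (a b : κ) : TrivSqZeroExt.fst (dr a b) = a := by simp [dr]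
theorem snd_dr (a b : κ) : TrivSqZeroExt.snd (dr a b) = b := by simp [dr]

/-- the matrix `M + ε N` -/
def eM (M N : Matrix (Fin 2) (Fin 2) κ) : Matrix (Fin 2) (Fin 2) (DualNumber κ) :=
  Matrix.of fun i j => dr (M i j) (N i j)

theorem eM_apply (M N : Matrix (Fin 2) (Fin 2) κ) (i j : Fin 2) :
    eM M N i j = dr (M i j) (N i j) := rfl

@[simp] theorem fM_eM (M N : Matrix (Fin 2) (Fin 2) κ) : fM (eM M N) = M := by
  ext i j
  rw [fM_apply, eM_apply, fst_dr]

@[simp] theorem sM_eM (M N : Matrix (Fin 2) (Fin 2) κ) : sM (eM M N) = N := by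
  ext i j
  rw [sM_apply, eM_apply, snd_dr]

theorem mat_ext {M N : Matrix (Fin 2) (Fin 2) (DualNumber κ)}
    (h1 : fM M = fM N) (h2 : sM M = sM N) : M = N := by
  ext1 i j
  refine TrivSqZeroExt.ext ?_ ?_
  · exact congrFun (congrFun h1 i) j
  · exact congrFun (congrFun h2 i) j

theorem fM_mul (M N : Matrix (Fin 2) (Fin 2) (DualNumber κ)) : fM (M * N) = fM M * fM N := by
  ext i j
  rw [fM_apply, Matrix.mul_apply, Matrix.mul_apply, Fin.sum_univ_two, Fin.sum_univ_two,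
    TrivSqZeroExt.fst_add, TrivSqZeroExt.fst_mul, TrivSqZeroExt.fst_mul]
  rfl

theorem sM_mul (M N : Matrix (Fin 2) (Fin 2) (DualNumber κ)) :
    sM (M * N) = fM M * sM N + sM M * fM N := by
  ext i j
  rw [sM_apply, Matrix.add_apply, Matrix.mul_apply, Matrix.mul_apply, Matrix.mul_apply,
    Fin.sum_univ_two, Fin.sum_univ_two, Fin.sum_univ_two, TrivSqZeroExt.snd_add,
    TrivSqZeroExt.snd_mul, TrivSqZeroExt.snd_mul]
  simp only [smul_eq_mul, MulOpposite.smul_eq_mul_unop, MulOpposite.unop_op, fM_apply, sM_apply]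
  ring

theorem fM_one : fM (1 : Matrix (Fin 2) (Fin 2) (DualNumber κ)) = 1 := by
  ext i j
  rw [fM_apply, Matrix.one_apply, Matrix.one_apply]
  split_ifs <;> simp

theorem sM_one : sM (1 : Matrix (Fin 2) (Fin 2) (DualNumber κ)) = 0 := by
  ext i j
  rw [sM_apply, Matrix.one_apply]
  split_ifs <;> simp

theorem det_eM (M N : Matrix (Fin 2) (Fin 2) κ) (h : M.det = 1)
    (h' : M 0 0 * N 1 1 + N 0 0 * M 1 1 - (M 0 1 * N 1 0 + N 0 1 * M 1 0) = 0) :
    (eM M N).det = 1 := by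
  rw [Matrix.det_fin_two] at h ⊢
  refine TrivSqZeroExt.ext ?_ ?_
  · simp only [TrivSqZeroExt.fst_sub, TrivSqZeroExt.fst_mul, eM_apply, fst_dr,
      TrivSqZeroExt.fst_one]
    exact h
  · simp only [TrivSqZeroExt.snd_sub, TrivSqZeroExt.snd_mul, eM_apply, fst_dr, snd_dr,
      TrivSqZeroExt.snd_one, smul_eq_mul, MulOpposite.smul_eq_mul_unop, MulOpposite.unop_op]
    linear_combination h'

/-- the affine group of the matrices of trace zero inside `SL_2` of the dual numbers -/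
def eD : AF (SpecialLinearGroup (Fin 2) κ) (TK κ) →* SpecialLinearGroup (Fin 2) (DualNumber κ) where
  toFun x := ⟨eM x.q.1 (x.v.m * x.q.1), det_eM _ _ x.q.2 (by
    have h1 := x.v.tr
    have h2 := x.q.2
    rw [Matrix.det_fin_two] at h2
    rw [Matrix.mul_apply, Matrix.mul_apply, Matrix.mul_apply, Matrix.mul_apply,
      Fin.sum_univ_two, Fin.sum_univ_two, Fin.sum_univ_two, Fin.sum_univ_two]
    linear_combination (x.q.1 0 0 * x.q.1 1 1 - x.q.1 0 1 * x.q.1 1 0) * h1)⟩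
  map_one' := by
    apply Subtype.ext
    refine mat_ext ?_ ?_
    · change fM (eM (1 : Matrix (Fin 2) (Fin 2) κ)
        ((0 : TK κ).m * (1 : Matrix (Fin 2) (Fin 2) κ))) = fM 1
      rw [fM_eM, fM_one]
    · change sM (eM (1 : Matrix (Fin 2) (Fin 2) κ)
        ((0 : TK κ).m * (1 : Matrix (Fin 2) (Fin 2) κ))) = sM 1
      rw [sM_eM, sM_one, TK.m_zero, zero_mul]
  map_mul' x y := by
    apply Subtype.ext
    change eM (x.q.1 * y.q.1) ((x.v.m + x.q.1 * y.v.m * (x.q⁻¹).1) * (x.q.1 * y.q.1)) =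
      eM x.q.1 (x.v.m * x.q.1) * eM y.q.1 (y.v.m * y.q.1)
    refine mat_ext ?_ ?_
    · rw [fM_mul, fM_eM, fM_eM, fM_eM]
    · rw [sM_mul, fM_eM, fM_eM, sM_eM, sM_eM, sM_eM]
      have h := sl_inv_mul x.q
      calc (x.v.m + x.q.1 * y.v.m * (x.q⁻¹).1) * (x.q.1 * y.q.1) = x.v.m * (x.q.1 * y.q.1) +
          x.q.1 * y.v.m * ((x.q⁻¹).1 * x.q.1) * y.q.1 := by simp only [add_mul, mul_assoc]
        _ = _ := by rw [h, mul_one]; simp only [mul_assoc]; rw [add_comm]

theorem eD_apply (x : AF (SpecialLinearGroup (Fin 2) κ) (TK κ)) :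
    (eD x).1 = eM x.q.1 (x.v.m * x.q.1) := rfl

theorem eD_inj : Function.Injective (eD (κ := κ)) := by
  intro x y h
  have h0 := congrArg Subtype.val h
  rw [eD_apply, eD_apply] at h0
  have h1 : x.q = y.q := by
    apply Subtype.ext
    have h2 := congrArg fM h0
    rwa [fM_eM, fM_eM] at h2
  refine AF.ext (TK.ext ?_) h1
  have h3 := congrArg sM h0
  rw [sM_eM, sM_eM] at h3
  have h4 := congrArg (fun M => M * (x.q⁻¹).1) h3
  simp only [h1, mul_assoc, sl_mul_inv, mul_one] at h4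
  exact h4

/-- lifts of a representation to the dual numbers -/
abbrev DLf {Γ : Type} [Group Γ] (y : Γ →* SpecialLinearGroup (Fin 2) κ) : Type :=
  {s : Γ →* SpecialLinearGroup (Fin 2) (DualNumber κ) //
    ∀ g i j, TrivSqZeroExt.fst ((s g).1 i j) = (y g).1 i j}

theorem DLf.fM {Γ : Type} [Group Γ] {y : Γ →* SpecialLinearGroup (Fin 2) κ} (s : DLf y) (γ : Γ) :
    fM (s.1 γ).1 = (y γ).1 := by
  ext i j
  exact s.2 γ i j

/-- the crossed homomorphism of a lift -/
def dlC {Γ : Type} [Group Γ] (y : Γ →* SpecialLinearGroup (Fin 2) κ) (s : DLf y) :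
    Crs y (TK κ) := by
  refine ⟨fun γ => TK.mk (sM (s.1 γ).1 * ((y γ)⁻¹).1) ?_, ?_⟩
  · have h1 : ((y γ)⁻¹).1 = !![(y γ).1 1 1, -(y γ).1 0 1; -(y γ).1 1 0, (y γ).1 0 0] := by
      rw [← Matrix.adjugate_fin_two]
      rfl
    have h2 := congrArg TrivSqZeroExt.snd (s.1 γ).2
    rw [Matrix.det_fin_two] at h2
    simp only [TrivSqZeroExt.snd_sub, TrivSqZeroExt.snd_mul, smul_eq_mul,
      MulOpposite.smul_eq_mul_unop, MulOpposite.unop_op, TrivSqZeroExt.snd_one, s.2] at h2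
    rw [h1, Matrix.mul_apply, Matrix.mul_apply, Fin.sum_univ_two, Fin.sum_univ_two]
    simp only [Matrix.of_apply, Matrix.cons_val', Matrix.cons_val_zero,
      Matrix.cons_val_one, Matrix.cons_val_fin_one, sM_apply]
    linear_combination h2
  · rw [mem_Crs]
    intro γ δ
    apply TK.ext
    have h0 : sM (s.1 (γ * δ)).1 = (y γ).1 * sM (s.1 δ).1 + sM (s.1 γ).1 * (y δ).1 := by
      rw [map_mul]
      change sM ((s.1 γ).1 * (s.1 δ).1) = _
      rw [sM_mul, s.fM, s.fM]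
    rw [TK.m_add, TK.m_act, TK.m_mk, TK.m_mk, TK.m_mk, h0, map_mul, _root_.mul_inv_rev]
    change _ * (((y δ)⁻¹).1 * ((y γ)⁻¹).1) = _
    have h1 := sl_mul_inv (y δ)
    calc ((y γ).1 * sM (s.1 δ).1 + sM (s.1 γ).1 * (y δ).1) * (((y δ)⁻¹).1 * ((y γ)⁻¹).1)
        = (y γ).1 * (sM (s.1 δ).1 * ((y δ)⁻¹).1) * ((y γ)⁻¹).1 +
          sM (s.1 γ).1 * ((y δ).1 * ((y δ)⁻¹).1) * ((y γ)⁻¹).1 := by
          simp only [add_mul, mul_assoc]
      _ = _ := by rw [h1, mul_one, add_comm]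

theorem dlC_apply {Γ : Type} [Group Γ] (y : Γ →* SpecialLinearGroup (Fin 2) κ) (s : DLf y)
    (γ : Γ) : ((dlC y s).1 γ).m = sM (s.1 γ).1 * ((y γ)⁻¹).1 := rfl

theorem dlC_inj {Γ : Type} [Group Γ] (y : Γ →* SpecialLinearGroup (Fin 2) κ) :
    Function.Injective (dlC y) := by
  intro s s' h
  apply Subtype.ext
  ext γ : 1
  have h1 : sM (s.1 γ).1 * ((y γ)⁻¹).1 = sM (s'.1 γ).1 * ((y γ)⁻¹).1 :=
    congrArg TK.m (congrFun (congrArg Subtype.val h) γ)
  have h3 := congrArg (fun M => M * (y γ).1) h1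
  simp only [mul_assoc, sl_inv_mul, mul_one] at h3
  apply Subtype.ext
  refine mat_ext ?_ h3
  rw [s.fM, s'.fM]

end dual

/-! ## Triangular matrices -/

section tri

variable {κ : Type} [Field κ] [Algebra (ZMod 2) κ]

/-- the affine group of `κ` (units acting by multiplication) inside `SL_2(κ)` -/
def eB : AF κˣ κ →* SpecialLinearGroup (Fin 2) κ where
  toFun x := ⟨!![(x.q : κ), x.v ^ 2 * ((x.q⁻¹ : κˣ) : κ); 0, ((x.q⁻¹ : κˣ) : κ)], by
    rw [Matrix.det_fin_two_of]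
    simp⟩
  map_one' := by
    apply Subtype.ext
    ext i j
    fin_cases i <;> fin_cases j <;> simp
  map_mul' x y := by
    apply Subtype.ext
    change _ = !![(x.q : κ), x.v ^ 2 * ((x.q⁻¹ : κˣ) : κ); 0, ((x.q⁻¹ : κˣ) : κ)] *
      !![(y.q : κ), y.v ^ 2 * ((y.q⁻¹ : κˣ) : κ); 0, ((y.q⁻¹ : κˣ) : κ)]
    have hx : (x.q : κ) * ((x.q⁻¹ : κˣ) : κ) = 1 := by simp
    have h1 : (x.v + x.q • y.v) ^ 2 = x.v ^ 2 + (x.q : κ) ^ 2 * y.v ^ 2 := by
      rw [sq_add, Units.smul_def, smul_eq_mul, mul_pow]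
    ext i j
    fin_cases i <;> fin_cases j
    · simp
    · simp only [AF.mul_v, AF.mul_q, h1, mul_inv, Units.val_mul]
      simp
      have hx' : (x.q : κ) ≠ 0 := x.q.ne_zero
      have hy' : (y.q : κ) ≠ 0 := y.q.ne_zero
      field_simp
      ring
    · simp
    · simp [mul_comm]

theorem eB_apply (x : AF κˣ κ) : (eB x).1 =
    !![(x.q : κ), x.v ^ 2 * ((x.q⁻¹ : κˣ) : κ); 0, ((x.q⁻¹ : κˣ) : κ)] := rfl

theorem eB_inj : Function.Injective (eB (κ := κ)) := by
  intro x y h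
  have h0 := congrArg Subtype.val h
  rw [eB_apply, eB_apply] at h0
  have h1 : x.q = y.q := by
    have := congrFun (congrFun h0 0) 0
    simp only [Matrix.of_apply, Matrix.cons_val', Matrix.cons_val_zero,
      Matrix.cons_val_fin_one] at this
    exact Units.ext this
  refine AF.ext ?_ h1
  have h2 := congrFun (congrFun h0 0) 1
  simp only [Matrix.of_apply, Matrix.cons_val', Matrix.cons_val_zero, Matrix.cons_val_one,
    Matrix.cons_val_fin_one, h1] at h2
  have h3 := mul_right_cancel₀ (y.q⁻¹).ne_zero h2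
  have h4 : (x.v - y.v) ^ 2 = 0 := by
    have h5 := two_z κ
    linear_combination h3 + (y.v ^ 2 - x.v * y.v) * h5
  exact sub_eq_zero.1 (pow_eq_zero_iff two_ne_zero |>.1 h4)

end tri

/-! ## Dihedral groups -/

section dih

variable {κ : Type} [Field κ] [Algebra (ZMod 2) κ]

/-- diagonal matrices -/
def dgm : κˣ →* SpecialLinearGroup (Fin 2) κ where
  toFun a := ⟨!![(a : κ), 0; 0, ((a⁻¹ : κˣ) : κ)], by
    rw [Matrix.det_fin_two_of]
    simp⟩
  map_one' := by
    apply Subtype.ext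
    ext i j
    fin_cases i <;> fin_cases j <;> simp
  map_mul' x y := by
    apply Subtype.ext
    change _ = !![(x : κ), 0; 0, ((x⁻¹ : κˣ) : κ)] * !![(y : κ), 0; 0, ((y⁻¹ : κˣ) : κ)]
    ext i j
    fin_cases i <;> fin_cases j <;> simp [mul_comm]

theorem dgm_apply (a : κˣ) : (dgm a).1 = !![(a : κ), 0; 0, ((a⁻¹ : κˣ) : κ)] := rfl

/-- the antidiagonal matrix -/
def wm : SpecialLinearGroup (Fin 2) κ := ⟨!![0, 1; 1, 0], by
  rw [Matrix.det_fin_two_of]
  have := two_z κ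
  linear_combination -this⟩

theorem wm_sq : (wm : SpecialLinearGroup (Fin 2) κ) * wm = 1 := by
  apply Subtype.ext
  change (!![0, 1; 1, 0] : Matrix (Fin 2) (Fin 2) κ) * !![0, 1; 1, 0] = 1
  ext i j
  fin_cases i <;> fin_cases j <;> simp

theorem wm_dgm (a : κˣ) : wm * dgm a = dgm a⁻¹ * wm := by
  apply Subtype.ext
  change (!![0, 1; 1, 0] : Matrix (Fin 2) (Fin 2) κ) * !![(a : κ), 0; 0, ((a⁻¹ : κˣ) : κ)] =
    !![((a⁻¹ : κˣ) : κ), 0; 0, (((a⁻¹)⁻¹ : κˣ) : κ)] * !![0, 1; 1, 0]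
  ext i j
  fin_cases i <;> fin_cases j <;> simp

/-- the sign representation -/
def wh : ℤˣ →* SpecialLinearGroup (Fin 2) κ where
  toFun u := if u = 1 then 1 else wm
  map_one' := if_pos rfl
  map_mul' u v := by
    rcases Int.units_eq_one_or u with rfl | rfl <;> rcases Int.units_eq_one_or v with rfl | rfl
    · simp
    · simp
    · simp
    · rw [show ((-1 : ℤˣ) * -1) = 1 from by decide, if_pos rfl, if_neg (by decide), wm_sq]

theorem wh_neg : (wh (-1) : SpecialLinearGroup (Fin 2) κ) = wm := by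
  change (if (-1 : ℤˣ) = 1 then 1 else wm) = _
  exact if_neg (by decide)

/-- the homomorphism of the cyclic group given by a root of unity -/
noncomputable def zh {n : ℕ} (ζ : κˣ) (hζ : ζ ^ n = 1) : ZMod n →+ Additive κˣ :=
  ZMod.lift n ⟨(zmultiplesHom (Additive κˣ)) (Additive.ofMul ζ), by
    change (n : ℤ) • Additive.ofMul ζ = 0
    rw [natCast_zsmul, ← ofMul_pow, hζ]
    rfl⟩

theorem zh_coe {n : ℕ} (ζ : κˣ) (hζ : ζ ^ n = 1) (k : ℤ) :
    Additive.toMul (zh ζ hζ (k : ZMod n)) = ζ ^ k := by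
  unfold zh
  rw [ZMod.lift_coe]
  rfl

/-- the dihedral group inside `SL_2(κ)` -/
noncomputable def eT {n : ℕ} (ζ : κˣ) (hζ : ζ ^ n = 1) :
    AF ℤˣ (ZMod n) →* SpecialLinearGroup (Fin 2) κ where
  toFun x := dgm (Additive.toMul (zh ζ hζ x.v)) * wh x.q
  map_one' := by
    rw [AF.one_v, AF.one_q, map_zero, map_one, mul_one]
    exact map_one dgm
  map_mul' x y := by
    rw [AF.mul_v, AF.mul_q, map_add, toMul_add, map_mul, map_mul]
    have key : wh x.q * dgm (Additive.toMul (zh ζ hζ y.v)) =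
        dgm (Additive.toMul (zh ζ hζ (x.q • y.v))) * wh x.q := by
      rcases Int.units_eq_one_or x.q with h | h
      · rw [h, one_smul, map_one, one_mul, mul_one]
      · rw [h]
        have h1 : (-1 : ℤˣ) • y.v = -y.v := by
          rw [Units.smul_def]
          simp
        rw [h1, wh_neg, map_neg, toMul_neg, wm_dgm]
    calc _ = dgm (Additive.toMul (zh ζ hζ x.v)) *
        (dgm (Additive.toMul (zh ζ hζ (x.q • y.v))) * wh x.q) * wh y.q := by
          simp only [mul_assoc]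
      _ = _ := by rw [← key]; simp only [mul_assoc]

theorem eT_apply {n : ℕ} (ζ : κˣ) (hζ : ζ ^ n = 1) (x : AF ℤˣ (ZMod n)) :
    eT ζ hζ x = dgm (Additive.toMul (zh ζ hζ x.v)) * wh x.q := rfl

theorem eT_inj {n : ℕ} (ζ : κˣ) (hζ : orderOf ζ = n) :
    Function.Injective (eT ζ (hζ ▸ pow_orderOf_eq_one ζ)) := by
  rw [injective_iff_map_eq_one]
  intro x hx
  rw [eT_apply] at hx
  have h0 := congrArg Subtype.val hx
  have hq : x.q = 1 := by
    rcases Int.units_eq_one_or x.q with h | h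
    · exact h
    · exfalso
      rw [h, wh_neg] at h0
      have h3 : ((dgm (Additive.toMul (zh ζ (hζ ▸ pow_orderOf_eq_one ζ) x.v))).1 *
        (wm : SpecialLinearGroup (Fin 2) κ).1) 0 0 = (1 : Matrix (Fin 2) (Fin 2) κ) 0 0 :=
        congrFun (congrFun h0 0) 0
      rw [Matrix.mul_apply, Fin.sum_univ_two, dgm_apply, Matrix.one_apply_eq] at h3
      simp [wm] at h3
  rw [hq, map_one, mul_one] at h0
  refine AF.ext ?_ hq
  obtain ⟨k, hk⟩ := ZMod.intCast_surjective x.v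
  have h3 := congrFun (congrFun h0 0) 0
  rw [dgm_apply] at h3
  change ((Additive.toMul (zh ζ (hζ ▸ pow_orderOf_eq_one ζ) x.v) : κˣ) : κ) =
    (1 : Matrix (Fin 2) (Fin 2) κ) 0 0 at h3
  rw [← hk, zh_coe, Matrix.one_apply_eq] at h3
  have h4 : ζ ^ k = 1 := Units.ext h3
  rw [← orderOf_dvd_iff_zpow_eq_one, hζ] at h4
  rw [← hk]
  exact (ZMod.intCast_zmod_eq_zero_iff_dvd k n).2 h4

end dih

end Pool.Agent.SuCM
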