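import Pool.Agent.Lib.MP_305fdd_al.Su.CM.Sq

/-!
# MP_305fdd_al, surface groups, block REG: lifts along an ideal of square zero

`card_lifts`: if `B` is locally free over its squares with the basis `y ^ β` then a homomorphism
`B → R / I` (`I ^ 2 = 0`, `R` finite) has exactly `|I| ^ D` lifts to `R`.
-/

set_option autoImplicit false
set_option linter.unusedSectionVars false

namespace Pool.Agent.SuCM

open Pool.Agent.F2Ch MvPolynomial

section nf

variable {B : Type} [CommRing B] {D : ℕ}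

/-- normal forms modulo `X_i ^ 2 = y_i` -/
theorem normal_form (y : Fin D → B) (f : MvPolynomial (Fin D) B) :
    ∃ e : (Fin D → Fin 2) → B, ∀ (R : Type) [CommRing R] (τ : B →+* R) (b : Fin D → R),
      (∀ i, b i ^ 2 = τ (y i)) → eval₂Hom τ b f = ∑ β, τ (e β) * monY (p := 2) b β := by
  classical
  induction f using MvPolynomial.induction_on with
  | C a =>
    refine ⟨fun β => if β = 0 then a else 0, ?_⟩
    intro R _ τ b _
    rw [Finset.sum_eq_single 0]
    · simp [monY_zero]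
    · intro β _ hβ
      simp [hβ]
    · intro h
      exact absurd (Finset.mem_univ _) h
  | add f g hf hg =>
    obtain ⟨e, he⟩ := hf
    obtain ⟨e', he'⟩ := hg
    refine ⟨e + e', ?_⟩
    intro R _ τ b hb
    rw [map_add, he R τ b hb, he' R τ b hb, ← Finset.sum_add_distrib]
    refine Finset.sum_congr rfl fun β _ => ?_
    rw [Pi.add_apply, map_add, add_mul]
  | mul_X f i hf =>
    obtain ⟨e, he⟩ := hf
    let σ : (Fin D → Fin 2) → (Fin D → Fin 2) := fun β => Function.update β i (β i + 1)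
    have hσ : Function.Involutive σ := by
      intro β
      change Function.update (Function.update β i (β i + 1)) i
        (Function.update β i (β i + 1) i + 1) = β
      rw [Function.update_self, Function.update_idem]
      have : β i + 1 + 1 = β i := by
        rw [add_assoc]
        have h3 : (1 + 1 : Fin 2) = 0 := by decide
        rw [h3, add_zero]
      rw [this, Function.update_eq_self]
    let g : (Fin D → Fin 2) → B := fun β => if β i = 0 then 1 else y i
    refine ⟨fun β => e (σ β) * g (σ β), ?_⟩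
    intro R _ τ b hb
    rw [map_mul, he R τ b hb]
    have hX : eval₂Hom τ b (X i) = b i := by simp
    rw [hX, Finset.sum_mul, ← Equiv.sum_comp hσ.toPerm]
    refine Finset.sum_congr rfl fun β _ => ?_
    change τ (e (σ β)) * monY (p := 2) b (σ β) * b i = τ (e (σ β) * g (σ β)) * monY (p := 2) b β
    rw [mul_assoc, monY_mul]
    have h1 : Function.update (σ β) i (σ β i + 1) = β := hσ β
    rw [h1, map_mul]
    have h2 : (if σ β i = 0 then (1 : R) else b i ^ 2) = τ (g (σ β)) := by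
      simp only [g]
      split_ifs
      · rw [map_one]
      · rw [hb]
    rw [h2, mul_assoc]

end nf

section lifts

variable {B : Type} [CommRing B] [Algebra (ZMod 2) B] {D : ℕ} (y : Fin D → B) (s : B)
  (hs : ∀ x, s ^ 2 * x ∈ Nr y) (hinj : ∀ e : (Fin D → Fin 2) → B, cmb y e = 0 → e = 0)
  {R : Type} [CommRing R] [Algebra (ZMod 2) R] (I : Ideal R) (hI : I ^ 2 = ⊥)
  (ψ₀ : B →+* R ⧸ I)

/-- the square of a lift -/
def sqI (hI : I ^ 2 = ⊥) : R ⧸ I →+* R := Ideal.Quotient.lift I (sqh R) (by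
  intro a ha
  have h := Ideal.pow_mem_pow ha 2
  rw [hI] at h
  exact h)

theorem sqI_mk (hI : I ^ 2 = ⊥) (r : R) : sqI I hI (Ideal.Quotient.mk I r) = r ^ 2 := rfl

theorem mk_sqI (hI : I ^ 2 = ⊥) (c : R ⧸ I) : Ideal.Quotient.mk I (sqI I hI c) = c ^ 2 := by
  obtain ⟨r, rfl⟩ := Ideal.Quotient.mk_surjective c
  rw [sqI_mk, map_pow]

theorem isUnit_of_mk (hI : I ^ 2 = ⊥) (r : R) (h : IsUnit (Ideal.Quotient.mk I r)) :
    IsUnit r := by
  obtain ⟨v, hv⟩ := h.exists_right_inv
  obtain ⟨r', rfl⟩ := Ideal.Quotient.mk_surjective v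
  have h1 : r * r' - 1 ∈ I := by
    rw [← Ideal.Quotient.eq_zero_iff_mem, map_sub, map_mul, map_one, hv, sub_self]
  have h2 : (r * r' - 1) ^ 2 = 0 := by
    have h := Ideal.pow_mem_pow h1 2
    rw [hI] at h
    exact h
  have h3 : r * (r' * (2 - r * r')) = 1 := by linear_combination -h2
  exact IsUnit.of_mul_eq_one _ h3

include hs in
theorem lift_unique {ψ ψ' : B →+* R} (h : ∀ x, Ideal.Quotient.mk I (ψ x) = ψ₀ x)
    (h' : ∀ x, Ideal.Quotient.mk I (ψ' x) = ψ₀ x) (hu : IsUnit (ψ₀ s))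
    (hy : ∀ i, ψ (y i) = ψ' (y i)) (hI : I ^ 2 = ⊥) : ψ = ψ' := by
  have hsq : ∀ x, ψ (x ^ 2) = ψ' (x ^ 2) := by
    intro x
    rw [map_pow, map_pow, ← sqI_mk I hI, ← sqI_mk I hI, h, h']
  have hcmp : ψ.comp (eval₂Hom (sqh B) y) = ψ'.comp (eval₂Hom (sqh B) y) := by
    refine MvPolynomial.ringHom_ext ?_ ?_
    · intro r
      simpa using hsq r
    · intro i
      simpa using hy i
  ext x
  obtain ⟨f, hf⟩ := hs x
  have h1 : ψ (s ^ 2 * x) = ψ' (s ^ 2 * x) := by
    rw [← hf]
    exact DFunLike.congr_fun hcmp f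
  rw [map_mul, map_mul, ← hsq s] at h1
  have h2 : IsUnit (ψ (s ^ 2)) := by
    refine isUnit_of_mk I hI _ ?_
    rw [h, map_pow]
    exact hu.pow 2
  exact h2.mul_left_cancel h1

include hs hinj in
theorem lift_exists (hI : I ^ 2 = ⊥) (hu : IsUnit (ψ₀ s)) (a : Fin D → R)
    (ha : ∀ i, Ideal.Quotient.mk I (a i) = ψ₀ (y i)) :
    ∃ ψ : B →+* R, (∀ x, Ideal.Quotient.mk I (ψ x) = ψ₀ x) ∧ ∀ i, ψ (y i) = a i := by
  classical
  let σ : B →+* R := (sqI I hI).comp ψ₀
  have hσ : ∀ x, σ x = sqI I hI (ψ₀ x) := fun _ => rfl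
  have hb : ∀ i, a i ^ 2 = σ (y i) := by
    intro i
    rw [hσ, ← ha, sqI_mk]
  let Θ : MvPolynomial (Fin D) B →+* B := eval₂Hom (sqh B) y
  let E : MvPolynomial (Fin D) B →+* R := eval₂Hom σ a
  have hΘC : ∀ c, Θ (C c) = c ^ 2 := fun c => by simp [Θ]
  have hEC : ∀ c, E (C c) = σ c := fun c => by simp [E]
  have hΘX : ∀ i, Θ (X i) = y i := fun i => by simp [Θ]
  have hEX : ∀ i, E (X i) = a i := fun i => by simp [E]
  have hker : ∀ f, Θ f = 0 → E f = 0 := by
    intro f hf
    obtain ⟨e, he⟩ := normal_form y f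
    have h1 : cmb y e = 0 := by
      rw [← hf]
      exact (he B (sqh B) y (fun i => rfl)).symm
    have h2 := hinj e h1
    change eval₂Hom σ a f = 0
    rw [he R σ a hb, h2]
    simp
  have hwd : ∀ f g, Θ f = Θ g → E f = E g := by
    intro f g h
    have := hker (f - g) (by rw [map_sub, h, sub_self])
    rwa [map_sub, sub_eq_zero] at this
  have hmkE : ∀ f, Ideal.Quotient.mk I (E f) = ψ₀ (Θ f) := by
    intro f
    have h : (Ideal.Quotient.mk I).comp E = ψ₀.comp Θ := by
      refine MvPolynomial.ringHom_ext ?_ ?_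
      · intro r
        change Ideal.Quotient.mk I (E (C r)) = ψ₀ (Θ (C r))
        rw [hEC, hΘC, hσ, mk_sqI, map_pow]
      · intro i
        change Ideal.Quotient.mk I (E (X i)) = ψ₀ (Θ (X i))
        rw [hEX, hΘX, ha]
    exact DFunLike.congr_fun h f
  have hu2 : IsUnit (σ s) := by
    refine isUnit_of_mk I hI _ ?_
    rw [hσ, mk_sqI]
    exact hu.pow 2
  choose F hF using fun x => hs x
  have hF' : ∀ x, Θ (F x) = s ^ 2 * x := hF
  obtain ⟨v, hv⟩ := hu2.exists_left_inv
  let ψ : B →+* R :=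
    { toFun := fun x => v * E (F x)
      map_one' := by
        have h1 : E (F 1) = E (C s) := hwd _ _ (by rw [hF', hΘC, mul_one])
        rw [h1, hEC, hv]
      map_zero' := by
        have h1 : E (F 0) = 0 := hker _ (by rw [hF', mul_zero])
        rw [h1, mul_zero]
      map_add' := by
        intro x x'
        have h1 : E (F (x + x')) = E (F x + F x') := hwd _ _ (by
          rw [map_add, hF', hF', hF', mul_add])
        rw [h1, map_add, mul_add]
      map_mul' := by
        intro x x'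
        have h1 : E (F (x * x') * C s) = E (F x * F x') := hwd _ _ (by
          rw [map_mul, map_mul, hF', hF', hF', hΘC]
          ring)
        rw [map_mul, map_mul, hEC] at h1
        linear_combination (-v * E (F (x * x'))) * hv + v ^ 2 * h1 }
  have hψ : ∀ x, ψ x = v * E (F x) := fun _ => rfl
  refine ⟨ψ, ?_, ?_⟩
  · intro x
    rw [hψ, map_mul, hmkE, hF', map_mul, map_pow]
    have h1 : Ideal.Quotient.mk I v * ψ₀ s ^ 2 = 1 := by
      rw [← mk_sqI I hI, ← hσ, ← map_mul, hv, map_one]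
    rw [← mul_assoc, h1, one_mul]
  · intro i
    have h1 : E (F (y i)) = E (C s * X i) := hwd _ _ (by rw [map_mul, hF', hΘC, hΘX])
    rw [hψ, h1, map_mul, hEC, hEX, ← mul_assoc, hv, one_mul]

theorem card_fiber [Finite R] (c : R ⧸ I) :
    Nat.card {r : R // Ideal.Quotient.mk I r = c} = Nat.card I := by
  obtain ⟨r₀, rfl⟩ := Ideal.Quotient.mk_surjective c
  refine Nat.card_congr ⟨fun r => ⟨r.1 - r₀, Ideal.Quotient.eq.1 r.2⟩,
    fun i => ⟨r₀ + i.1, ?_⟩, ?_, ?_⟩
  · rw [map_add, Ideal.Quotient.eq_zero_iff_mem.2 i.2, add_zero]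
  · intro r
    apply Subtype.ext
    change r₀ + (r.1 - r₀) = r.1
    ring
  · intro i
    apply Subtype.ext
    change r₀ + i.1 - r₀ = i.1
    ring

include hs hinj in
theorem card_lifts [Finite R] (hI : I ^ 2 = ⊥) (hu : IsUnit (ψ₀ s)) :
    Nat.card {ψ : B →+* R // ∀ x, Ideal.Quotient.mk I (ψ x) = ψ₀ x} = Nat.card I ^ D := by
  classical
  have h1 : Nat.card {ψ : B →+* R // ∀ x, Ideal.Quotient.mk I (ψ x) = ψ₀ x} =
      Nat.card (∀ i : Fin D, {r : R // Ideal.Quotient.mk I r = ψ₀ (y i)}) := by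
    refine Nat.card_congr (Equiv.ofBijective
      (fun ψ i => ⟨ψ.1 (y i), ψ.2 (y i)⟩) ⟨?_, ?_⟩)
    · intro ψ ψ' h
      apply Subtype.ext
      refine lift_unique y s hs I ψ₀ ψ.2 ψ'.2 hu ?_ hI
      intro i
      exact congrArg Subtype.val (congrFun h i)
    · intro a
      obtain ⟨ψ, h, h'⟩ := lift_exists y s hs hinj I ψ₀ hI hu (fun i => (a i).1)
        (fun i => (a i).2)
      refine ⟨⟨ψ, h⟩, ?_⟩
      funext i
      exact Subtype.ext (h' i)
  rw [h1, Nat.card_pi]
  simp_rw [card_fiber]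
  simp

end lifts

end Pool.Agent.SuCM
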