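import Pool.Agent.Lib.MP_305fdd_al.Su.CM.Uni
import Pool.Agent.Lib.MP_305fdd_al.Fr.N.B.p_ys

/-!
# MP_305fdd_al, surface groups, block REG: the semilocal `2`-basis
-/

set_option autoImplicit false
set_option linter.unusedSectionVars false

namespace Pool.Agent.SuCM

open Pool.Agent.F2Ch Pool.Agent.FrN

variable {K : Type} [Field K] [Algebra (ZMod 2) K] {D : ℕ}

theorem loc_gen {B : Type} [CommRing B] [IsNoetherianRing B] (m : Ideal B) (hm : m.IsMaximal)
    (y : Fin D → B) (h : m ≤ Ideal.span (Set.range y) ⊔ m ^ 2) :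
    ∃ s : B, s ∉ m ∧ ∀ z ∈ m, s * z ∈ Ideal.span (Set.range y) := by
  have h' : m ≤ Ideal.span (Set.range y) ⊔ m • m := by
    rw [smul_eq_mul, ← pow_two]
    exact h
  obtain ⟨s, hs1, hs2⟩ := Submodule.exists_sub_one_mem_and_smul_le_of_fg_of_le_sup
    (IsNoetherian.noetherian m) le_rfl h'
  refine ⟨s, ?_, ?_⟩
  · intro hs
    apply hm.ne_top
    rw [Ideal.eq_top_iff_one]
    have := sub_mem hs hs1
    rwa [sub_sub_cancel] at this
  · intro a ha
    exact hs2 (Submodule.smul_mem_pointwise_smul a s m ha)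

theorem exists_semi' (B : Subalgebra (ZMod 2) K) (hfg : B.FG) (hF : Frc B)
    (hD : Algebra.trdeg (ZMod 2) K = D)
    (htan : ∀ m : Ideal B, m.IsMaximal → ∃ y : Fin D → B, (∀ i, y i ∈ m) ∧
      m ≤ Ideal.span (Set.range y) ⊔ m ^ 2)
    (Q : Type) [CommRing Q] [Finite Q] [Nontrivial Q] (ψ : B →+* Q) :
    ∃ (y : Fin D → B) (s : B), (∀ x, s ^ 2 * x ∈ Nr y) ∧
      (∀ e : (Fin D → Fin 2) → B, cmb y e = 0 → e = 0) ∧ IsUnit (ψ s) := by
  classical
  have hft : Algebra.FiniteType (ZMod 2) B := (Subalgebra.fg_iff_finiteType _).1 hfg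
  have hN : IsNoetherianRing B := Algebra.FiniteType.isNoetherianRing (ZMod 2) B
  have hJ : IsJacobsonRing B := isJacobsonRing_of_finiteType (A := ZMod 2)
  set P : Ideal B := (nilradical Q).comap ψ with hP
  have hPmem : ∀ x, x ∈ P ↔ IsNilpotent (ψ x) := fun x => Iff.rfl
  have hPt : P ≠ ⊤ := by
    intro h
    have h1 : (1 : B) ∈ P := by rw [h]; trivial
    rw [hPmem, map_one] at h1
    exact not_isNilpotent_one h1
  have hrad : P.IsRadical := by
    intro x hx
    obtain ⟨n, hn⟩ := hx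
    rw [hPmem, map_pow] at hn
    rw [hPmem]
    exact IsNilpotent.of_pow hn
  -- finiteness of the quotient
  let ψ' : B ⧸ P →+* Q ⧸ nilradical Q := Ideal.quotientMap (nilradical Q) ψ le_rfl
  have hψ' : Function.Injective ψ' := Ideal.quotientMap_injective
  have hfQ : Finite (Q ⧸ nilradical Q) :=
    Finite.of_surjective (Ideal.Quotient.mk (nilradical Q)) Ideal.Quotient.mk_surjective
  have hfin : Finite (B ⧸ P) := Finite.of_injective ψ' hψ'
  have hred : IsReduced (B ⧸ P) := (Ideal.isRadical_iff_quotient_reduced P).1 hrad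
  have hq : ∀ x : B, ∃ x' : B, x - x' ^ 2 ∈ P := by
    intro x
    have hinj : Function.Injective (sqh (B ⧸ P)) := by
      rw [injective_iff_map_eq_zero]
      intro a ha
      exact pow_eq_zero_iff (two_ne_zero) |>.1 ha
    obtain ⟨c, hc⟩ := (Finite.injective_iff_surjective.1 hinj) (Ideal.Quotient.mk P x)
    obtain ⟨x', rfl⟩ := Ideal.Quotient.mk_surjective c
    refine ⟨x', ?_⟩
    rw [← Ideal.Quotient.eq, ← hc]
    rfl
  -- the maximal ideals containing `P`
  have hTfin : {m : Ideal B | m.IsMaximal ∧ P ≤ m}.Finite := by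
    have h1 : Finite (Ideal (B ⧸ P)) :=
      Finite.of_injective (fun I : Ideal (B ⧸ P) => (I : Set (B ⧸ P))) SetLike.coe_injective
    refine Set.Finite.of_finite_image (f := fun m : Ideal B => m.map (Ideal.Quotient.mk P))
      (Set.toFinite _) ?_
    rintro m ⟨_, hm⟩ m' ⟨_, hm'⟩ h
    have h2 := congrArg (fun I : Ideal (B ⧸ P) => I.comap (Ideal.Quotient.mk P)) h
    simp only at h2
    rw [Ideal.comap_map_of_surjective' _ Ideal.Quotient.mk_surjective,
      Ideal.comap_map_of_surjective' _ Ideal.Quotient.mk_surjective, Ideal.mk_ker,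
      sup_eq_left.2 hm, sup_eq_left.2 hm'] at h2
    exact h2
  let T : Finset (Ideal B) := hTfin.toFinset
  have hT : ∀ m, m ∈ T ↔ m.IsMaximal ∧ P ≤ m := fun m => hTfin.mem_toFinset
  obtain ⟨y, hy⟩ := Pool.Agent.FrB.p_ys B D T (by
    intro m hm
    have hmax := ((hT m).1 hm).1
    obtain ⟨y, hy, hgen⟩ := htan m hmax
    exact ⟨hmax, y, hy, loc_gen m hmax y hgen⟩)
  have hyP : ∀ i, y i ∈ P := by
    intro i
    rw [← hJ.out hrad, Ideal.jacobson, Submodule.mem_sInf]
    rintro m ⟨hPm, hm⟩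
    exact (hy m ((hT m).2 ⟨hm, hPm⟩)).1 i
  have hgen : P ≤ Ideal.span (Set.range y) ⊔ P ^ 2 := by
    intro z hz
    by_contra hcon
    let A : Ideal B := Submodule.comap (LinearMap.toSpanSingleton B B z)
      (Ideal.span (Set.range y) ⊔ P ^ 2)
    have hA' : ∀ r, r ∈ A ↔ r * z ∈ Ideal.span (Set.range y) ⊔ P ^ 2 := fun r => Iff.rfl
    have hA : A ≠ ⊤ := by
      intro h
      have : (1 : B) ∈ A := by rw [h]; trivial
      rw [hA', one_mul] at this
      exact hcon this
    obtain ⟨m, hm, hAm⟩ := Ideal.exists_le_maximal A hA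
    have hPm : P ≤ m := by
      intro r hr
      refine hAm ?_
      rw [hA']
      refine Ideal.mem_sup_right ?_
      rw [pow_two]
      exact Ideal.mul_mem_mul hr hz
    obtain ⟨_, h, hh, hh'⟩ := hy m ((hT m).2 ⟨hm, hPm⟩)
    apply hh
    refine hAm ?_
    rw [hA']
    exact Ideal.mem_sup_left (hh' z (hPm hz))
  obtain ⟨a, ha, hs⟩ := nak y P hyP hgen hq
  have hs0 : (1 + a : B) ≠ 0 := by
    intro h
    apply hPt
    rw [Ideal.eq_top_iff_one]
    have : (1 : B) = a := by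
      have h1 := add_self a
      linear_combination h - h1
    rw [this]
    exact ha
  have hpb := exists_pb B hfg hF hD y (1 + a) hs0 hs
  refine ⟨y, 1 + a, hs, ?_, ?_⟩
  · intro e he
    refine cmb_inj hpb ?_
    rw [he]
    simp [cmb]
  · rw [map_add, map_one]
    exact ((hPmem a).1 ha).isUnit_one_add

theorem exists_semi (B : Subalgebra (ZMod 2) K) (hfg : B.FG) (hF : Frc B)
    (hD : Algebra.trdeg (ZMod 2) K = D)
    (htan : ∀ m : Ideal B, m.IsMaximal → ∃ y : Fin D → B, (∀ i, y i ∈ m) ∧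
      m ≤ Ideal.span (Set.range y) ⊔ m ^ 2)
    (Q : Type) [CommRing Q] [Finite Q] (ψ : B →+* Q) :
    ∃ (y : Fin D → B) (s : B), (∀ x, s ^ 2 * x ∈ Nr y) ∧
      (∀ e : (Fin D → Fin 2) → B, cmb y e = 0 → e = 0) ∧ IsUnit (ψ s) := by
  have hft : Algebra.FiniteType (ZMod 2) B := (Subalgebra.fg_iff_finiteType _).1 hfg
  obtain ⟨m, hm⟩ := Ideal.exists_maximal B
  let _ : Field (B ⧸ m) := Ideal.Quotient.field m
  have h1 : Algebra.FiniteType (ZMod 2) (B ⧸ m) := inferInstance
  have h2 : Module.Finite (ZMod 2) (B ⧸ m) := finite_of_finite_type_of_isJacobsonRing _ _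
  have h3 : Finite (B ⧸ m) := Module.finite_of_finite (ZMod 2)
  obtain ⟨y, s, hs, he, hu⟩ := exists_semi' B hfg hF hD htan (Q × B ⧸ m)
    (ψ.prod (Ideal.Quotient.mk m))
  exact ⟨y, s, hs, he, (Prod.isUnit_iff.1 hu).1⟩

end Pool.Agent.SuCM
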