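import Pool.Agent.Lib.MP_305fdd_al.Su.CM.Univ
import Pool.Agent.Lib.MP_305fdd_al.Su.CM.Lift
import Pool.Agent.Lib.MP_305fdd_al.Su.CM.Semi
import Pool.Agent.Lib.MP_305fdd_al.Fr.Asm.Defs
import Pool.Agent.Lib.MP_305fdd_al.Fr.Top.Mk

/-!
# MP_305fdd_al, surface groups, block REG: from points and tangent vectors to the class `Cls b`
-/

set_option autoImplicit false
set_option linter.unusedSectionVars false

namespace Pool.Agent.SuCM

open Matrix Pool.Agent.FrN Pool.Agent.FrAsm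

variable {Γ F : Type} [Group Γ] [Field F] [Algebra (ZMod 2) F]

theorem rh_ext (ρ : Γ →* SpecialLinearGroup (Fin 2) F) {R : Type} [CommRing R]
    [Algebra (ZMod 2) R] {f g : OO 2 ρ →+* R}
    (h : ∀ x i j, f ⟨(ρ x).1 i j, mem_OO ρ x i j⟩ = g ⟨(ρ x).1 i j, mem_OO ρ x i j⟩) : f = g := by
  ext z
  have hz : z ∈ Algebra.adjoin (ZMod 2) {x : OO 2 ρ | ∃ h i j, x = (rO ρ h).1 i j} := by
    rw [adjoin_rO]; trivial
  induction hz using Algebra.adjoin_induction with
  | mem z hz =>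
    obtain ⟨x, i, j, rfl⟩ := hz
    exact h x i j
  | algebraMap c =>
    exact DFunLike.congr_fun (Subsingleton.elim (f.comp (algebraMap (ZMod 2) _))
      (g.comp (algebraMap (ZMod 2) _))) c
  | add z w _ _ h1 h2 => rw [map_add, map_add, h1, h2]
  | mul z w _ _ h1 h2 => rw [map_mul, map_mul, h1, h2]

/-- REG, lifts -/
theorem sm_of_pts [Group.FG Γ] {ρ : Γ →* SpecialLinearGroup (Fin 2) F} {D : ℕ}
    (hF : Frc (OO 2 ρ)) (hD : Algebra.trdeg (ZMod 2) F = D) (hp : Pts ρ) (ht : Tng Γ D)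
    (R : Type) [CommRing R] [Finite R] [Algebra (ZMod 2) R] (I : Ideal R) (hI : I ^ 2 = ⊥)
    (r : Γ →* SpecialLinearGroup (Fin 2) (R ⧸ I)) :
    Nat.card {s : Γ →* SpecialLinearGroup (Fin 2) R //
      (SpecialLinearGroup.map (Ideal.Quotient.mk I)).comp s = r} = Nat.card I ^ D := by
  classical
  obtain ⟨φ₀, hφ₀⟩ := univ_of_pts hF hD hp ht (R ⧸ I) r
  have hfQ : Finite (R ⧸ I) := Finite.of_surjective (Ideal.Quotient.mk I) Ideal.Quotient.mk_surjective
  have hft : Algebra.FiniteType (ZMod 2) (OO 2 ρ) :=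
    (Subalgebra.fg_iff_finiteType _).1 (Pool.Agent.FrX.OO_fg ρ)
  obtain ⟨y, s, hs, hinj, hu⟩ := exists_semi (OO 2 ρ) (Pool.Agent.FrX.OO_fg ρ) hF hD
    (fun m hm => tan_gen (rO ρ) (adjoin_rO ρ) D ht m hm) (R ⧸ I) φ₀.toRingHom
  rw [← card_lifts y s hs hinj I φ₀.toRingHom hI hu]
  choose G hG using fun t : Γ →* SpecialLinearGroup (Fin 2) R => univ_of_pts hF hD hp ht R t
  refine Nat.card_congr (Equiv.ofBijective (fun t => ⟨(G t.1).toRingHom, ?_⟩) ⟨?_, ?_⟩)
  · have h1 : (Ideal.Quotient.mk I).comp (G t.1).toRingHom = φ₀.toRingHom := by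
      refine rh_ext ρ ?_
      intro x i j
      change Ideal.Quotient.mk I (G t.1 _) = φ₀ _
      rw [hG, hφ₀]
      have h2 := DFunLike.congr_fun t.2 x
      rw [← h2]
      rfl
    exact fun x => DFunLike.congr_fun h1 x
  · intro t t' h
    apply Subtype.ext
    ext x i j
    have h1 : (G t.1).toRingHom = (G t'.1).toRingHom := congrArg Subtype.val h
    have h2 := DFunLike.congr_fun h1 ⟨(ρ x).1 i j, mem_OO ρ x i j⟩
    change G t.1 _ = G t'.1 _ at h2
    rw [hG, hG] at h2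
    exact h2
  · rintro ⟨ψ, hψ⟩
    let t : Γ →* SpecialLinearGroup (Fin 2) R := (SpecialLinearGroup.map ψ).comp (rO ρ)
    have ht : (SpecialLinearGroup.map (Ideal.Quotient.mk I)).comp t = r := by
      ext x i j
      change Ideal.Quotient.mk I (ψ ((rO ρ x).1 i j)) = (r x).1 i j
      rw [hψ]
      exact hφ₀ x i j
    refine ⟨⟨t, ht⟩, ?_⟩
    apply Subtype.ext
    change (G t).toRingHom = ψ
    refine rh_ext ρ ?_
    intro x i j
    change G t _ = ψ _
    rw [hG]
    rfl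

/-- REG: the class `Cls b` from points and tangent vectors -/
theorem cls_of_pts [hfg : Group.FG Γ] {ρ : Γ →* SpecialLinearGroup (Fin 2) F} {b : ℕ}
    (hinj : Function.Injective ρ) (hF : Frc (OO 2 ρ)) (hD : Algebra.trdeg (ZMod 2) F = (3 * b : ℕ))
    (hab : Nat.card (Γ →* Multiplicative (ZMod 2)) = 2 ^ b) (hp : Pts ρ) (ht : Tng Γ (3 * b)) :
    Cls b Γ F ρ where
  fg := hfg
  inj := hinj
  frac := hF
  univ R _ _ r := univ_of_pts hF hD hp ht R r
  trF := by rw [hD]; push_cast; rfl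
  ab := hab
  sm R _ _ _ I hI r := sm_of_pts hF hD hp ht R I hI r

/-- REG for representations which are not over the field of fractions -/
theorem inCls_of_pts [hfg : Group.FG Γ] {ρ : Γ →* SpecialLinearGroup (Fin 2) F} {b : ℕ}
    (hinj : Function.Injective ρ) (hD : Algebra.trdeg (ZMod 2) (OO 2 ρ) = (3 * b : ℕ))
    (hab : Nat.card (Γ →* Multiplicative (ZMod 2)) = 2 ^ b) (hp : Pts ρ) (ht : Tng Γ (3 * b)) :
    InCls b Γ := by
  refine ⟨FractionRing (OO 2 ρ), inferInstance, inferInstance, Pool.Agent.FrTop.rF ρ, ?_⟩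
  refine cls_of_pts ?_ ?_ ?_ hab ?_ ht
  · rw [injective_iff_map_eq_one]
    intro g hg
    have h1 := Pool.Agent.FrTop.rF_inj ρ hg
    apply hinj
    rw [map_one]
    ext i j
    have h2 := congrArg (fun M : SpecialLinearGroup (Fin 2) (OO 2 ρ) => ((M.1 i j : OO 2 ρ) : F)) h1
    refine h2.trans ?_
    by_cases hij : i = j
    · subst hij
      simp
    · simp [hij]
  · intro x
    obtain ⟨a, b', hb, rfl⟩ := IsFractionRing.div_surjective (A := OO 2 ρ) x
    have hm : ∀ c : OO 2 ρ, algebraMap (OO 2 ρ) (FractionRing (OO 2 ρ)) c ∈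
        OO 2 (Pool.Agent.FrTop.rF ρ) := by
      intro c
      rw [Pool.Agent.FrTop.OO_rF]
      exact ⟨c, rfl⟩
    refine ⟨_, hm a, _, hm b', ?_, ?_⟩
    · have := nonZeroDivisors.ne_zero hb
      simpa using this
    · have := nonZeroDivisors.ne_zero hb
      have h0 : algebraMap (OO 2 ρ) (FractionRing (OO 2 ρ)) b' ≠ 0 := by simpa using this
      rw [div_mul_cancel₀ _ h0]
  · rw [Pool.Agent.FrTop.trdeg_frac, hD]
  · intro κ _ _ _ r
    obtain ⟨φ, hφ⟩ := hp κ r
    obtain ⟨e, he, _⟩ := Pool.Agent.FrTop.exists_back ρ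
    refine ⟨φ.comp e, ?_⟩
    intro g i j
    change φ (e _) = _
    have := he g i j
    rw [← hφ g i j]
    exact congrArg φ this

end Pool.Agent.SuCM
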