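import Pool.Agent.Lib.MP_305fdd_al.Su.CM.Tan
import Pool.Agent.Lib.MP_305fdd_al.Fr.N.H.UR
import Pool.Agent.Lib.MP_305fdd_al.Fr.X.Core

/-!
# MP_305fdd_al, surface groups, block REG: from points and tangent vectors to universality
-/

set_option autoImplicit false
set_option linter.unusedSectionVars false

namespace Pool.Agent.SuCM

open Matrix Pool.Agent.FrN

variable {Γ F : Type} [Group Γ] [Field F] [Algebra (ZMod 2) F]

/-- the representation over the ring of its entries -/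
def rO (ρ : Γ →* SpecialLinearGroup (Fin 2) F) : Γ →* SpecialLinearGroup (Fin 2) (OO 2 ρ) where
  toFun h := ⟨Matrix.of fun i j => ⟨(ρ h).1 i j, mem_OO ρ h i j⟩, by
    apply Subtype.val_injective
    rw [Matrix.det_fin_two]
    change (ρ h).1 0 0 * (ρ h).1 1 1 - (ρ h).1 0 1 * (ρ h).1 1 0 = 1
    rw [← Matrix.det_fin_two, (ρ h).2]⟩
  map_one' := by
    apply Subtype.ext
    ext i j
    change (ρ 1).1 i j = (((1 : Matrix (Fin 2) (Fin 2) (OO 2 ρ)) i j : OO 2 ρ) : F)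
    rw [map_one]
    change (1 : Matrix (Fin 2) (Fin 2) F) i j = _
    by_cases hij : i = j
    · rw [hij, Matrix.one_apply_eq, Matrix.one_apply_eq]; rfl
    · rw [Matrix.one_apply_ne hij, Matrix.one_apply_ne hij]; rfl
  map_mul' h h' := by
    apply Subtype.ext
    ext i j
    change (ρ (h * h')).1 i j = _
    rw [map_mul]
    change ((ρ h).1 * (ρ h').1) i j = ((((Matrix.of fun i j => ⟨(ρ h).1 i j, mem_OO ρ h i j⟩ :
      Matrix (Fin 2) (Fin 2) (OO 2 ρ)) * (Matrix.of fun i j => ⟨(ρ h').1 i j,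
        mem_OO ρ h' i j⟩ : Matrix (Fin 2) (Fin 2) (OO 2 ρ))) i j : OO 2 ρ) : F)
    rw [Matrix.mul_apply, Matrix.mul_apply, Fin.sum_univ_two, Fin.sum_univ_two]
    rfl

theorem rO_apply (ρ : Γ →* SpecialLinearGroup (Fin 2) F) (h : Γ) (i j : Fin 2) :
    (rO ρ h).1 i j = ⟨(ρ h).1 i j, mem_OO ρ h i j⟩ := rfl

/-- the ring of the entries is generated by the entries -/
theorem adjoin_rO (ρ : Γ →* SpecialLinearGroup (Fin 2) F) :
    Algebra.adjoin (ZMod 2) {x : OO 2 ρ | ∃ h i j, x = (rO ρ h).1 i j} = ⊤ := by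
  rw [eq_top_iff]
  rintro ⟨x, hx⟩ _
  refine Algebra.adjoin_induction (p := fun x hx => (⟨x, hx⟩ : OO 2 ρ) ∈
    Algebra.adjoin (ZMod 2) {x : OO 2 ρ | ∃ h i j, x = (rO ρ h).1 i j}) ?_ ?_ ?_ ?_ hx
  · rintro _ ⟨h, i, j, rfl⟩
    exact Algebra.subset_adjoin ⟨h, i, j, rfl⟩
  · intro c
    exact Subalgebra.algebraMap_mem _ c
  · intro x y _ _ h h'
    exact add_mem h h'
  · intro x y _ _ h h'
    exact mul_mem h h'

/-- the universal ring -/
abbrev SU (Γ : Type) [Group Γ] : Type := FrH.UR (ZMod 2) Γ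

/-- the map from the universal ring to the ring of the entries -/
noncomputable def piO (ρ : Γ →* SpecialLinearGroup (Fin 2) F) : SU Γ →ₐ[ZMod 2] OO 2 ρ :=
  { FrH.UR.lift (algebraMap (ZMod 2) (OO 2 ρ)) (rO ρ) with
    commutes' := fun c => FrH.UR.lift_algebraMap _ _ c }

theorem piO_univ (ρ : Γ →* SpecialLinearGroup (Fin 2) F) (h : Γ) (i j : Fin 2) :
    piO ρ ((FrH.UR.univ (ZMod 2) Γ h).1 i j) = ⟨(ρ h).1 i j, mem_OO ρ h i j⟩ :=
  FrH.UR.lift_univ _ _ h i j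

theorem piO_surj (ρ : Γ →* SpecialLinearGroup (Fin 2) F) : Function.Surjective (piO ρ) := by
  rw [← AlgHom.range_eq_top, eq_top_iff, ← adjoin_rO ρ]
  refine Algebra.adjoin_le ?_
  rintro _ ⟨h, i, j, rfl⟩
  exact ⟨(FrH.UR.univ (ZMod 2) Γ h).1 i j, piO_univ ρ h i j⟩

/-- every representation over a finite field is a specialisation of `ρ` -/
def Pts (ρ : Γ →* SpecialLinearGroup (Fin 2) F) : Prop :=
  ∀ (κ : Type) [Field κ] [Finite κ] [Algebra (ZMod 2) κ] (r : Γ →* SpecialLinearGroup (Fin 2) κ),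
    ∃ φ : OO 2 ρ →ₐ[ZMod 2] κ, ∀ g i j, φ ⟨(ρ g).1 i j, mem_OO ρ g i j⟩ = (r g).1 i j

/-- every representation over a finite field `κ` has at most `|κ| ^ D` lifts to the dual numbers -/
def Tng (Γ : Type) [Group Γ] (D : ℕ) : Prop :=
  ∀ (κ : Type) [Field κ] [Finite κ] [Algebra (ZMod 2) κ] (r : Γ →* SpecialLinearGroup (Fin 2) κ),
    Nat.card {s : Γ →* SpecialLinearGroup (Fin 2) (DualNumber κ) //
      ∀ g i j, TrivSqZeroExt.fst ((s g).1 i j) = (r g).1 i j} ≤ Nat.card κ ^ D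

theorem adjoin_univ' (Γ : Type) [Group Γ] : Algebra.adjoin (ZMod 2)
    {x : SU Γ | ∃ h i j, x = (FrH.UR.univ (ZMod 2) Γ h).1 i j} = ⊤ := by
  rw [← FrH.UR.adjoin_univ (ZMod 2) Γ]
  congr 1
  ext x
  constructor
  · rintro ⟨h, i, j, rfl⟩
    exact ⟨(h, i, j), rfl⟩
  · rintro ⟨⟨h, i, j⟩, rfl⟩
    exact ⟨h, i, j, rfl⟩

theorem piO_inj [Group.FG Γ] {ρ : Γ →* SpecialLinearGroup (Fin 2) F} {D : ℕ}
    (hF : Frc (OO 2 ρ)) (hD : Algebra.trdeg (ZMod 2) F = D) (hp : Pts ρ) (ht : Tng Γ D) :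
    Function.Injective (piO ρ) := by
  refine uni (OO 2 ρ) (Pool.Agent.FrX.OO_fg ρ) hF hD (piO ρ) (piO_surj ρ) ?_ ?_
  · intro M hM x hx
    let _ : Field (SU Γ ⧸ M) := Ideal.Quotient.field M
    have h1 : Algebra.FiniteType (ZMod 2) (SU Γ ⧸ M) := inferInstance
    have h2 : Module.Finite (ZMod 2) (SU Γ ⧸ M) := finite_of_finite_type_of_isJacobsonRing _ _
    have h3 : Finite (SU Γ ⧸ M) := Module.finite_of_finite (ZMod 2)
    obtain ⟨φ, hφ⟩ := hp (SU Γ ⧸ M)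
      ((SpecialLinearGroup.map (Ideal.Quotient.mk M)).comp (FrH.UR.univ (ZMod 2) Γ))
    have h4 : φ.comp (piO ρ) = Ideal.Quotient.mkₐ (ZMod 2) M := by
      refine AlgHom.ext_of_adjoin_eq_top (adjoin_univ' Γ) ?_
      rintro _ ⟨h, i, j, rfl⟩
      change φ (piO ρ _) = _
      rw [piO_univ, hφ]
      rfl
    have h5 := DFunLike.congr_fun h4 x
    change φ (piO ρ x) = Ideal.Quotient.mk M x at h5
    rw [← Ideal.Quotient.eq_zero_iff_mem, ← h5, (RingHom.mem_ker).1 hx, map_zero]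
  · exact tan_gen (FrH.UR.univ (ZMod 2) Γ) (adjoin_univ' Γ) D ht

/-- REG, universality -/
theorem univ_of_pts [Group.FG Γ] {ρ : Γ →* SpecialLinearGroup (Fin 2) F} {D : ℕ}
    (hF : Frc (OO 2 ρ)) (hD : Algebra.trdeg (ZMod 2) F = D) (hp : Pts ρ) (ht : Tng Γ D)
    (R : Type) [CommRing R] [Algebra (ZMod 2) R] (r : Γ →* SpecialLinearGroup (Fin 2) R) :
    ∃ φ : OO 2 ρ →ₐ[ZMod 2] R, ∀ g i j, φ ⟨(ρ g).1 i j, mem_OO ρ g i j⟩ = (r g).1 i j := by
  let e : SU Γ ≃ₐ[ZMod 2] OO 2 ρ :=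
    AlgEquiv.ofBijective (piO ρ) ⟨piO_inj hF hD hp ht, piO_surj ρ⟩
  let l : SU Γ →ₐ[ZMod 2] R :=
    { FrH.UR.lift (algebraMap (ZMod 2) R) r with
      commutes' := fun c => FrH.UR.lift_algebraMap _ _ c }
  refine ⟨l.comp e.symm.toAlgHom, fun g i j => ?_⟩
  have h1 : e ((FrH.UR.univ (ZMod 2) Γ g).1 i j) = ⟨(ρ g).1 i j, mem_OO ρ g i j⟩ :=
    piO_univ ρ g i j
  change l (e.symm _) = _
  rw [← h1, AlgEquiv.symm_apply_apply]
  exact FrH.UR.lift_univ _ _ g i j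

end Pool.Agent.SuCM
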