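import Pool.Agent.Lib.MP_305fdd_al.Su.CM.Cls
import Pool.Agent.Lib.MP_305fdd_al.Su.CM.Emb

/-!
# MP_305fdd_al, closed surface groups, class membership: the lower bound for tangent spaces

`lb`: at every point over a finite field `κ` the number of the crossed homomorphisms to the matrices of
trace zero is at least `|κ| ^ d`, `d` the transcendence degree of the ring of the entries.
-/

set_option autoImplicit false
set_option linter.unusedSectionVars false

namespace Pool.Agent.SuCM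

open Matrix (SpecialLinearGroup)
open Pool.Agent.FrN Pool.Agent.F2Ch Pool.Agent.SuD

section cot

variable {S : Type} [CommRing S] [Algebra (ZMod 2) S] [Algebra.FiniteType (ZMod 2) S]

/-- the universal derivation at a maximal ideal -/
theorem cot_data (m : Ideal S) (hm : m.IsMaximal) : ∃ d : S → m.Cotangent,
    (∀ z w, d (z + w) = d z + d w) ∧ (∀ z w, d (z * w) = z • d w + w • d z) ∧
    ∀ a (ha : a ∈ m), d a = m.toCotangent ⟨a, ha⟩ := by
  classical
  let _ : Field (S ⧸ m) := Ideal.Quotient.field m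
  have h1 : Algebra.FiniteType (ZMod 2) (S ⧸ m) := inferInstance
  have h2 : Module.Finite (ZMod 2) (S ⧸ m) := finite_of_finite_type_of_isJacobsonRing _ _
  have h3 : Finite (S ⧸ m) := Module.finite_of_finite (ZMod 2)
  have h4 : CharP (S ⧸ m) 2 :=
    charP_of_injective_algebraMap (algebraMap (ZMod 2) (S ⧸ m)).injective 2
  let _ := Fintype.ofFinite (S ⧸ m)
  obtain ⟨n, -, hn⟩ := FiniteField.card (S ⧸ m) 2
  have hpow : ∀ z : S, z - z ^ 2 ^ (n : ℕ) ∈ m := by
    intro z
    rw [← Ideal.Quotient.eq_zero_iff_mem, map_sub, map_pow, ← hn, FiniteField.pow_card, sub_self]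
  have hn2 : ∀ a ∈ m, a ^ 2 ^ (n : ℕ) ∈ m ^ 2 := by
    intro a ha
    have : 2 ≤ 2 ^ (n : ℕ) := by
      calc 2 = 2 ^ 1 := rfl
        _ ≤ 2 ^ (n : ℕ) := Nat.pow_le_pow_right (by norm_num) n.pos
    exact Ideal.pow_le_pow_right this (Ideal.pow_mem_pow ha _)
  have hadd : ∀ (j : ℕ) (z w' : S), (z + w') ^ 2 ^ j = z ^ 2 ^ j + w' ^ 2 ^ j := by
    intro j z w'
    induction j with
    | zero => simp
    | succ j ih => rw [pow_succ, pow_mul, ih, sq_add, ← pow_mul, ← pow_mul]
  refine ⟨fun z => m.toCotangent ⟨z - z ^ 2 ^ (n : ℕ), hpow z⟩, ?_, ?_, ?_⟩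
  · intro z w'
    change m.toCotangent _ = m.toCotangent _ + m.toCotangent _
    rw [← map_add]
    congr 1
    apply Subtype.ext
    change z + w' - (z + w') ^ 2 ^ (n : ℕ) = z - z ^ 2 ^ (n : ℕ) + (w' - w' ^ 2 ^ (n : ℕ))
    rw [hadd]
    ring
  · intro z w'
    change m.toCotangent _ = z • m.toCotangent _ + w' • m.toCotangent _
    rw [← map_smul, ← map_smul, ← map_add, Ideal.toCotangent_eq]
    change z * w' - (z * w') ^ 2 ^ (n : ℕ) - (z * (w' - w' ^ 2 ^ (n : ℕ)) +
      w' * (z - z ^ 2 ^ (n : ℕ))) ∈ m ^ 2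
    have : z * w' - (z * w') ^ 2 ^ (n : ℕ) - (z * (w' - w' ^ 2 ^ (n : ℕ)) +
      w' * (z - z ^ 2 ^ (n : ℕ))) = -((z - z ^ 2 ^ (n : ℕ)) * (w' - w' ^ 2 ^ (n : ℕ))) := by
      rw [mul_pow]
      ring
    rw [this, pow_two]
    exact neg_mem (Ideal.mul_mem_mul (hpow z) (hpow w'))
  · intro a ha
    rw [Ideal.toCotangent_eq]
    change a - a ^ 2 ^ (n : ℕ) - a ∈ m ^ 2
    have : a - a ^ 2 ^ (n : ℕ) - a = -(a ^ 2 ^ (n : ℕ)) := by ring
    rw [this]
    exact neg_mem (hn2 a ha)

instance cot_fin (m : Ideal S) : Module.Finite (S ⧸ m) m.Cotangent := by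
  have hN : IsNoetherianRing S := Algebra.FiniteType.isNoetherianRing (ZMod 2) _
  have hV0 : Module.Finite S m := inferInstance
  have hV : Module.Finite S m.Cotangent :=
    Module.Finite.of_surjective m.toCotangent m.toCotangent_surjective
  exact Module.Finite.of_restrictScalars_finite S (S ⧸ m) m.Cotangent

/-- generators modulo the square -/
theorem cot_gens (m : Ideal S) {e D : ℕ} (b0 : Module.Basis (Fin e) (S ⧸ m) m.Cotangent)
    (he : e ≤ D) : ∃ y : Fin D → S, (∀ i, y i ∈ m) ∧ m ≤ Ideal.span (Set.range y) ⊔ m ^ 2 ∧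
      ∀ i : Fin D, e ≤ i.1 → y i = 0 := by
  classical
  have hsm : ∀ (z : S) (v : m.Cotangent), Ideal.Quotient.mk m z • v = z • v :=
    fun z v => rfl
  have hsurj : ∀ v : m.Cotangent, ∃ a : m, m.toCotangent a = v :=
    Ideal.toCotangent_surjective m
  choose lf hlf using hsurj
  let y : Fin D → S := fun i => if h : i.1 < e then (lf (b0 ⟨i.1, h⟩)).1 else 0
  have hy : ∀ i, (lf (b0 i)).1 ∈ Ideal.span (Set.range y) := by
    intro i
    refine Ideal.subset_span ⟨⟨i.1, lt_of_lt_of_le i.2 he⟩, ?_⟩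
    simp only [y]
    rw [dif_pos i.2]
  refine ⟨y, ?_, ?_, ?_⟩
  · intro i
    simp only [y]
    split_ifs with h
    · exact (lf _).2
    · exact zero_mem _
  · intro a ha
    have e1 := b0.sum_repr (m.toCotangent ⟨a, ha⟩)
    choose c hc using fun i => Ideal.Quotient.mk_surjective
      (b0.repr (m.toCotangent ⟨a, ha⟩) i)
    have e2 : m.toCotangent (∑ i, c i • lf (b0 i)) = m.toCotangent ⟨a, ha⟩ := by
      rw [← e1, map_sum]
      refine Finset.sum_congr rfl fun i _ => ?_
      rw [map_smul, hlf, ← hc, hsm]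
    rw [Ideal.toCotangent_eq] at e2
    have e3 : a = (∑ i, c i • lf (b0 i) : m).1 - ((∑ i, c i • lf (b0 i) : m).1 - a) := by ring
    rw [e3]
    refine Submodule.sub_mem _ (Submodule.mem_sup_left ?_) (Submodule.mem_sup_right e2)
    have e4 : (∑ i, c i • lf (b0 i) : m).1 = ∑ i, c i * (lf (b0 i)).1 := by
      rw [← Submodule.subtype_apply, map_sum]
      rfl
    rw [e4]
    exact Ideal.sum_mem _ fun i _ => Ideal.mul_mem_left _ _ (hy i)
  · intro i hi
    simp only [y]
    rw [dif_neg (by omega)]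

end cot

section frob

variable {K : Type} [Field K] [Algebra (ZMod 2) K] {D : ℕ}

/-- the cotangent space is at least as large as the transcendence degree -/
theorem le_cot (B : Subalgebra (ZMod 2) K) (hfg : B.FG) (hF : Frc B)
    (hD : Algebra.trdeg (ZMod 2) K = D) (m : Ideal B) (hm : m.IsMaximal) {e : ℕ}
    (b0 : Module.Basis (Fin e) (B ⧸ m) m.Cotangent) : D ≤ e := by
  classical
  by_contra hlt
  push Not at hlt
  have hft : Algebra.FiniteType (ZMod 2) B := (Subalgebra.fg_iff_finiteType _).1 hfg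
  obtain ⟨y, hy, hgen, h0⟩ := cot_gens m b0 hlt.le
  obtain ⟨a, ha, hs⟩ := nak y m hy hgen (sq_surj m hm)
  have hs0 : (1 + a : B) ≠ 0 := by
    intro h
    apply hm.ne_top
    rw [Ideal.eq_top_iff_one]
    have : (1 : B) = -a := by linear_combination h
    rw [this]
    exact neg_mem ha
  have hpb := exists_pb B hfg hF hD y (1 + a) hs0 hs
  let i0 : Fin D := ⟨e, hlt⟩
  let β : Fin D → Fin 2 := fun i => if i = i0 then 1 else 0
  have h1 : cmb y (fun γ => if γ = β then (1 : B) else 0) = cmb y 0 := by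
    unfold cmb
    rw [Finset.sum_eq_single β]
    · have h2 : monY (p := 2) y β = 0 := by
        unfold monY
        refine Finset.prod_eq_zero (Finset.mem_univ i0) ?_
        rw [h0 i0 le_rfl]
        simp [β]
      rw [h2, mul_zero]
      symm
      refine Finset.sum_eq_zero fun γ _ => ?_
      simp
    · intro γ _ hγ
      have : (if γ = β then (1 : B) else 0) = 0 := if_neg hγ
      change (if γ = β then (1 : B) else 0) ^ 2 * _ = 0
      rw [this]
      simp
    · intro h
      exact absurd (Finset.mem_univ _) h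
  have h2 := congrFun (cmb_inj hpb h1) β
  simp at h2

end frob

section lb

variable {Γ F : Type} [Group Γ] [Field F] [Algebra (ZMod 2) F] {D : ℕ}
  {ρ : Γ →* SpecialLinearGroup (Fin 2) F}

/-- the lower bound, over the field of fractions -/
theorem lb_frac [Group.FG Γ] (hF : Frc (OO 2 ρ)) (hD : Algebra.trdeg (ZMod 2) F = D)
    {κ : Type} [Field κ] [Finite κ] [Algebra (ZMod 2) κ] (φ : OO 2 ρ →ₐ[ZMod 2] κ)
    (y : Γ →* SpecialLinearGroup (Fin 2) κ)
    (hφ : ∀ g i j, φ ⟨(ρ g).1 i j, mem_OO ρ g i j⟩ = (y g).1 i j) :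
    Nat.card κ ^ D ≤ Nat.card (DLf y) := by
  classical
  have hfg : (OO 2 ρ).FG := Pool.Agent.FrX.OO_fg ρ
  have hft : Algebra.FiniteType (ZMod 2) (OO 2 ρ) := (Subalgebra.fg_iff_finiteType _).1 hfg
  set m : Ideal (OO 2 ρ) := RingHom.ker φ.toRingHom with hmd
  have hfin : Finite (OO 2 ρ ⧸ m) :=
    Finite.of_injective _ (RingHom.kerLift_injective φ.toRingHom)
  have hdom : IsDomain (OO 2 ρ ⧸ m) :=
    Ideal.Quotient.isDomain_iff_prime m |>.2 (RingHom.ker_isPrime φ.toRingHom)
  have hm : m.IsMaximal := Ideal.Quotient.maximal_of_isField m (Finite.isField_of_domain _)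
  let _ : Field (OO 2 ρ ⧸ m) := Ideal.Quotient.field m
  let i0 : (OO 2 ρ ⧸ m) →+* κ := RingHom.kerLift φ.toRingHom
  have hi0 : ∀ x, i0 (Ideal.Quotient.mk m x) = φ x := fun x => rfl
  let _ : Algebra (OO 2 ρ ⧸ m) κ := i0.toAlgebra
  have hsm : ∀ (z : OO 2 ρ) (v : κ), Ideal.Quotient.mk m z • v = φ z * v := fun z v => by
    rw [Algebra.smul_def]
    rfl
  have hsm2 : ∀ (z : OO 2 ρ) (v : m.Cotangent), Ideal.Quotient.mk m z • v = z • v :=
    fun z v => rfl
  obtain ⟨d, ha, hmul, hd0⟩ := cot_data m hm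
  let b0 := Module.finBasis (OO 2 ρ ⧸ m) m.Cotangent
  have hle := le_cot (OO 2 ρ) hfg hF hD m hm b0
  let L : (Fin (Module.finrank (OO 2 ρ ⧸ m) m.Cotangent) → κ) → m.Cotangent →ₗ[OO 2 ρ ⧸ m] κ :=
    fun c => b0.constr (OO 2 ρ ⧸ m) c
  let Ψ : (Fin (Module.finrank (OO 2 ρ ⧸ m) m.Cotangent) → κ) → DLf y := fun c =>
    ⟨(SpecialLinearGroup.map (thD φ.toRingHom (fun z => L c (d z))
      (fun z w => by rw [ha, map_add])
      (fun z w => by
        rw [hmul, map_add, ← hsm2, ← hsm2, map_smul, map_smul, hsm, hsm]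
        rfl))).comp (rO ρ), by
      intro g i j
      change TrivSqZeroExt.fst (dn (φ ((rO ρ g).1 i j)) (L c (d ((rO ρ g).1 i j)))) = _
      rw [fst_dn, rO_apply, hφ]⟩
  have hΨ : ∀ c g i j, TrivSqZeroExt.snd (((Ψ c).1 g).1 i j) = L c (d ((rO ρ g).1 i j)) := by
    intro c g i j
    change TrivSqZeroExt.snd (dn (φ ((rO ρ g).1 i j)) (L c (d ((rO ρ g).1 i j)))) = _
    rw [snd_dn]
  have hinj : Function.Injective Ψ := by
    intro c c' he
    have hent : ∀ z : OO 2 ρ, L c (d z) = L c' (d z) := by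
      intro z
      have hz : z ∈ Algebra.adjoin (ZMod 2) {x : OO 2 ρ | ∃ h i j, x = (rO ρ h).1 i j} := by
        rw [adjoin_rO]; trivial
      have hd1 : d 1 = 0 := by
        have h1 := hmul 1 1
        rw [one_mul, one_smul] at h1
        exact left_eq_add.1 h1
      induction hz using Algebra.adjoin_induction with
      | mem z hz =>
        obtain ⟨g, i, j, rfl⟩ := hz
        rw [← hΨ, ← hΨ, he]
      | algebraMap c0 =>
        have h0 : d (algebraMap (ZMod 2) (OO 2 ρ) c0) = 0 := by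
          have hd00 : d 0 = 0 := by
            have h1 := ha 0 0
            rw [add_zero] at h1
            exact left_eq_add.1 h1
          have h5 : c0 = 0 ∨ c0 = 1 := by
            revert c0
            decide
          rcases h5 with rfl | rfl
          · rw [map_zero, hd00]
          · rw [map_one, hd1]
        rw [h0, map_zero, map_zero]
      | add z w _ _ h1 h2 => rw [ha, map_add, map_add, h1, h2]
      | mul z w _ _ h1 h2 =>
        rw [hmul, map_add, map_add, ← hsm2, ← hsm2, map_smul, map_smul, map_smul, map_smul, h1, h2]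
    funext i
    obtain ⟨a, hav⟩ := m.toCotangent_surjective (b0 i)
    have h2 := hent a.1
    rw [hd0 a.1 a.2] at h2
    have h3 : m.toCotangent ⟨a.1, a.2⟩ = b0 i := hav
    rw [h3] at h2
    have h4 : ∀ c, L c (b0 i) = c i := fun c => b0.constr_basis (OO 2 ρ ⧸ m) c i
    rwa [h4, h4] at h2
  have hfd : Finite (DualNumber κ) := inferInstanceAs (Finite (κ × κ))
  have hfin2 : Finite (Γ →* SpecialLinearGroup (Fin 2) (DualNumber κ)) := finite_homs _
  have hcard := Nat.card_le_card_of_injective Ψ hinj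
  rw [Nat.card_fun, Nat.card_fin] at hcard
  have h3 : 0 < Nat.card κ := Finite.card_pos
  exact (Nat.pow_le_pow_right h3 hle).trans hcard

/-- THE LOWER BOUND -/
theorem lb [Group.FG Γ] (hD : Algebra.trdeg (ZMod 2) (OO 2 ρ) = D)
    {κ : Type} [Field κ] [Finite κ] [Algebra (ZMod 2) κ] (φ : OO 2 ρ →ₐ[ZMod 2] κ)
    (y : Γ →* SpecialLinearGroup (Fin 2) κ)
    (hφ : ∀ g i j, φ ⟨(ρ g).1 i j, mem_OO ρ g i j⟩ = (y g).1 i j) :
    Nat.card κ ^ D ≤ Nat.card (DLf y) := by
  obtain ⟨e, he, _⟩ := Pool.Agent.FrTop.exists_back ρ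
  refine lb_frac (ρ := Pool.Agent.FrTop.rF ρ) ?_ (by rw [Pool.Agent.FrTop.trdeg_frac, hD])
    (φ.comp e) y ?_
  · intro x
    obtain ⟨a, b', hb, rfl⟩ := IsFractionRing.div_surjective (A := OO 2 ρ) x
    have hm : ∀ c : OO 2 ρ, algebraMap (OO 2 ρ) (FractionRing (OO 2 ρ)) c ∈
        OO 2 (Pool.Agent.FrTop.rF ρ) := by
      intro c
      rw [Pool.Agent.FrTop.OO_rF]
      exact ⟨c, rfl⟩
    refine ⟨_, hm a, _, hm b', ?_, ?_⟩
    · have := nonZeroDivisors.ne_zero hb
      simpa using this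
    · have := nonZeroDivisors.ne_zero hb
      have h0 : algebraMap (OO 2 ρ) (FractionRing (OO 2 ρ)) b' ≠ 0 := by simpa using this
      rw [div_mul_cancel₀ _ h0]
  · intro g i j
    change φ (e _) = _
    have := he g i j
    rw [← hφ g i j]
    exact congrArg φ this

/-- the lower bound for crossed homomorphisms -/
theorem lbC [Group.FG Γ] (hD : Algebra.trdeg (ZMod 2) (OO 2 ρ) = D)
    {κ : Type} [Field κ] [Finite κ] [Algebra (ZMod 2) κ] (φ : OO 2 ρ →ₐ[ZMod 2] κ)
    (y : Γ →* SpecialLinearGroup (Fin 2) κ)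
    (hφ : ∀ g i j, φ ⟨(ρ g).1 i j, mem_OO ρ g i j⟩ = (y g).1 i j) :
    Nat.card κ ^ D ≤ Nat.card (Crs y (TK κ)) := by
  have : Finite (Crs y (TK κ)) := crs_finite _
  exact (lb hD φ y hφ).trans (Nat.card_le_card_of_injective _ (dlC_inj y))

end lb

end Pool.Agent.SuCM
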