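import Pool.Agent.Lib.MP_305fdd_al.Su.CM.Ext

/-!
# MP_305fdd_al, closed surface groups: class membership for amalgams

`Inp.out`: the vertex group `A` has the dimension `3 b`, every representation over a finite field is a
specialisation of `ρ`, and has at most `|κ| ^ (3 b)` lifts to the dual numbers.  `cm_am`: both vertex
groups are in the class `InCls`.
-/

set_option autoImplicit false
set_option linter.unusedSectionVars false

namespace Pool.Agent.SuCM

open Matrix (SpecialLinearGroup)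
open Pool.Agent.FrN Pool.Agent.FrS Pool.Agent.SuD Pool.Agent.Lib.MP_305fdd_al
  Pool.Agent.MP_305fdd_al Pool.Agent.SurfCnt Pool.Agent.FrAsm

namespace Inp

variable {g : ℕ} {Λ Γ F : Type} [Group Λ] [Group Γ] [Field F] [Algebra (ZMod 2) F]
  {j : Λ →* Γ} {ρ : Γ →* SpecialLinearGroup (Fin 2) F} {A A' : Subgroup Γ} {z : Γ}

theorem fgG (h : Inp g j ρ A A' z) : Group.FG Γ := by
  have h1 : A.FG := (Group.fg_iff_subgroup_fg A).1 h.fg
  have h2 : A'.FG := (Group.fg_iff_subgroup_fg A').1 h.fg'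
  refine ⟨?_⟩
  rw [← h.glu.gen]
  exact h1.sup h2

/-- every value is taken at `z` -/
theorem hit (h : Inp g j ρ A A' z) {κ : Type} [Field κ] [Finite κ] [Algebra (ZMod 2) κ]
    (M : SpecialLinearGroup (Fin 2) (AlgebraicClosure κ)) :
    ∃ y' : A' →* SpecialLinearGroup (Fin 2) (AlgebraicClosure κ), y' ⟨z, h.glu.mem'⟩ = M := by
  have hch : CharP (AlgebraicClosure κ) 2 := charP_two _
  by_cases hM : M = 1
  · exact ⟨1, hM.symm⟩
  by_cases ht : M.1.trace = 0
  · obtain ⟨P, hP⟩ := conj_U1 M ht hM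
    obtain ⟨κ', _, _, _, χ, c, hχ, hc⟩ := h.bor
    have halg : Algebra.IsAlgebraic (ZMod 2) κ' := Algebra.IsAlgebraic.of_finite _ _
    let i : κ' →ₐ[ZMod 2] AlgebraicClosure κ := IsAlgClosed.lift
    let y0 : A' →* SpecialLinearGroup (Fin 2) (AlgebraicClosure κ) :=
      (SpecialLinearGroup.map (i : κ' →+* AlgebraicClosure κ)).comp
        ((eB (κ := κ')).comp (Crs.hom c))
    obtain ⟨M', hM'⟩ : ∃ M', M' = y0 ⟨z, h.glu.mem'⟩ := ⟨_, rfl⟩
    have hval : ∀ a b, M'.1 a b = i ((eB ⟨c.1 ⟨z, h.glu.mem'⟩, χ ⟨z, h.glu.mem'⟩⟩).1 a b) := by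
      intro a b
      rw [hM']
      rfl
    rw [hχ, eB_apply] at hval
    have ht' : M'.1.trace = 0 := by
      rw [sl_tr, hval, hval]
      simp
      exact CharTwo.add_self_eq_zero 1
    have hne : M' ≠ 1 := by
      intro h1
      have h2 := hval 0 1
      rw [h1] at h2
      have h3 : i ((c.1 ⟨z, h.glu.mem'⟩) ^ 2) = 0 := by
        have h4 : (1 : SpecialLinearGroup (Fin 2) (AlgebraicClosure κ)).1 0 1 = 0 := by
          change (1 : Matrix (Fin 2) (Fin 2) (AlgebraicClosure κ)) 0 1 = 0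
          simp
        rw [h4] at h2
        simpa using h2.symm
      rw [map_eq_zero] at h3
      exact hc (pow_eq_zero_iff two_ne_zero |>.1 h3)
    obtain ⟨P', hP'⟩ := conj_U1 M' ht' hne
    refine ⟨(MulAut.conj (P * P'⁻¹)).toMonoidHom.comp y0, ?_⟩
    change P * P'⁻¹ * y0 ⟨z, h.glu.mem'⟩ * (P * P'⁻¹)⁻¹ = M
    rw [← hM', hP', hP]
    group
  · obtain ⟨P, a, hP, -⟩ := exists_diag M ht
    obtain ⟨ε', hε'⟩ := h.symm.exists_sign
    obtain ⟨c, hc⟩ := h.dih ε' hε' (orderOf a) (odd_order κ a)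
    refine ⟨(MulAut.conj P).toMonoidHom.comp ((eT a (pow_orderOf_eq_one a)).comp (Crs.hom c)), ?_⟩
    change P * eT a (pow_orderOf_eq_one a) ⟨c.1 ⟨z, h.glu.mem'⟩, ε' ⟨z, h.glu.mem'⟩⟩ * P⁻¹ = M
    rw [eT_apply, hc, h.symm.kill_sign ε']
    change P * (dgm (Additive.toMul (zh a (pow_orderOf_eq_one a) 1)) * wh 1) * P⁻¹ = M
    rw [map_one wh, mul_one]
    have h1 : Additive.toMul (zh a (pow_orderOf_eq_one a) 1) = a := by
      have h2 := zh_coe a (pow_orderOf_eq_one a) 1
      rw [Int.cast_one, zpow_one] at h2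
      exact h2
    rw [h1]
    have h2 : dgm a = dg a := rfl
    rw [h2, ← hP]
    group

/-- extension of representations of `A` -/
theorem ext_fin (h : Inp g j ρ A A' z) {κ : Type} [Field κ] [Finite κ] [Algebra (ZMod 2) κ]
    (y : A →* SpecialLinearGroup (Fin 2) κ) :
    ∃ (L : Type) (_ : Field L) (_ : Finite L) (_ : Algebra (ZMod 2) L) (_ : Algebra κ L)
      (Y : Γ →* SpecialLinearGroup (Fin 2) L),
      ∀ x : A, Y x = SpecialLinearGroup.map (algebraMap κ L) (y x) := by
  have := h.fgG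
  let m := SpecialLinearGroup.map (n := Fin 2) (algebraMap κ (AlgebraicClosure κ))
  obtain ⟨y', hy'⟩ := h.hit (κ := κ) (m (y ⟨z, h.glu.mem⟩))
  obtain ⟨Y, hY, _⟩ := h.glu.ext (AlgebraicClosure κ) (m.comp y) y' hy'.symm
  obtain ⟨L, _, _, _, _, i, Y', hY'⟩ := desc Y
  refine ⟨L, inferInstance, inferInstance, inferInstance, inferInstance, Y', fun x => ?_⟩
  have h1 := hY' x
  rw [hY] at h1
  apply Subtype.ext
  ext a b
  apply (i : L →+* AlgebraicClosure κ).injective
  have h2 := congrArg (fun N => N.1 a b) h1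
  change i ((Y' x).1 a b) = algebraMap κ (AlgebraicClosure κ) ((y x).1 a b) at h2
  change i ((Y' x).1 a b) = i (algebraMap κ L ((y x).1 a b))
  rw [h2, AlgHom.commutes]

/-- every representation of `A` over a finite field is a specialisation -/
theorem ptsA (h : Inp g j ρ A A' z) : Pts (ρ.comp A.subtype) := by
  intro κ _ _ _ y
  obtain ⟨L, _, _, _, _, Y, hY⟩ := h.ext_fin y
  obtain ⟨φ, hφ⟩ := h.pts L Y
  obtain ⟨ψ, hψ⟩ := pt_sub A φ hφ
  let _ : IsScalarTower (ZMod 2) κ L := IsScalarTower.of_algebraMap_eq' (Subsingleton.elim _ _)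
  let i : κ →ₐ[ZMod 2] L := IsScalarTower.toAlgHom (ZMod 2) κ L
  have hi : Function.Injective i := (algebraMap κ L).injective
  have hval : ∀ (g : A) a b, ψ ⟨((ρ.comp A.subtype) g).1 a b, mem_OO (ρ.comp A.subtype) g a b⟩ =
      i ((y g).1 a b) := by
    intro g a b
    rw [hψ]
    have h1 := congrArg (fun N => N.1 a b) (hY g)
    exact h1
  have hle : ∀ x, ψ x ∈ i.range := by
    intro x
    have hx : x ∈ Algebra.adjoin (ZMod 2) {x : OO 2 (ρ.comp A.subtype) |
        ∃ h i j, x = (rO (ρ.comp A.subtype) h).1 i j} := by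
      rw [adjoin_rO]; trivial
    induction hx using Algebra.adjoin_induction with
    | mem x hx =>
      obtain ⟨g, a, b, rfl⟩ := hx
      exact ⟨(y g).1 a b, (hval g a b).symm⟩
    | algebraMap c =>
      rw [AlgHom.commutes]
      exact Subalgebra.algebraMap_mem _ c
    | add x x' _ _ h1 h2 => rw [map_add]; exact Subalgebra.add_mem _ h1 h2
    | mul x x' _ _ h1 h2 => rw [map_mul]; exact Subalgebra.mul_mem _ h1 h2
  refine ⟨(AlgEquiv.ofInjective i hi).symm.toAlgHom.comp (ψ.codRestrict i.range hle), ?_⟩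
  intro g a b
  apply hi
  have h1 := congrArg Subtype.val ((AlgEquiv.ofInjective i hi).apply_symm_apply
    (ψ.codRestrict i.range hle ⟨((ρ.comp A.subtype) g).1 a b,
      mem_OO (ρ.comp A.subtype) g a b⟩))
  exact h1.trans (hval g a b)

end Inp

/-! ## Base change of crossed homomorphisms -/

section bc

variable {A κ L : Type} [Group A] [Field κ] [Field L] [Algebra κ L]

/-- base change of a matrix of trace zero -/
def tki (L : Type) [Field L] [Algebra κ L] (x : TK κ) : TK L :=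
  TK.mk (x.m.map (algebraMap κ L)) (by
    rw [Matrix.map_apply, Matrix.map_apply, ← map_add, x.tr, map_zero])

theorem tki_add (x y : TK κ) : tki L (x + y) = tki L x + tki L y := by
  apply TK.ext
  ext i j
  exact map_add (algebraMap κ L) _ _

theorem tki_act (q : SpecialLinearGroup (Fin 2) κ) (x : TK κ) :
    tki L (q • x) = SpecialLinearGroup.map (algebraMap κ L) q • tki L x := by
  apply TK.ext
  rw [TK.m_act]
  change (q.1 * x.m * (q⁻¹).1).map (algebraMap κ L) = _
  rw [Matrix.map_mul, Matrix.map_mul, ← map_inv]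
  rfl

theorem act_smul (q : SpecialLinearGroup (Fin 2) L) (β : L) (x : TK L) :
    q • (β • x) = β • (q • x) := by
  apply TK.ext
  rw [TK.m_act, TK.m_smul, TK.m_smul, TK.m_act, Matrix.mul_smul, Matrix.smul_mul]

variable {n : ℕ} (β : Fin n → L) {y : A →* SpecialLinearGroup (Fin 2) κ}
  {Y : A →* SpecialLinearGroup (Fin 2) L}

/-- base change of crossed homomorphisms -/
def bcC (hY : ∀ x, Y x = SpecialLinearGroup.map (algebraMap κ L) (y x))
    (c : Fin n → Crs y (TK κ)) : Crs Y (TK L) :=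
  ⟨fun x => ∑ i, β i • tki L ((c i).1 x), fun x x' => by
    change ∑ i, β i • tki L ((c i).1 (x * x')) = _
    rw [Finset.smul_sum, ← Finset.sum_add_distrib]
    refine Finset.sum_congr rfl fun i _ => ?_
    rw [(c i).2 x x', tki_add, tki_act, ← hY, smul_add, act_smul]⟩

theorem bcC_inj (hY : ∀ x, Y x = SpecialLinearGroup.map (algebraMap κ L) (y x))
    (B : Module.Basis (Fin n) κ L) : Function.Injective (bcC B hY) := by
  intro c c' h
  funext i
  apply Subtype.ext
  funext x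
  apply TK.ext
  ext a b
  have h1 := congrArg (fun C : Crs Y (TK L) => (C.1 x).m a b) h
  have key : ∀ c : Fin n → Crs y (TK κ), ((bcC B hY c).1 x).m a b =
      ∑ i, ((c i).1 x).m a b • B i := by
    intro c
    have h2 : ∀ s : Finset (Fin n), (∑ i ∈ s, B i • tki L ((c i).1 x)).m a b =
        ∑ i ∈ s, ((c i).1 x).m a b • B i := by
      intro s
      classical
      induction s using Finset.induction_on with
      | empty => rfl
      | insert i s hi ih =>
        rw [Finset.sum_insert hi, Finset.sum_insert hi, TK.m_add, Matrix.add_apply, ih,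
          TK.m_smul, Matrix.smul_apply, smul_eq_mul, Algebra.smul_def, mul_comm]
        rfl
    exact h2 Finset.univ
  change ((bcC B hY c).1 x).m a b = ((bcC B hY c').1 x).m a b at h1
  rw [key, key, ← B.equivFun_symm_apply, ← B.equivFun_symm_apply] at h1
  exact congrFun (B.equivFun.symm.injective h1) i

/-- base change of the number of crossed homomorphisms -/
theorem card_bc [Finite κ] [Finite L] [Group.FG A]
    (hY : ∀ x, Y x = SpecialLinearGroup.map (algebraMap κ L) (y x)) :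
    Nat.card (Crs y (TK κ)) ^ Module.finrank κ L ≤ Nat.card (Crs Y (TK L)) := by
  have h1 : Finite (Crs Y (TK L)) := crs_finite _
  have h2 : Module.Finite κ L := Module.Finite.of_finite
  have h3 := Nat.card_le_card_of_injective _ (bcC_inj hY (Module.finBasis κ L))
  rwa [Nat.card_fun, Nat.card_fin] at h3

end bc

namespace Inp

variable {g : ℕ} {Λ Γ F : Type} [Group Λ] [Group Γ] [Field F] [Algebra (ZMod 2) F]
  {j : Λ →* Γ} {ρ : Γ →* SpecialLinearGroup (Fin 2) F} {A A' : Subgroup Γ} {z : Γ}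

/-- the values at `z` are in the augmentation -/
theorem im_le (h : Inp g j ρ A A' z) {κ : Type} [Field κ] [Algebra (ZMod 2) κ]
    (Y : Γ →* SpecialLinearGroup (Fin 2) κ) :
    im A h.glu.mem Y (TK κ) ≤ IP (TK κ) Y.range := by
  rintro _ ⟨c, rfl⟩
  let f : A →* Multiplicative (TK κ ⧸ IP (TK κ) Y.range) :=
    MonoidHom.mk' (fun x => Multiplicative.ofAdd (QuotientAddGroup.mk (c.1 x))) (fun x x' => by
      rw [c.2 x x', ← ofAdd_add, ← QuotientAddGroup.mk_add]
      congr 1
      rw [QuotientAddGroup.eq_iff_sub_mem]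
      have h1 := sub_mem_IP (P := TK κ) (MonoidHom.mem_range.2 ⟨(x : Γ), rfl⟩ : Y x ∈ Y.range)
        (c.1 x')
      have h2 := neg_mem h1
      have h3 : c.1 x + (Y.comp A.subtype) x • c.1 x' - (c.1 x + c.1 x') =
          -(c.1 x' - Y x • c.1 x') := by
        change c.1 x + Y x • c.1 x' - (c.1 x + c.1 x') = _
        abel
      rw [h3]
      exact h2)
  have h1 := h.kill_el (P := TK κ ⧸ IP (TK κ) Y.range) (fun x => by
    obtain ⟨x, rfl⟩ := QuotientAddGroup.mk_surjective x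
    rw [← QuotientAddGroup.mk_add, tk_add_self]
    rfl) f
  exact (QuotientAddGroup.eq_zero_iff _).1 h1

/-- the upper bound for tangent spaces -/
theorem tngA (h : Inp g j ρ A A' z) {b : ℕ}
    (hb : Nat.card (A →* Multiplicative (ZMod 2)) = 2 ^ b) : Tng A (3 * b) := by
  have := h.fg
  have := h.fg'
  have := h.fgG
  obtain ⟨Φ⟩ := h.nb
  obtain ⟨a, ha⟩ := exists_d (ρ := ρ) A
  obtain ⟨a', ha'⟩ := exists_d (ρ := ρ) A'
  obtain ⟨b', hb'⟩ := exists_b A'
  obtain ⟨h1, h2, h3⟩ := h.num ha ha' hb hb'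
  intro κ _ _ _ y
  obtain ⟨L, _, _, _, _, Y, hY⟩ := h.ext_fin y
  have hfc : Finite (Crs y (TK κ)) := crs_finite _
  refine (Nat.card_le_card_of_injective _ (dlC_inj y)).trans ?_
  -- the count for `Γ`
  have h4 := h.glu.card_mul (eD (κ := L)) eD_inj Y
  have h5 := card_le_of_surj (P := TK L) h.fac.surj Φ Y
  have h6 : Nat.card (im A h.glu.mem Y (TK L) ⊔ im A' h.glu.mem' Y (TK L) :
      AddSubgroup (TK L)) ≤ Nat.card (IP (TK L) Y.range) :=
    Nat.card_le_card_of_injective (AddSubgroup.inclusion (sup_le (h.im_le Y) (h.symm.im_le Y)))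
      (AddSubgroup.inclusion_injective _)
  obtain ⟨φ, hφ⟩ := h.pts L Y
  obtain ⟨ψ, hψ⟩ := pt_sub A' φ hφ
  have h7 := lbC ha' ψ (Y.comp A'.subtype) hψ
  rw [h3] at h7
  rw [card_TK] at h5
  have hL : 1 < Nat.card L := Finite.one_lt_card
  have h8 : Nat.card (Crs (Y.comp A.subtype) (TK L)) * Nat.card L ^ (3 * b') ≤
      Nat.card L ^ (3 * b) * Nat.card L ^ (3 * b') := by
    calc Nat.card (Crs (Y.comp A.subtype) (TK L)) * Nat.card L ^ (3 * b')
        ≤ Nat.card (Crs (Y.comp A.subtype) (TK L)) * Nat.card (Crs (Y.comp A'.subtype) (TK L)) :=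
          Nat.mul_le_mul_left _ h7
      _ = Nat.card (Crs Y (TK L)) * Nat.card (im A h.glu.mem Y (TK L) ⊔
          im A' h.glu.mem' Y (TK L) : AddSubgroup (TK L)) := h4.symm
      _ ≤ Nat.card (Crs Y (TK L)) * Nat.card (IP (TK L) Y.range) := Nat.mul_le_mul_left _ h6
      _ ≤ (Nat.card L ^ 3) ^ (2 * g) := h5
      _ = Nat.card L ^ (3 * b) * Nat.card L ^ (3 * b') := by
          rw [← pow_mul, ← pow_add]
          congr 1
          omega
  have h9 : Nat.card (Crs (Y.comp A.subtype) (TK L)) ≤ Nat.card L ^ (3 * b) :=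
    Nat.le_of_mul_le_mul_right h8 (by positivity)
  have h10 := card_bc (Y := Y.comp A.subtype) hY
  have h11 : Module.Finite κ L := Module.Finite.of_finite
  have h12 : Nat.card L = Nat.card κ ^ Module.finrank κ L := Module.natCard_eq_pow_finrank
  have h13 : 0 < Module.finrank κ L := Module.finrank_pos
  have h14 : Nat.card (Crs y (TK κ)) ^ Module.finrank κ L ≤
      (Nat.card κ ^ (3 * b)) ^ Module.finrank κ L := by
    refine (h10.trans h9).trans (le_of_eq ?_)
    rw [h12, ← pow_mul, ← pow_mul, mul_comm]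
  exact (Nat.pow_le_pow_iff_left h13.ne').1 h14

/-- THE OUTPUT for the vertex group `A` -/
theorem out (h : Inp g j ρ A A' z) : ∃ b : ℕ,
    Algebra.trdeg (ZMod 2) (OO 2 (ρ.comp A.subtype)) = ((3 * b : ℕ) : Cardinal) ∧
    Nat.card (A →* Multiplicative (ZMod 2)) = 2 ^ b ∧ Pts (ρ.comp A.subtype) ∧ Tng A (3 * b) := by
  have := h.fg
  have := h.fg'
  obtain ⟨a, ha⟩ := exists_d (ρ := ρ) A
  obtain ⟨a', ha'⟩ := exists_d (ρ := ρ) A'
  obtain ⟨b, hb⟩ := exists_b A
  obtain ⟨b', hb'⟩ := exists_b A'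
  obtain ⟨h1, h2, h3⟩ := h.num ha ha' hb hb'
  exact ⟨b, by rw [ha, h2], hb, h.ptsA, h.tngA hb⟩

end Inp

/-- CLASS MEMBERSHIP FOR AMALGAMS -/
theorem cm_am {g : ℕ} {Λ Γ F : Type} [Group Λ] [Group Γ] [Field F] [Algebra (ZMod 2) F]
    {j : Λ →* Γ} {ρ : Γ →* SpecialLinearGroup (Fin 2) F} {A A' : Subgroup Γ} {z : Γ}
    (h : Inp g j ρ A A' z) (hinj : Function.Injective ρ) :
    ∃ b b' : ℕ, b + b' = 2 * g ∧ 2 ≤ b ∧ 2 ≤ b' ∧ InCls b A ∧ InCls b' A' := by
  have := h.fg
  have := h.fg'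
  obtain ⟨b, h1, h2, h3, h4⟩ := h.out
  obtain ⟨b', h1', h2', h3', h4'⟩ := h.symm.out
  exact ⟨b, b', (h.num h1 h1' h2 h2').1, h.two_le_b h2, h.symm.two_le_b h2',
    inCls_of_pts (hinj.comp Subtype.val_injective) h1 h2 h3 h4,
    inCls_of_pts (hinj.comp Subtype.val_injective) h1' h2' h3' h4'⟩

end Pool.Agent.SuCM
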