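import Pool.Agent.Lib.MP_305fdd_al.Fr.S.Rk

/-!
# MP_305fdd_al, closed surface groups, class membership: transcendence degrees of vertex groups
-/

set_option autoImplicit false
set_option linter.unusedSectionVars false

namespace Pool.Agent.SuCM

open Matrix (SpecialLinearGroup)
open Pool.Agent.FrN Pool.Agent.FrS

variable {F : Type} [Field F] [Algebra (ZMod 2) F]

theorem er_adjoin (X : Set F) : er ((Algebra.adjoin (ZMod 2) X : Subalgebra (ZMod 2) F) : Set F) =
    er X := by
  apply le_antisymm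
  · have h1 : ((Algebra.adjoin (ZMod 2) X : Subalgebra (ZMod 2) F) : Set F) ⊆
        (AlgebraicIndependent.matroid (ZMod 2) F).closure X := by
      rw [AlgebraicIndependent.matroid_closure_eq]
      intro x hx
      exact isAlgebraic_algebraMap (A := F) (⟨x, hx⟩ : Algebra.adjoin (ZMod 2) X)
    have h2 := er_mono h1
    refine h2.trans (le_of_eq ?_)
    exact Matroid.eRk_closure_eq _ X
  · exact er_mono Algebra.subset_adjoin

theorem er_sub {B : Subalgebra (ZMod 2) F} {D : ℕ}
    (h : Algebra.trdeg (ZMod 2) B = (D : Cardinal)) : er (B : Set F) = D := by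
  apply le_antisymm
  · rw [er_le_iff]
    intro I hI hind
    have h1 : AlgebraicIndependent (ZMod 2) (fun i : I => (⟨i.1, hI i.2⟩ : B)) := by
      refine AlgebraicIndependent.of_comp B.val ?_
      exact hind
    have h2 := h1.cardinalMk_le_trdeg
    rw [h] at h2
    have h3 := Cardinal.toENat_le_natCast.2 h2
    exact h3
  · obtain ⟨s, hs⟩ := exists_isTranscendenceBasis (ZMod 2) B
    have h1 := hs.cardinalMk_eq_trdeg
    rw [h] at h1
    have h2 : AlgebraicIndependent (ZMod 2) (B.val ∘ (Subtype.val : s → B)) :=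
      hs.1.map' (f := B.val) Subtype.val_injective
    have h3 : AlgebraicIndepOn (ZMod 2) id (Set.range (B.val ∘ (Subtype.val : s → B))) :=
      h2.coe_range
    have h4 : (Set.range (B.val ∘ (Subtype.val : s → B))).encard = D := by
      rw [← Set.image_univ, h2.injective.encard_image, Set.encard_univ]
      have h5 : ENat.card s = Cardinal.toENat (Cardinal.mk s) := rfl
      rw [h5, h1]
      simp
    rw [← h4]
    exact le_er_iff.2 ⟨_, by rintro _ ⟨y, rfl⟩; exact y.1.2, h3, rfl⟩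

theorem er_univ_le {B : Subalgebra (ZMod 2) F} (hB : Frc B) :
    er (Set.univ : Set F) ≤ er (B : Set F) := by
  have h1 : (Set.univ : Set F) ⊆ (AlgebraicIndependent.matroid (ZMod 2) F).closure (B : Set F) := by
    rw [AlgebraicIndependent.matroid_closure_eq]
    intro x _
    have h2 : IsAlgebraic B x := by
      obtain ⟨a, ha, b, hb, hb0, hab⟩ := hB x
      refine ⟨Polynomial.C ⟨b, hb⟩ * Polynomial.X - Polynomial.C ⟨a, ha⟩, ?_, ?_⟩
      · intro h
        have h3 := congrArg (fun p => Polynomial.coeff p 1) h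
        simp only [Polynomial.coeff_sub, Polynomial.coeff_C_mul, Polynomial.coeff_X_one,
          mul_one, Polynomial.coeff_C, Polynomial.coeff_zero] at h3
        rw [if_neg one_ne_zero, sub_zero] at h3
        exact hb0 (congrArg Subtype.val h3)
      · simp only [map_sub, map_mul, Polynomial.aeval_C, Polynomial.aeval_X]
        change b * x - a = 0
        rw [mul_comm, hab, sub_self]
    have h3 : IsAlgebraic (Algebra.adjoin (ZMod 2) (B : Set F)) x := by
      rw [Algebra.adjoin_eq]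
      exact h2
    exact h3
  refine (er_mono h1).trans (le_of_eq ?_)
  exact Matroid.eRk_closure_eq _ _

theorem er_univ {D : ℕ} (h : Algebra.trdeg (ZMod 2) F = (D : Cardinal)) :
    er (Set.univ : Set F) = D := by
  have h1 : Algebra.trdeg (ZMod 2) (⊤ : Subalgebra (ZMod 2) F) = (D : Cardinal) := by
    rw [← h]
    exact AlgEquiv.trdeg_eq Subalgebra.topEquiv
  have h2 := er_sub h1
  exact h2

section rep

variable {Γ : Type} [Group Γ] (ρ : Γ →* SpecialLinearGroup (Fin 2) F)

/-- the entries of a set of matrices -/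
def En (H : Set Γ) : Set F := {x | ∃ g ∈ H, ∃ i j, x = (ρ g).1 i j}

theorem En_mono {H H' : Set Γ} (h : H ⊆ H') : En ρ H ⊆ En ρ H' := by
  rintro x ⟨g, hg, i, j, rfl⟩
  exact ⟨g, h hg, i, j, rfl⟩

theorem OO_comp (A : Subgroup Γ) :
    OO 2 (ρ.comp A.subtype) = Algebra.adjoin (ZMod 2) (En ρ (A : Set Γ)) := by
  unfold OO
  congr 1
  ext x
  constructor
  · rintro ⟨g, i, j, rfl⟩
    exact ⟨g.1, g.2, i, j, rfl⟩
  · rintro ⟨g, hg, i, j, rfl⟩
    exact ⟨⟨g, hg⟩, i, j, rfl⟩

theorem er_En {A : Subgroup Γ} {D : ℕ}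
    (h : Algebra.trdeg (ZMod 2) (OO 2 (ρ.comp A.subtype)) = (D : Cardinal)) :
    er (En ρ (A : Set Γ)) = D := by
  rw [← er_adjoin, ← OO_comp]
  exact er_sub h

/-- the elements whose entries are in a subalgebra -/
def entG (B : Subalgebra (ZMod 2) F) : Subgroup Γ where
  carrier := {g | ∀ i j, (ρ g).1 i j ∈ B}
  one_mem' := by
    intro i j
    rw [map_one]
    change (1 : Matrix (Fin 2) (Fin 2) F) i j ∈ B
    rw [Matrix.one_apply]
    split_ifs
    · exact one_mem B
    · exact zero_mem B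
  mul_mem' := by
    intro a b ha hb i j
    rw [map_mul]
    change ((ρ a).1 * (ρ b).1) i j ∈ B
    rw [Matrix.mul_apply]
    exact B.sum_mem fun k _ => B.mul_mem (ha i k) (hb k j)
  inv_mem' := by
    intro a ha i j
    rw [map_inv]
    have h1 : ((ρ a)⁻¹).1 = (ρ a).1.adjugate := rfl
    rw [h1, Matrix.adjugate_fin_two]
    fin_cases i <;> fin_cases j
    · exact ha 1 1
    · exact B.neg_mem (ha 0 1)
    · exact B.neg_mem (ha 1 0)
    · exact ha 0 0

theorem OO_le {A A' : Subgroup Γ} (h : A ⊔ A' = ⊤) : OO 2 ρ ≤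
    Algebra.adjoin (ZMod 2) (En ρ (A : Set Γ) ∪ En ρ (A' : Set Γ)) := by
  set B := Algebra.adjoin (ZMod 2) (En ρ (A : Set Γ) ∪ En ρ (A' : Set Γ))
  have h1 : A ⊔ A' ≤ entG ρ B := by
    refine sup_le (fun x hx i j => ?_) (fun x hx i j => ?_)
    · exact Algebra.subset_adjoin (Or.inl ⟨x, hx, i, j, rfl⟩)
    · exact Algebra.subset_adjoin (Or.inr ⟨x, hx, i, j, rfl⟩)
  rw [h] at h1
  refine Algebra.adjoin_le ?_
  rintro _ ⟨g, i, j, rfl⟩
  exact h1 (Subgroup.mem_top g) i j

/-- (N1): the sum of the dimensions of the two vertex groups -/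
theorem n_one {A A' : Subgroup Γ} {z : Γ} (hz : z ∈ A) (hz' : z ∈ A') (h : A ⊔ A' = ⊤)
    (h3 : 3 ≤ er (En ρ {z})) {a a' N : ℕ}
    (ha : Algebra.trdeg (ZMod 2) (OO 2 (ρ.comp A.subtype)) = (a : Cardinal))
    (ha' : Algebra.trdeg (ZMod 2) (OO 2 (ρ.comp A'.subtype)) = (a' : Cardinal))
    (hN : (N : ℕ∞) ≤ er (OO 2 ρ : Set F)) : N + 3 ≤ a + a' := by
  have h1 := er_submod' (En_mono ρ (Set.singleton_subset_iff.2 (SetLike.mem_coe.2 hz)))
    (En_mono ρ (Set.singleton_subset_iff.2 (SetLike.mem_coe.2 hz')))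
  rw [er_En ρ ha, er_En ρ ha'] at h1
  have h2 : (N : ℕ∞) ≤ er (En ρ (A : Set Γ) ∪ En ρ (A' : Set Γ)) := by
    rw [← er_adjoin]
    exact hN.trans (er_mono (OO_le ρ h))
  have h4 : ((N + 3 : ℕ) : ℕ∞) ≤ ((a + a' : ℕ) : ℕ∞) := by
    push_cast
    rw [add_comm]
    exact (add_le_add h3 h2).trans h1
  exact_mod_cast h4

end rep

end Pool.Agent.SuCM
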