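import Pool.Agent.Lib.MP_305fdd_al.Su.CM.Emb
import Pool.Agent.Lib.MP_305fdd_al.Fr.S.Mat

/-!
# MP_305fdd_al, closed surface groups, class membership: finite fields and conjugations
-/

set_option autoImplicit false
set_option linter.unusedSectionVars false

namespace Pool.Agent.SuCM

open Matrix (SpecialLinearGroup)
open Pool.Agent.FrS

/-! ## Conjugations -/

section conj

variable {Ω : Type} [Field Ω] [Algebra (ZMod 2) Ω]

/-- the unipotent matrix -/
def U1 (Ω : Type) [Field Ω] : SpecialLinearGroup (Fin 2) Ω := ⟨!![1, 1; 0, 1], by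
  rw [Matrix.det_fin_two_of]
  simp⟩

theorem U1_00 : (U1 Ω).1 0 0 = 1 := rfl
theorem U1_01 : (U1 Ω).1 0 1 = 1 := rfl
theorem U1_10 : (U1 Ω).1 1 0 = 0 := rfl
theorem U1_11 : (U1 Ω).1 1 1 = 1 := rfl

theorem two_zf : (2 : Ω) = 0 := two_z Ω

/-- conjugation by a matrix with given entries -/
theorem conj_key (M : SpecialLinearGroup (Fin 2) Ω) (p q r s : Ω) (h : p * s - q * r = 1)
    (h1 : M.1 0 0 * p + M.1 0 1 * r = p) (h2 : M.1 0 0 * q + M.1 0 1 * s = p + q)
    (h3 : M.1 1 0 * p + M.1 1 1 * r = r) (h4 : M.1 1 0 * q + M.1 1 1 * s = r + s) :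
    ∃ P : SpecialLinearGroup (Fin 2) Ω, M = P * U1 Ω * P⁻¹ := by
  obtain ⟨P, hP⟩ : ∃ P : SpecialLinearGroup (Fin 2) Ω, P.1 = !![p, q; r, s] :=
    ⟨⟨!![p, q; r, s], by rw [Matrix.det_fin_two_of]; exact h⟩, rfl⟩
  have e00 : P.1 0 0 = p := by rw [hP]; rfl
  have e01 : P.1 0 1 = q := by rw [hP]; rfl
  have e10 : P.1 1 0 = r := by rw [hP]; rfl
  have e11 : P.1 1 1 = s := by rw [hP]; rfl
  refine ⟨P, ?_⟩
  have h5 : M * P = P * U1 Ω := by
    apply sl_ext
    · rw [sl_mul, sl_mul, U1_00, U1_10, e00, e01, e10]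
      linear_combination h1
    · rw [sl_mul, sl_mul, U1_01, U1_11, e00, e01, e11]
      linear_combination h2
    · rw [sl_mul, sl_mul, U1_00, U1_10, e00, e10, e11]
      linear_combination h3
    · rw [sl_mul, sl_mul, U1_01, U1_11, e01, e10, e11]
      linear_combination h4
  rw [← h5, mul_inv_cancel_right]

/-- conjugation into the unipotent matrix -/
theorem conj_U1 [IsAlgClosed Ω] (M : SpecialLinearGroup (Fin 2) Ω) (ht : M.1.trace = 0)
    (hM : M ≠ 1) : ∃ P : SpecialLinearGroup (Fin 2) Ω, M = P * U1 Ω * P⁻¹ := by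
  have h2 : (2 : Ω) = 0 := two_zf
  have hdet := sl_det M
  rw [sl_tr] at ht
  have hd : M.1 1 1 = M.1 0 0 := by linear_combination ht - M.1 0 0 * h2
  by_cases hc : M.1 1 0 = 0
  · have ha : M.1 0 0 = 1 := by
      have h3 : (M.1 0 0 - 1) ^ 2 = 0 := by
        rw [hd, hc] at hdet
        linear_combination hdet + (1 - M.1 0 0) * h2
      exact sub_eq_zero.1 (pow_eq_zero_iff two_ne_zero |>.1 h3)
    have hb : M.1 0 1 ≠ 0 := by
      intro hb
      apply hM
      apply sl_ext
      · exact ha
      · exact hb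
      · exact hc
      · rw [hd, ha]; rfl
    obtain ⟨s, hs⟩ := IsAlgClosed.exists_pow_nat_eq (M.1 0 1) (n := 2) (by norm_num)
    have hs0 : s ≠ 0 := by
      rintro rfl
      apply hb
      rw [← hs]
      ring
    refine conj_key M s 0 0 s⁻¹ (by field_simp; ring) ?_ ?_ ?_ ?_
    · rw [ha]; ring
    · rw [← hs]; field_simp; ring
    · rw [hc]; ring
    · rw [hd, ha]; ring
  · obtain ⟨s, hs⟩ := IsAlgClosed.exists_pow_nat_eq (M.1 1 0)⁻¹ (n := 2) (by norm_num)
    have hs1 : s ^ 2 * M.1 1 0 = 1 := by rw [hs, inv_mul_cancel₀ hc]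
    rw [hd] at hdet
    refine conj_key M (s * (M.1 0 0 + 1)) s (s * M.1 1 0) 0 ?_ ?_ ?_ ?_ ?_
    · linear_combination hs1 - (s ^ 2 * M.1 1 0) * h2
    · linear_combination s * hdet + (s * M.1 0 1 * M.1 1 0) * h2
    · linear_combination (-s) * h2
    · rw [hd]
      linear_combination (s * M.1 1 0 * M.1 0 0) * h2
    · ring

end conj

/-! ## Fields -/

section fields

theorem charP_two (κ : Type) [Field κ] [Algebra (ZMod 2) κ] : CharP κ 2 :=
  charP_of_injective_algebraMap (algebraMap (ZMod 2) κ).injective 2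

/-- the number of the units of a finite field of characteristic two is odd -/
theorem odd_units (κ : Type) [Field κ] [Finite κ] [Algebra (ZMod 2) κ] : Odd (Nat.card κˣ) := by
  have := charP_two κ
  have := Fintype.ofFinite κ
  obtain ⟨n, _, hn⟩ := FiniteField.card κ 2
  rw [Nat.card_units, Nat.card_eq_fintype_card, hn]
  have h1 : 1 ≤ 2 ^ (n : ℕ) := Nat.one_le_two_pow
  have h2 : Even (2 ^ (n : ℕ)) := Even.pow_of_ne_zero (by decide) n.ne_zero
  exact Nat.Even.sub_odd h1 h2 odd_one

/-- the order of an element of the algebraic closure is odd -/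
theorem odd_order (κ : Type) [Field κ] [Finite κ] [Algebra (ZMod 2) κ]
    (a : (AlgebraicClosure κ)ˣ) : Odd (orderOf a) := by
  let L : IntermediateField κ (AlgebraicClosure κ) := IntermediateField.adjoin κ {(a : AlgebraicClosure κ)}
  have hfd : FiniteDimensional κ L := by
    refine IntermediateField.finiteDimensional_adjoin fun x _ => ?_
    exact Algebra.IsIntegral.isIntegral x
  have hfin : Finite L := Module.finite_of_finite κ
  let _ : Algebra (ZMod 2) L := ((algebraMap κ L).comp (algebraMap (ZMod 2) κ)).toAlgebra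
  have ha : (a : AlgebraicClosure κ) ∈ L := IntermediateField.mem_adjoin_simple_self κ _
  have ha0 : (⟨a, ha⟩ : L) ≠ 0 := by
    intro h
    exact a.ne_zero (congrArg Subtype.val h)
  let b : Lˣ := Units.mk0 ⟨a, ha⟩ ha0
  have hb : Odd (orderOf b) := (odd_units L).of_dvd_nat (orderOf_dvd_natCard b)
  have h1 : orderOf (Units.map (algebraMap L (AlgebraicClosure κ) : L →* AlgebraicClosure κ) b) =
      orderOf b := by
    refine orderOf_injective _ ?_ b
    intro x y h
    apply Units.ext
    exact (algebraMap L (AlgebraicClosure κ)).injective (congrArg Units.val h)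
  have h2 : Units.map (algebraMap L (AlgebraicClosure κ) : L →* AlgebraicClosure κ) b = a :=
    Units.ext rfl
  rw [h2] at h1
  rw [h1]
  exact hb

/-- two finite fields in a common finite field -/
theorem common (κ κ' : Type) [Field κ] [Finite κ] [Algebra (ZMod 2) κ] [Field κ'] [Finite κ']
    [Algebra (ZMod 2) κ'] : ∃ (L : Type) (_ : Field L) (_ : Finite L) (_ : Algebra (ZMod 2) L)
      (_ : κ →ₐ[ZMod 2] L), Nonempty (κ' →ₐ[ZMod 2] L) := by
  have h1 : Algebra.IsAlgebraic (ZMod 2) κ := Algebra.IsAlgebraic.of_finite _ _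
  have h2 : Algebra.IsAlgebraic (ZMod 2) κ' := Algebra.IsAlgebraic.of_finite _ _
  let i : κ →ₐ[ZMod 2] AlgebraicClosure (ZMod 2) := IsAlgClosed.lift
  let i' : κ' →ₐ[ZMod 2] AlgebraicClosure (ZMod 2) := IsAlgClosed.lift
  have h3 : FiniteDimensional (ZMod 2) i.fieldRange := by
    have : Finite i.fieldRange := Finite.of_surjective i.rangeRestrict i.rangeRestrict_surjective
    exact Module.Finite.of_finite
  have h4 : FiniteDimensional (ZMod 2) i'.fieldRange := by
    have : Finite i'.fieldRange :=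
      Finite.of_surjective i'.rangeRestrict i'.rangeRestrict_surjective
    exact Module.Finite.of_finite
  let L : IntermediateField (ZMod 2) (AlgebraicClosure (ZMod 2)) := i.fieldRange ⊔ i'.fieldRange
  have h5 : FiniteDimensional (ZMod 2) L := IntermediateField.finiteDimensional_sup _ _
  have h6 : Finite L := Module.finite_of_finite (ZMod 2)
  refine ⟨L, inferInstance, h6, inferInstance,
    (IntermediateField.inclusion le_sup_left).comp i.rangeRestrict,
    ⟨(IntermediateField.inclusion le_sup_right).comp i'.rangeRestrict⟩⟩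

/-- a representation over the algebraic closure of a finite field is defined over a finite field -/
theorem desc {Γ κ : Type} [Group Γ] [Group.FG Γ] [Field κ] [Finite κ] [Algebra (ZMod 2) κ]
    (Y : Γ →* SpecialLinearGroup (Fin 2) (AlgebraicClosure κ)) :
    ∃ (L : Type) (_ : Field L) (_ : Finite L) (_ : Algebra (ZMod 2) L) (_ : Algebra κ L)
      (m : L →ₐ[κ] AlgebraicClosure κ) (Y' : Γ →* SpecialLinearGroup (Fin 2) L),
      ∀ g, SpecialLinearGroup.map (m : L →+* AlgebraicClosure κ) (Y' g) = Y g := by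
  obtain ⟨S, hS⟩ := (inferInstance : Group.FG Γ).out
  let X : Set (AlgebraicClosure κ) := {x | ∃ s ∈ S, ∃ i j, x = (Y s).1 i j}
  have hX : X.Finite := by
    have h1 : X = ⋃ s ∈ S, ⋃ i : Fin 2, ⋃ j : Fin 2, {(Y s).1 i j} := by
      ext x
      simp [X, eq_comm]
    rw [h1]
    refine Set.Finite.biUnion S.finite_toSet fun s _ => ?_
    exact Set.finite_iUnion fun i => Set.finite_iUnion fun j => Set.finite_singleton _
  have : Finite X := hX
  let L : IntermediateField κ (AlgebraicClosure κ) := IntermediateField.adjoin κ X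
  have hfd : FiniteDimensional κ L := by
    refine IntermediateField.finiteDimensional_adjoin fun x _ => ?_
    exact Algebra.IsIntegral.isIntegral x
  have hfin : Finite L := Module.finite_of_finite κ
  let _ : Algebra (ZMod 2) L := ((algebraMap κ L).comp (algebraMap (ZMod 2) κ)).toAlgebra
  let m : L →ₐ[κ] AlgebraicClosure κ := L.val
  let f := SpecialLinearGroup.map (n := Fin 2) (m : L →+* AlgebraicClosure κ)
  have hf : Function.Injective f := by
    intro x y h
    apply Subtype.ext
    ext i j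
    have h1 := congrArg (fun z => z.1 i j) h
    exact congrArg Subtype.val (Subtype.ext h1 : (x.1 i j : L) = y.1 i j)
  have h1 : ∀ g, Y g ∈ f.range := by
    have h2 : (⊤ : Subgroup Γ) ≤ f.range.comap Y := by
      rw [← hS, Subgroup.closure_le]
      intro s hs
      have h3 : ∀ i j, (Y s).1 i j ∈ L := fun i j =>
        IntermediateField.subset_adjoin κ X ⟨s, hs, i, j, rfl⟩
      refine ⟨⟨Matrix.of fun i j => ⟨(Y s).1 i j, h3 i j⟩, ?_⟩, ?_⟩
      · apply Subtype.val_injective
        have h4 := (Y s).2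
        rw [Matrix.det_fin_two] at h4 ⊢
        exact h4
      · apply Subtype.ext
        ext i j
        rfl
    exact fun g => h2 (Subgroup.mem_top g)
  refine ⟨L, inferInstance, hfin, inferInstance, inferInstance, m,
    (MonoidHom.ofInjective hf).symm.toMonoidHom.comp (Y.codRestrict f.range h1), fun g => ?_⟩
  exact congrArg Subtype.val
    ((MonoidHom.ofInjective hf).apply_symm_apply ((Y.codRestrict f.range h1) g))

end fields

end Pool.Agent.SuCM
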