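import Pool.Agent.Lib.MP_305fdd_al.Su.CM.Num
import Pool.Agent.Lib.MP_305fdd_al.Su.CM.Fld

/-!
# MP_305fdd_al, closed surface groups, class membership: extension of representations

Every representation of the vertex group `A` over a finite field extends to the amalgam, over a larger
finite field.
-/

set_option autoImplicit false
set_option linter.unusedSectionVars false

namespace Pool.Agent.SuCM

open Matrix (SpecialLinearGroup)
open Pool.Agent.FrN Pool.Agent.FrS Pool.Agent.SuD Pool.Agent.Lib.MP_305fdd_al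
  Pool.Agent.MP_305fdd_al Pool.Agent.SurfCnt

/-! ## Change of coefficients -/

section map

variable {A Q P P' : Type} [Group A] [Group Q] [AddCommGroup P] [DistribMulAction Q P]
  [AddCommGroup P'] [DistribMulAction Q P']

/-- change of coefficients -/
def mapC (θ : A →* Q) (f : P →+ P') (hf : ∀ (q : Q) (p : P), f (q • p) = q • f p) (c : Crs θ P) :
    Crs θ P' := ⟨fun x => f (c.1 x), fun x y => by
  change f (c.1 (x * y)) = _
  rw [c.2 x y, map_add, hf]⟩

theorem mapC_apply (θ : A →* Q) (f : P →+ P') (hf : ∀ (q : Q) (p : P), f (q • p) = q • f p)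
    (c : Crs θ P) (x : A) : (mapC θ f hf c).1 x = f (c.1 x) := rfl

end map

theorem units_map {P P' : Type} [AddCommGroup P] [AddCommGroup P'] (f : P →+ P') (q : ℤˣ) (p : P) :
    f (q • p) = q • f p := by
  rw [Units.smul_def, Units.smul_def, map_zsmul]

/-- the homomorphism to the group of order two -/
def sgnZ : ℤˣ →* Multiplicative (ZMod 2) where
  toFun u := if u = 1 then 1 else Multiplicative.ofAdd 1
  map_one' := if_pos rfl
  map_mul' := by decide

theorem sgnZ_eq (u : ℤˣ) (h : sgnZ u = 1) : u = 1 := by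
  revert u
  decide

/-- the group of order two -/
def sgnI : Multiplicative (ZMod 2) →* ℤˣ where
  toFun u := if u = 1 then 1 else -1
  map_one' := if_pos rfl
  map_mul' := by decide

theorem sgnI_eq (u : Multiplicative (ZMod 2)) (h : sgnI u = 1) : u = 1 := by
  revert u
  decide

namespace Inp

variable {g : ℕ} {Λ Γ F : Type} [Group Λ] [Group Γ] [Field F] [Algebra (ZMod 2) F]
  {j : Λ →* Γ} {ρ : Γ →* SpecialLinearGroup (Fin 2) F} {A A' : Subgroup Γ} {z : Γ}

theorem kill_hom (h : Inp g j ρ A A' z) (f : A →* Multiplicative (ZMod 2)) :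
    f ⟨z, h.glu.mem⟩ = 1 := by
  have h1 := h.kill_two ((crsOneE A (ZMod 2)ˣ (ZMod 2)).symm f)
  exact h1

/-- homomorphisms to elementary abelian groups of exponent two kill `z` -/
theorem kill_el (h : Inp g j ρ A A' z) {P : Type} [AddCommGroup P] (h2 : ∀ x : P, x + x = 0)
    (f : A →* Multiplicative P) : f ⟨z, h.glu.mem⟩ = 1 := by
  let _ : Module (ZMod 2) P := AddCommGroup.zmodModule (fun x => by rw [two_nsmul]; exact h2 x)
  by_contra hne
  have h3 : (f ⟨z, h.glu.mem⟩).toAdd ≠ 0 := hne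
  obtain ⟨l, hl⟩ := Module.Projective.exists_dual_ne_zero (ZMod 2) h3
  have h4 := h.kill_hom (MonoidHom.mk' (fun x => Multiplicative.ofAdd (l (f x).toAdd))
    (fun x y => by
      rw [map_mul, toAdd_mul, map_add]
      rfl))
  exact hl h4

theorem kill_sign (h : Inp g j ρ A A' z) (ε : A →* ℤˣ) : ε ⟨z, h.glu.mem⟩ = 1 :=
  sgnZ_eq _ (h.kill_hom (sgnZ.comp ε))

theorem two_le_b (h : Inp g j ρ A A' z) {b : ℕ}
    (hb : Nat.card (A →* Multiplicative (ZMod 2)) = 2 ^ b) : 2 ≤ b := by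
  have := h.fg
  obtain ⟨a, ha⟩ := exists_d (ρ := ρ) A
  have h8 := h.d_le ha hb
  have h9 := h.e4
  rw [er_En ρ ha] at h9
  have h10 : 4 ≤ a := by exact_mod_cast h9
  omega

theorem exists_sign (h : Inp g j ρ A A' z) : ∃ ε : A →* ℤˣ, ε ≠ 1 := by
  have := h.fg
  obtain ⟨b, hb⟩ := exists_b A
  have h1 := h.two_le_b hb
  have h2 : 1 < Nat.card (A →* Multiplicative (ZMod 2)) := by
    rw [hb]
    exact Nat.one_lt_two_pow (by omega)
  have h3 : Finite (Multiplicative (ZMod 2)) := inferInstanceAs (Finite (ZMod 2))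
  have h4 : Finite (A →* Multiplicative (ZMod 2)) := finite_homs _
  have h5 : Nontrivial (A →* Multiplicative (ZMod 2)) := Finite.one_lt_card_iff_nontrivial.1 h2
  obtain ⟨f, hf⟩ := exists_ne (1 : A →* Multiplicative (ZMod 2))
  refine ⟨sgnI.comp f, fun h6 => hf ?_⟩
  ext x : 1
  exact sgnI_eq _ (DFunLike.congr_fun h6 x)

/-- the four terms for dihedral representations: there are crossed homomorphisms with `z ↦ 1` -/
theorem alt (h : Inp g j ρ A A' z) {l k : ℕ} (hl : l.Prime) (hl2 : l ≠ 2) (ε' : A' →* ℤˣ)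
    (hε' : ε' ≠ 1) : ∃ c : Crs ε' (ZMod (l ^ k)), c.1 ⟨z, h.glu.mem'⟩ = 1 := by
  have := h.fg
  have := h.fg'
  obtain ⟨Φ⟩ := h.nb
  have : Fact l.Prime := ⟨hl⟩
  obtain ⟨ε, hε⟩ := h.exists_sign
  -- the alternative
  have key : ∀ K : ℕ, 1 ≤ K →
      (imE (⟨z, h.glu.mem⟩ : A) (1 : A →* ℤˣ) (ZMod (l ^ K)) = ⊤ ∧
        imE (⟨z, h.glu.mem'⟩ : A') (1 : A' →* ℤˣ) (ZMod (l ^ K)) = ⊤ ∧
        imE (⟨z, h.glu.mem'⟩ : A') ε' (ZMod (l ^ K)) = ⊥) ∨
      imE (⟨z, h.glu.mem'⟩ : A') ε' (ZMod (l ^ K)) = ⊤ := by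
    intro K hK
    have hodd : Odd (l ^ K) := (hl.odd_of_ne_two hl2).pow
    have : NeZero (l ^ K) := ⟨pow_ne_zero _ hl.ne_zero⟩
    obtain ⟨κ, _, _, _, f, hf⟩ := Pool.Agent.SuFI.exists_units (l ^ K) hodd
    have hζ : orderOf (f (Multiplicative.ofAdd 1)) = l ^ K := by
      rw [orderOf_injective f hf, orderOf_ofAdd_eq_addOrderOf, ZMod.addOrderOf_one]
    rcases h.glu.four h.fac Φ _ (eT_inj _ hζ) (IP_zmod hodd) (by
      rw [Nat.card_zmod]
      exact Nat.one_lt_pow (by omega) hl.one_lt)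
      (fun α α' => zmod_chain l K _ _) ε ε' (h.kill_sign ε) (h.symm.kill_sign ε') hε hε' with
      ⟨h1, h2, _, h4⟩ | ⟨_, _, _, h4⟩
    · exact Or.inl ⟨h1, h2, h4⟩
    · exact Or.inr h4
  rcases Nat.eq_zero_or_pos k with rfl | hk
  · refine ⟨0, ?_⟩
    have : Subsingleton (ZMod (l ^ 0)) := by
      rw [pow_zero]
      infer_instance
    exact Subsingleton.elim _ _
  rcases key k hk with ⟨-, -, h3⟩ | h3
  · exfalso
    -- the first alternative for all larger exponents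
    have hall : ∀ K : ℕ, k ≤ K →
        imE (⟨z, h.glu.mem⟩ : A) (1 : A →* ℤˣ) (ZMod (l ^ K)) = ⊤ ∧
        imE (⟨z, h.glu.mem'⟩ : A') (1 : A' →* ℤˣ) (ZMod (l ^ K)) = ⊤ := by
      intro K hK
      rcases key K (le_trans hk hK) with ⟨h4, h5, -⟩ | h4
      · exact ⟨h4, h5⟩
      · exfalso
        have h5 : (1 : ZMod (l ^ K)) ∈ imE (⟨z, h.glu.mem'⟩ : A') ε' (ZMod (l ^ K)) := by
          rw [h4]
          exact AddSubgroup.mem_top _
        obtain ⟨c, hc⟩ := h5
        have hd : l ^ k ∣ l ^ K := pow_dvd_pow l hK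
        have h6 : (1 : ZMod (l ^ k)) ∈ imE (⟨z, h.glu.mem'⟩ : A') ε' (ZMod (l ^ k)) := by
          refine ⟨mapC ε' (ZMod.castHom hd (ZMod (l ^ k))).toAddMonoidHom
            (units_map _) c, ?_⟩
          have h7 : c.1 ⟨z, h.glu.mem'⟩ = 1 := hc
          change ZMod.castHom hd (ZMod (l ^ k)) (c.1 ⟨z, h.glu.mem'⟩) = 1
          rw [h7, map_one]
        rw [h3] at h6
        have h7 : (1 : ZMod (l ^ k)) = 0 := h6
        have : Fact (1 < l ^ k) := ⟨Nat.one_lt_pow (by omega) hl.one_lt⟩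
        exact one_ne_zero h7
    obtain ⟨a, ha⟩ := exists_d (ρ := ρ) A
    obtain ⟨a', ha'⟩ := exists_d (ρ := ρ) A'
    obtain ⟨b, hb⟩ := exists_b A
    obtain ⟨b', hb'⟩ := exists_b A'
    have hnum := (h.num ha ha' hb hb').1
    obtain ⟨n, C, hC⟩ := rank_pow A
    obtain ⟨n', C', hC'⟩ := rank_pow A'
    have hn : n ≤ b := by
      have := (hC 2 (by norm_num)).1
      rw [hb] at this
      exact (Nat.pow_le_pow_iff_right (by norm_num)).1 this
    have hn' : n' ≤ b' := by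
      have := (hC' 2 (by norm_num)).1
      rw [hb'] at this
      exact (Nat.pow_le_pow_iff_right (by norm_num)).1 this
    have hle : 2 * g + 1 ≤ n + n' := by
      refine le_of_pow (l := l) (C := C * C') (k₀ := k) hl.two_le ?_
      intro K hK
      have hodd : Odd (l ^ K) := (hl.odd_of_ne_two hl2).pow
      have : NeZero (l ^ K) := ⟨pow_ne_zero _ hl.ne_zero⟩
      obtain ⟨κ, _, _, _, f, hf⟩ := Pool.Agent.SuFI.exists_units (l ^ K) hodd
      have hζ : orderOf (f (Multiplicative.ofAdd 1)) = l ^ K := by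
        rw [orderOf_injective f hf, orderOf_ofAdd_eq_addOrderOf, ZMod.addOrderOf_one]
      have h1 := h.glu.cnt_one h.fac Φ _ (eT_inj _ hζ)
      obtain ⟨h4, h5⟩ := hall K hK
      rw [h4, h5, sup_idem, AddSubgroup.card_top, Nat.card_zmod, card_crsOne, card_crsOne] at h1
      have hpos : 0 < l ^ K := Nat.pos_of_ne_zero (pow_ne_zero _ hl.ne_zero)
      calc (l ^ K) ^ (2 * g + 1) = (l ^ K) ^ (2 * g) * l ^ K := pow_succ _ _
        _ = Nat.card (A →* Multiplicative (ZMod (l ^ K))) *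
            Nat.card (A' →* Multiplicative (ZMod (l ^ K))) := h1
        _ ≤ (C * (l ^ K) ^ n) * (C' * (l ^ K) ^ n') :=
            Nat.mul_le_mul (hC _ hpos).2 (hC' _ hpos).2
        _ = C * C' * (l ^ K) ^ (n + n') := by rw [pow_add]; ring
    omega
  · have h5 : (1 : ZMod (l ^ k)) ∈ imE (⟨z, h.glu.mem'⟩ : A') ε' (ZMod (l ^ k)) := by
      rw [h3]
      exact AddSubgroup.mem_top _
    exact h5

/-- dihedral representations with `z ↦ 1` -/
theorem dih (h : Inp g j ρ A A' z) (ε' : A' →* ℤˣ) (hε' : ε' ≠ 1) (m : ℕ) (hm : Odd m) :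
    ∃ c : Crs ε' (ZMod m), c.1 ⟨z, h.glu.mem'⟩ = 1 := by
  induction m using Nat.recOnPosPrimePosCoprime with
  | zero => exact absurd hm (by decide)
  | one =>
    refine ⟨0, ?_⟩
    exact Subsingleton.elim _ _
  | prime_pow p n hp hn =>
    refine h.alt hp ?_ ε' hε'
    rintro rfl
    exact absurd hm (by
      rw [Nat.not_odd_iff_even]
      exact Even.pow_of_ne_zero (by decide) (by omega))
  | coprime a b ha hb hab ih1 ih2 =>
    obtain ⟨c, hc⟩ := ih1 (Nat.odd_mul.1 hm).1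
    obtain ⟨c', hc'⟩ := ih2 (Nat.odd_mul.1 hm).2
    let e := (ZMod.chineseRemainder hab).symm
    let f1 : ZMod a →+ ZMod (a * b) :=
      e.toRingHom.toAddMonoidHom.comp (AddMonoidHom.inl (ZMod a) (ZMod b))
    let f2 : ZMod b →+ ZMod (a * b) :=
      e.toRingHom.toAddMonoidHom.comp (AddMonoidHom.inr (ZMod a) (ZMod b))
    refine ⟨mapC ε' f1 (units_map f1) c + mapC ε' f2 (units_map f2) c', ?_⟩
    change e (c.1 ⟨z, h.glu.mem'⟩, 0) + e (0, c'.1 ⟨z, h.glu.mem'⟩) = 1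
    rw [hc, hc', ← map_add, Prod.mk_add_mk, add_zero, zero_add]
    exact map_one e

/-- triangular representations with `z` unipotent -/
theorem bor (h : Inp g j ρ A A' z) : ∃ (κ : Type) (_ : Field κ) (_ : Finite κ)
    (_ : Algebra (ZMod 2) κ) (χ : A' →* κˣ) (c : Crs χ κ), χ ⟨z, h.glu.mem'⟩ = 1 ∧
      c.1 ⟨z, h.glu.mem'⟩ ≠ 0 := by
  have := h.fg
  have := h.fg'
  obtain ⟨Φ⟩ := h.nb
  obtain ⟨κ, _, _, _, χ, hχz, hχ⟩ := h.exists_chi
  obtain ⟨κ', _, _, _, χ', hχz', hχ'⟩ := h.symm.exists_chi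
  obtain ⟨L, _, _, _, i, ⟨i'⟩⟩ := common κ κ'
  have hu : ∀ {κ : Type} [Field κ] [Algebra (ZMod 2) κ] (i : κ →ₐ[ZMod 2] L),
      Function.Injective (Units.map (i : κ →* L)) := by
    intro κ _ _ i x y hxy
    apply Units.ext
    exact i.toRingHom.injective (congrArg Units.val hxy)
  let α' : A' →* Lˣ := (Units.map (i : κ →* L)).comp χ
  let α : A →* Lˣ := (Units.map (i' : κ' →* L)).comp χ'
  have hα' : α' ≠ 1 := by
    intro h1
    apply hχ
    ext x : 1
    apply hu i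
    rw [MonoidHom.one_apply, map_one]
    exact DFunLike.congr_fun h1 x
  have hα : α ≠ 1 := by
    intro h1
    apply hχ'
    ext x : 1
    apply hu i'
    rw [MonoidHom.one_apply, map_one]
    exact DFunLike.congr_fun h1 x
  have hα'z : α' ⟨z, h.glu.mem'⟩ = 1 := by
    change Units.map (i : κ →* L) (χ ⟨z, h.glu.mem'⟩) = 1
    rw [hχz, map_one]
  have hαz : α ⟨z, h.glu.mem⟩ = 1 := by
    change Units.map (i' : κ' →* L) (χ' ⟨z, h.glu.mem⟩) = 1
    rw [hχz', map_one]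
  have hL : 1 < Nat.card L := Finite.one_lt_card
  refine ⟨L, inferInstance, inferInstance, inferInstance, α', ?_⟩
  rcases h.glu.four h.fac Φ (eB (κ := L)) eB_inj (fun θ hθ => IP_units θ hθ) hL
    (fun α α' => chain_units _ _ _ _) α α' hαz hα'z hα hα' with ⟨h1, _, _, _⟩ | ⟨_, _, _, h4⟩
  · exfalso
    have h5 : (1 : L) ∈ imE (⟨z, h.glu.mem⟩ : A) (1 : A →* Lˣ) L := by
      rw [h1]
      exact AddSubgroup.mem_top _
    obtain ⟨c, hc⟩ := h5
    have h6 := h.kill_el (P := L) add_self (crsOneE A Lˣ L c)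
    have h7 : c.1 ⟨z, h.glu.mem⟩ = 0 := h6
    have h8 : c.1 ⟨z, h.glu.mem⟩ = 1 := hc
    rw [h7] at h8
    exact zero_ne_one h8
  · have h5 : (1 : L) ∈ imE (⟨z, h.glu.mem'⟩ : A') α' L := by
      rw [h4]
      exact AddSubgroup.mem_top _
    obtain ⟨c, hc⟩ := h5
    refine ⟨c, hα'z, ?_⟩
    have h8 : c.1 ⟨z, h.glu.mem'⟩ = 1 := hc
    rw [h8]
    exact one_ne_zero

end Inp

end Pool.Agent.SuCM
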