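import Pool.Agent.Lib.MP_305fdd_al.Su.CM.RL
import Pool.Agent.Lib.MP_305fdd_al.Su.CM.Emb

/-!
# MP_305fdd_al, closed surface groups, class membership: the four terms
-/

set_option autoImplicit false
set_option linter.unusedSectionVars false

namespace Pool.Agent.SuCM

open Matrix (SpecialLinearGroup)
open Pool.Agent.SuD Pool.Agent.Lib.MP_305fdd_al Pool.Agent.MP_305fdd_al Pool.Agent.SurfCnt

section basic

variable {Q P : Type} [Group Q] [AddCommGroup P] [DistribMulAction Q P]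

/-- the values at `a` of the crossed homomorphisms -/
def imE {A : Type} [Group A] (a : A) (α : A →* Q) (P : Type) [AddCommGroup P]
    [DistribMulAction Q P] : AddSubgroup P := (evC α P a).range

theorem mem_imE {A : Type} [Group A] {a : A} {α : A →* Q} {p : P} :
    p ∈ imE a α P ↔ ∃ c : Crs α P, c.1 a = p := Iff.rfl

theorem im_eq {Γ : Type} [Group Γ] {A : Subgroup Γ} {z : Γ} (hz : z ∈ A) (θ : Γ →* Q) :
    im A hz θ P = imE ⟨z, hz⟩ (θ.comp A.subtype) P := rfl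

theorem IP_one {Γ : Type} [Group Γ] : IP P (1 : Γ →* Q).range = ⊥ := by
  rw [eq_bot_iff]
  unfold IP
  rw [AddSubgroup.closure_le]
  rintro _ ⟨q, ⟨x, rfl⟩, p, rfl⟩
  change p - (1 : Q) • p ∈ (⊥ : AddSubgroup P)
  rw [one_smul, sub_self]
  exact zero_mem _

/-- the linear part inside the affine group -/
def qAF (Q P : Type) [Group Q] [AddCommGroup P] [DistribMulAction Q P] : Q →* AF Q P where
  toFun q := ⟨0, q⟩
  map_one' := rfl
  map_mul' q r := by
    ext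
    · simp
    · rfl

theorem qAF_inj : Function.Injective (qAF Q P) := fun _ _ h => congrArg AF.q h

theorem card_one_le (I : AddSubgroup P) [Finite P] : 1 ≤ Nat.card I := Nat.card_pos

theorem card_le_P (I : AddSubgroup P) [Finite P] : Nat.card I ≤ Nat.card P :=
  Nat.card_le_card_of_injective _ Subtype.val_injective

theorem eq_top_of_card [Finite P] {I : AddSubgroup P} (h : Nat.card I = Nat.card P) : I = ⊤ :=
  AddSubgroup.eq_top_of_card_eq I h

end basic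

section four

variable {Λ Γ : Type} [Group Λ] [Group Γ] {A A' : Subgroup Γ} {z : Γ}
  {Q P : Type} [Group Q] [AddCommGroup P] [DistribMulAction Q P] {j : Λ →* Γ}

/-- the gluing of two homomorphisms to the linear part -/
theorem Glu.extL (h : Glu A A' z) {κ : Type} [Field κ] [Algebra (ZMod 2) κ]
    (ι : AF Q P →* SpecialLinearGroup (Fin 2) κ) (hι : Function.Injective ι) (α : A →* Q)
    (α' : A' →* Q) (hα : α ⟨z, h.mem⟩ = α' ⟨z, h.mem'⟩) :
    ∃ θ : Γ →* Q, θ.comp A.subtype = α ∧ θ.comp A'.subtype = α' := by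
  obtain ⟨θ, h1, h2⟩ := h.extQ (ι.comp (qAF Q P)) (hι.comp qAF_inj) α α' hα
  exact ⟨θ, MonoidHom.ext h1, MonoidHom.ext h2⟩

/-- the count of the pairs with the trivial linear part -/
theorem Glu.cnt_one (h : Glu A A' z) (hF : Fac j) {g : ℕ} (Φ : NatBij Λ (SurfG g)) {κ : Type}
    [Field κ] [Finite κ] [Algebra (ZMod 2) κ] (ι : AF Q P →* SpecialLinearGroup (Fin 2) κ)
    (hι : Function.Injective ι) [Finite Q] [Finite P] [Group.FG A] [Group.FG A'] :
    Nat.card P ^ (2 * g) * Nat.card (imE (⟨z, h.mem⟩ : A) (1 : A →* Q) P ⊔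
      imE (⟨z, h.mem'⟩ : A') (1 : A' →* Q) P : AddSubgroup P) =
      Nat.card (Crs (1 : A →* Q) P) * Nat.card (Crs (1 : A' →* Q) P) := by
  have h1 := h.card_mul ι hι (1 : Γ →* Q)
  have h2 := hF.card Φ ι hι (1 : Γ →* Q)
  rw [IP_one, AddSubgroup.card_bot, mul_one] at h2
  rw [h2] at h1
  exact h1

/-- the count of the pairs with a nontrivial linear part -/
theorem Glu.cnt_ne (h : Glu A A' z) (hF : Fac j) {g : ℕ} (Φ : NatBij Λ (SurfG g)) {κ : Type}
    [Field κ] [Finite κ] [Algebra (ZMod 2) κ] (ι : AF Q P →* SpecialLinearGroup (Fin 2) κ)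
    (hι : Function.Injective ι) [Finite Q] [Finite P] [Group.FG A] [Group.FG A']
    (hIP : ∀ θ : Γ →* Q, θ ≠ 1 → IP P θ.range = ⊤) (α : A →* Q) (α' : A' →* Q)
    (hα : α ⟨z, h.mem⟩ = α' ⟨z, h.mem'⟩) (hne : α ≠ 1 ∨ α' ≠ 1) :
    Nat.card P ^ (2 * g) * Nat.card (imE (⟨z, h.mem⟩ : A) α P ⊔
      imE (⟨z, h.mem'⟩ : A') α' P : AddSubgroup P) =
      Nat.card P * (Nat.card (Crs α P) * Nat.card (Crs α' P)) := by
  obtain ⟨θ, h3, h4⟩ := h.extL ι hι α α' hα
  have hθ : θ ≠ 1 := by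
    rintro rfl
    rcases hne with h5 | h5
    · exact h5 h3.symm
    · exact h5 h4.symm
  have h1 := h.card_mul ι hι θ
  have h2 := hF.card Φ ι hι θ
  rw [hIP θ hθ, AddSubgroup.card_top] at h2
  rw [im_eq, im_eq, h3, h4] at h1
  rw [← h1, ← h2]
  ring

/-- THE FOUR TERMS -/
theorem Glu.four (h : Glu A A' z) (hF : Fac j) {g : ℕ} (Φ : NatBij Λ (SurfG g)) {κ : Type}
    [Field κ] [Finite κ] [Algebra (ZMod 2) κ] (ι : AF Q P →* SpecialLinearGroup (Fin 2) κ)
    (hι : Function.Injective ι) [Finite Q] [Finite P] [Group.FG A] [Group.FG A']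
    (hIP : ∀ θ : Γ →* Q, θ ≠ 1 → IP P θ.range = ⊤) (hP : 1 < Nat.card P)
    (hch : ∀ (α : A →* Q) (α' : A' →* Q), imE (⟨z, h.mem⟩ : A) α P ≤
      imE (⟨z, h.mem'⟩ : A') α' P ∨ imE (⟨z, h.mem'⟩ : A') α' P ≤ imE (⟨z, h.mem⟩ : A) α P)
    (α : A →* Q) (α' : A' →* Q) (hα : α ⟨z, h.mem⟩ = 1) (hα' : α' ⟨z, h.mem'⟩ = 1)
    (hne : α ≠ 1) (hne' : α' ≠ 1) :
    (imE (⟨z, h.mem⟩ : A) (1 : A →* Q) P = ⊤ ∧
      imE (⟨z, h.mem'⟩ : A') (1 : A' →* Q) P = ⊤ ∧
      imE (⟨z, h.mem⟩ : A) α P = ⊥ ∧ imE (⟨z, h.mem'⟩ : A') α' P = ⊥) ∨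
    (imE (⟨z, h.mem⟩ : A) (1 : A →* Q) P = ⊥ ∧
      imE (⟨z, h.mem'⟩ : A') (1 : A' →* Q) P = ⊥ ∧
      imE (⟨z, h.mem⟩ : A) α P = ⊤ ∧ imE (⟨z, h.mem'⟩ : A') α' P = ⊤) := by
  have h00 := h.cnt_one hF Φ ι hι
  have h01 := h.cnt_ne hF Φ ι hι hIP 1 α' (by rw [hα']; rfl) (Or.inr hne')
  have h10 := h.cnt_ne hF Φ ι hι hIP α 1 (by rw [hα]; rfl) (Or.inl hne)
  have h11 := h.cnt_ne hF Φ ι hι hIP α α' (by rw [hα, hα']) (Or.inl hne)
  rw [card_sup_of_chain (hch _ _)] at h00 h01 h10 h11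
  have f1 : Finite (Crs (1 : A →* Q) P) := crs_finite _
  have f2 : Finite (Crs (1 : A' →* Q) P) := crs_finite _
  have f3 : Finite (Crs α P) := crs_finite _
  have f4 : Finite (Crs α' P) := crs_finite _
  set x := Nat.card (imE (⟨z, h.mem⟩ : A) (1 : A →* Q) P) with hx
  set x' := Nat.card (imE (⟨z, h.mem'⟩ : A') (1 : A' →* Q) P) with hx'
  set y := Nat.card (imE (⟨z, h.mem⟩ : A) α P) with hy
  set y' := Nat.card (imE (⟨z, h.mem'⟩ : A') α' P) with hy'
  set n := Nat.card P with hn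
  set a := Nat.card (Crs (1 : A →* Q) P)
  set a' := Nat.card (Crs (1 : A' →* Q) P)
  set e := Nat.card (Crs α P)
  set e' := Nat.card (Crs α' P)
  have hN : 0 < n ^ (2 * g) := by positivity
  have key : n * max x x' * max y y' = max x y' * max y x' := by
    have h1 : n ^ (2 * g) * n ^ (2 * g) * n * (n * max x x' * max y y') =
        n ^ (2 * g) * n ^ (2 * g) * n * (max x y' * max y x') := by
      calc n ^ (2 * g) * n ^ (2 * g) * n * (n * max x x' * max y y')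
          = n * n * ((n ^ (2 * g) * max x x') * (n ^ (2 * g) * max y y')) := by ring
        _ = n * n * ((a * a') * (n * (e * e'))) := by rw [h00, h11]
        _ = n * ((n * (a * e')) * (n * (e * a'))) := by ring
        _ = n * ((n ^ (2 * g) * max x y') * (n ^ (2 * g) * max y x')) := by rw [← h01, ← h10]
        _ = _ := by ring
    exact Nat.eq_of_mul_eq_mul_left (by positivity) h1
  rcases four_arith hP key (card_one_le _) (card_one_le _) (card_one_le _) (card_one_le _)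
    (card_le_P _) (card_le_P _) (card_le_P _) (card_le_P _) with ⟨k1, k2, k3, k4⟩ | ⟨k1, k2, k3, k4⟩
  · left
    exact ⟨eq_top_of_card k1, eq_top_of_card k2, AddSubgroup.card_eq_one.1 k3,
      AddSubgroup.card_eq_one.1 k4⟩
  · right
    exact ⟨AddSubgroup.card_eq_one.1 k1, AddSubgroup.card_eq_one.1 k2, eq_top_of_card k3,
      eq_top_of_card k4⟩

end four

/-! ## The coefficients -/

section coeff

theorem IP_zmod {Γ : Type} [Group Γ] {n : ℕ} (hn : Odd n) (θ : Γ →* ℤˣ) (hθ : θ ≠ 1) :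
    IP (ZMod n) θ.range = ⊤ := by
  obtain ⟨x, hx⟩ : ∃ x, θ x ≠ 1 := by
    by_contra hcon
    push Not at hcon
    exact hθ (MonoidHom.ext hcon)
  have hx1 : θ x = -1 := (Int.units_eq_one_or _).resolve_left hx
  rw [eq_top_iff]
  intro p _
  obtain ⟨m, hm⟩ := hn
  have h1 : ((m + 1 : ℕ) : ZMod n) * 2 = 1 := by
    have h2 : ((m + 1 : ℕ) : ZMod n) * 2 = ((n + 1 : ℕ) : ZMod n) := by
      rw [hm]
      push_cast
      ring
    rw [h2]
    push_cast
    rw [ZMod.natCast_self, zero_add]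
  have h3 : p = ((m + 1 : ℕ) : ZMod n) * p - θ x • (((m + 1 : ℕ) : ZMod n) * p) := by
    rw [hx1, Units.smul_def]
    have h4 : ((-1 : ℤˣ) : ℤ) • (((m + 1 : ℕ) : ZMod n) * p) =
        -(((m + 1 : ℕ) : ZMod n) * p) := by simp
    rw [h4]
    linear_combination (-p) * h1
  rw [h3]
  exact sub_mem_IP (MonoidHom.mem_range.2 ⟨x, rfl⟩) _

theorem IP_units {Γ : Type} [Group Γ] {κ : Type} [Field κ] (θ : Γ →* κˣ) (hθ : θ ≠ 1) :
    IP κ θ.range = ⊤ := by
  obtain ⟨x, hx⟩ : ∃ x, θ x ≠ 1 := by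
    by_contra hcon
    push Not at hcon
    exact hθ (MonoidHom.ext hcon)
  rw [eq_top_iff]
  intro p _
  have hx1 : (1 : κ) - (θ x : κ) ≠ 0 := by
    intro h
    apply hx
    apply Units.ext
    exact (sub_eq_zero.1 h).symm
  have h3 : p = (p / (1 - (θ x : κ))) - θ x • (p / (1 - (θ x : κ))) := by
    rw [Units.smul_def, smul_eq_mul]
    field_simp
  rw [h3]
  exact sub_mem_IP (MonoidHom.mem_range.2 ⟨x, rfl⟩) _

/-- the values of the crossed homomorphisms to `κ` form a subspace -/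
theorem imE_units {A : Type} [Group A] {κ : Type} [Field κ] (a : A) (α : A →* κˣ) :
    imE a α κ = ⊥ ∨ imE a α κ = ⊤ := by
  by_cases h : imE a α κ = ⊥
  · exact Or.inl h
  right
  rw [eq_top_iff]
  intro p _
  obtain ⟨⟨x, hx⟩, hx0'⟩ := AddSubgroup.ne_bot_iff_exists_ne_zero.1 h
  have hx0 : x ≠ 0 := fun h' => hx0' (Subtype.ext h')
  obtain ⟨c, rfl⟩ := hx
  refine ⟨⟨fun g => (p / c.1 a) * c.1 g, fun g h => ?_⟩, ?_⟩
  · change (p / c.1 a) * c.1 (g * h) = _
    rw [c.2 g h, Units.smul_def, Units.smul_def, smul_eq_mul, smul_eq_mul]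
    ring
  · change (p / c.1 a) * c.1 a = p
    exact div_mul_cancel₀ p hx0

theorem chain_units {A A' : Type} [Group A] [Group A'] {κ : Type} [Field κ] (a : A) (a' : A')
    (α : A →* κˣ) (α' : A' →* κˣ) : imE a α κ ≤ imE a' α' κ ∨ imE a' α' κ ≤ imE a α κ := by
  rcases imE_units a α with h | h
  · left; rw [h]; exact bot_le
  · right; rw [h]; exact le_top

end coeff

end Pool.Agent.SuCM
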