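import Pool.Agent.Lib.MP_305fdd_al.Su.CM.Use
import Pool.Agent.Lib.MP_305fdd_al.Su.Fin.Free
import Pool.Agent.Lib.MP_305fdd_al.Su.E.Gen

/-!
# MP_305fdd_al, closed surface groups: an amalgam over a cyclic group is a surface group

For the package `Pk g π ρ` and Lemma G (`NilS ρ`): the vertex groups of a cyclic amalgam are free
(`free_glu`, `free_am`, `free_tree_am`), and then `Γ` is the surface group (`surf_am`, `surf_tree_am`).
-/

set_option autoImplicit false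
set_option linter.unusedSectionVars false

namespace Pool.Agent.SuCM

open Matrix (SpecialLinearGroup)
open Pool.Agent.FrN Pool.Agent.FrS Pool.Agent.SuD Pool.Agent.Lib.MP_305fdd_al
  Pool.Agent.MP_305fdd_al Pool.Agent.SurfCnt Pool.Agent.FrAsm Pool.Agent.SuE Pool.Agent.SuUp
  Pool.Agent.SuT Pool.Agent.SuFin

theorem glu_of_amUP {Γ : Type} [Group Γ] {A A' : Subgroup Γ} {z : Γ} (h : AmUP Γ A A' z) :
    Glu A A' z := ⟨h.gen, h.mem, h.mem', fun _ _ _ f f' hf => h.ext _ f f' hf⟩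

/-- the vertex group is free -/
theorem Inp.free {g : ℕ} {Λ Γ F : Type} [Group Λ] [Group Γ] [Field F] [Algebra (ZMod 2) F]
    {j : Λ →* Γ} {ρ : Γ →* SpecialLinearGroup (Fin 2) F} {A A' : Subgroup Γ} {z : Γ}
    (h : Inp g j ρ A A' z) (hinj : Function.Injective ρ) (hN : NilS ρ) :
    ∃ b b' : ℕ, b + b' = 2 * g ∧ 2 ≤ b ∧ 2 ≤ b' ∧ Nonempty (A ≃* FreeGroup (Fin b)) ∧
      Nonempty (A' ≃* FreeGroup (Fin b')) := by
  have := h.fg
  have := h.fg'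
  obtain ⟨b, h1, h2, h3, h4⟩ := h.out
  obtain ⟨b', h1', h2', h3', h4'⟩ := h.symm.out
  exact ⟨b, b', (h.num h1 h1' h2 h2').1, h.two_le_b h2, h.symm.two_le_b h2',
    free_of_pts (hinj.comp Subtype.val_injective) h1 h2 h3 h4 (hN.sub A),
    free_of_pts (hinj.comp Subtype.val_injective) h1' h2' h3' h4' (hN.sub A')⟩

section pk

variable {g : ℕ} {Λ Γ F : Type} [Group Λ] [Group Γ] [Field F] [Algebra (ZMod 2) F]
  {π : Λ →* Γ} {ρ : Γ →* SpecialLinearGroup (Fin 2) F} {A A' : Subgroup Γ} {z : Γ}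

/-- THE VERTEX GROUPS OF A CYCLIC AMALGAM ARE FREE -/
theorem free_glu (P : SuAA.Pk g π ρ) (hN : NilS ρ) (hG : Glu A A' z) (hfg : A.FG) (hfg' : A'.FG)
    (hz : z ≠ 1) (hA : ¬ ∀ x ∈ A, ∀ y ∈ A, x * y = y * x)
    (hA' : ¬ ∀ x ∈ A', ∀ y ∈ A', x * y = y * x) :
    ∃ b b' : ℕ, b + b' = 2 * g ∧ 2 ≤ b ∧ 2 ≤ b' ∧ Nonempty (A ≃* FreeGroup (Fin b)) ∧
      Nonempty (A' ≃* FreeGroup (Fin b')) :=
  (inp_of_glu P hG hfg hfg' hz hA hA').free P.inj hN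

theorem free_am (P : SuAA.Pk g π ρ) (hN : NilS ρ)
    (hG : IsAm (⊤ : Subgroup Γ) A A' (Subgroup.zpowers z)) (hfg : A.FG) (hfg' : A'.FG)
    (hz : z ≠ 1) (hA : ¬ ∀ x ∈ A, ∀ y ∈ A, x * y = y * x)
    (hA' : ¬ ∀ x ∈ A', ∀ y ∈ A', x * y = y * x) :
    ∃ b b' : ℕ, b + b' = 2 * g ∧ 2 ≤ b ∧ 2 ≤ b' ∧ Nonempty (A ≃* FreeGroup (Fin b)) ∧
      Nonempty (A' ≃* FreeGroup (Fin b')) :=
  free_glu P hN (glu_of_isAm hG) hfg hfg' hz hA hA'

variable {V : Type} [MulAction Γ V] {X : SimpleGraph V} {u v : V}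

/-- the vertex groups of a tree with one orbit of edges and two orbits of vertices are free -/
theorem free_tree_am (P : SuAA.Pk g π ρ) (hN : NilS ρ) (hS : Spl Γ X) (huv : X.Adj u v)
    (hoe : OE Γ X u v) (hno : ∀ x : Γ, x • u ≠ v) :
    ∃ b b' : ℕ, b + b' = 2 * g ∧ 2 ≤ b ∧ 2 ≤ b' ∧
      Nonempty (MulAction.stabilizer Γ u ≃* FreeGroup (Fin b)) ∧
      Nonempty (MulAction.stabilizer Γ v ≃* FreeGroup (Fin b')) := by
  obtain ⟨z, hz, hzE⟩ := (hS.mc u v huv).1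
  have hna : ∀ x : V, ¬ ∀ a ∈ MulAction.stabilizer Γ x, ∀ b ∈ MulAction.stabilizer Γ x,
      a * b = b * a := by
    intro x hx
    obtain ⟨a, ha, b, hb, hab⟩ := hS.na x
    exact hab (hx a ha b hb)
  refine free_glu P hN (glu_of_amUP (amUP_of_tree hS.toTA huv hoe hno z hzE)) (hS.fg u) (hS.fg v) ?_
    (hna u) (hna v)
  rintro rfl
  exact hz 1 one_pos (one_pow 1)

/-- A TREE WITH ONE ORBIT OF EDGES AND TWO ORBITS OF VERTICES: `Γ` is the surface group -/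
theorem surf_tree_am (P : SuAA.Pk g π ρ) (hN : NilS ρ) (hS : Spl Γ X) (huv : X.Adj u v)
    (hoe : OE Γ X u v) (hno : ∀ x : Γ, x • u ≠ v) : Nonempty (Γ ≃* Su.SurfaceGroup g) := by
  obtain ⟨z, hz, hzE⟩ := (hS.mc u v huv).1
  obtain ⟨b, b', -, -, -, ⟨e⟩, ⟨e'⟩⟩ := free_tree_am P hN hS huv hoe hno
  obtain ⟨Φ⟩ := P.nb
  have h2 := P.two
  exact surf_of_tree_am_free (by omega) Φ π P.surj P.kerSL hS.toTA huv hoe hno z hzE
    (lgOrd_of_inj P.fg ρ P.inj z hz) (IsFreeGroup.ofMulEquiv e.symm) (IsFreeGroup.ofMulEquiv e'.symm)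

end pk

end Pool.Agent.SuCM
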