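import Pool.Agent.Lib.MP_305fdd_al.Su.CM.Uni

/-!
# MP_305fdd_al, surface groups, block REG: tangent directions

`tan_gen`: if a representation over the residue field of `M` has at most `|κ| ^ D` lifts to the dual
numbers then `M = (y_1, .., y_D) + M ^ 2`.
-/

set_option autoImplicit false
set_option linter.unusedSectionVars false

namespace Pool.Agent.SuCM

open Matrix

section core

variable {S κ V Γ : Type} [CommRing S] [Algebra (ZMod 2) S] [Field κ] [AddCommGroup V]
  [Module κ V] [Group Γ]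

/-- `a + b ε` -/
def dn (a b : κ) : DualNumber κ := TrivSqZeroExt.inl a + TrivSqZeroExt.inr b

@[simp] theorem fst_dn (a b : κ) : TrivSqZeroExt.fst (dn a b) = a := by simp [dn]
@[simp] theorem snd_dn (a b : κ) : TrivSqZeroExt.snd (dn a b) = b := by simp [dn]

/-- the homomorphism to the dual numbers given by a derivation -/
def thD (π : S →+* κ) (δ : S → κ) (ha : ∀ z w, δ (z + w) = δ z + δ w)
    (hm : ∀ z w, δ (z * w) = π z * δ w + π w * δ z) : S →+* DualNumber κ where
  toFun z := dn (π z) (δ z)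
  map_one' := by
    have h1 := hm 1 1
    rw [map_one, one_mul, one_mul] at h1
    have h2 : δ 1 = 0 := by linear_combination -h1
    refine TrivSqZeroExt.ext ?_ ?_
    · rw [fst_dn, map_one, TrivSqZeroExt.fst_one]
    · rw [snd_dn, h2, TrivSqZeroExt.snd_one]
  map_zero' := by
    have h1 := ha 0 0
    rw [add_zero] at h1
    have h2 : δ 0 = 0 := by linear_combination -h1
    refine TrivSqZeroExt.ext ?_ ?_
    · rw [fst_dn, map_zero, TrivSqZeroExt.fst_zero]
    · rw [snd_dn, h2, TrivSqZeroExt.snd_zero]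
  map_add' z w := by
    refine TrivSqZeroExt.ext ?_ ?_
    · simp
    · simp [ha]
  map_mul' z w := by
    refine TrivSqZeroExt.ext ?_ ?_
    · simp
    · simp [hm, mul_comm]

theorem finite_homs (Q : Type) [Group Q] [Finite Q] [Group.FG Γ] : Finite (Γ →* Q) := by
  obtain ⟨X, hX⟩ := (inferInstance : Group.FG Γ).out
  refine Finite.of_injective (fun f : Γ →* Q => fun s : X => f s.1) ?_
  intro f f' he
  refine MonoidHom.eq_of_eqOn_dense hX ?_
  intro s hs
  exact congrFun he ⟨s, hs⟩

instance finite_sl (R : Type) [CommRing R] [Finite R] : Finite (SpecialLinearGroup (Fin 2) R) :=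
  inferInstanceAs (Finite {A : Matrix (Fin 2) (Fin 2) R // A.det = 1})

theorem rank_core [Finite κ] [Group.FG Γ] [FiniteDimensional κ V] (π : S →+* κ) (d : S → V)
    (ha : ∀ z w, d (z + w) = d z + d w)
    (hm : ∀ z w, d (z * w) = π z • d w + π w • d z)
    (hd : Submodule.span κ (Set.range d) = ⊤)
    (R : Γ →* SpecialLinearGroup (Fin 2) S)
    (hgen : Algebra.adjoin (ZMod 2) {x | ∃ h i j, x = (R h).1 i j} = ⊤) (D : ℕ)
    (hb : Nat.card {s' : Γ →* SpecialLinearGroup (Fin 2) (DualNumber κ) //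
        ∀ g i j, TrivSqZeroExt.fst ((s' g).1 i j) = π ((R g).1 i j)} ≤ Nat.card κ ^ D) :
    Module.finrank κ V ≤ D := by
  classical
  let θ : Module.Dual κ V → S →+* DualNumber κ := fun l => thD π (fun z => l (d z))
    (fun z w => by rw [ha, map_add]) (fun z w => by rw [hm, map_add, map_smul, map_smul]; rfl)
  have hθ : ∀ l z, θ l z = dn (π z) (l (d z)) := fun l z => rfl
  let Sθ : Module.Dual κ V → Γ →* SpecialLinearGroup (Fin 2) (DualNumber κ) :=
    fun l => (SpecialLinearGroup.map (θ l)).comp R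
  have hSθ : ∀ l h i j, (Sθ l h).1 i j = θ l ((R h).1 i j) := fun l h i j => rfl
  let Ψ : Module.Dual κ V → {s' : Γ →* SpecialLinearGroup (Fin 2) (DualNumber κ) //
        ∀ g i j, TrivSqZeroExt.fst ((s' g).1 i j) = π ((R g).1 i j)} := fun u =>
    ⟨Sθ u, by
      intro h i j
      rw [hSθ, hθ, fst_dn]⟩
  have hfd : Finite (DualNumber κ) := inferInstanceAs (Finite (κ × κ))
  have hfin : Finite (Γ →* SpecialLinearGroup (Fin 2) (DualNumber κ)) := finite_homs _
  have hinj : Function.Injective Ψ := by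
    intro l l' he
    have he2 : ∀ h, (Sθ l h).1 = (Sθ l' h).1 := by
      intro h
      have h1 := congrArg Subtype.val he
      exact congrArg Subtype.val (DFunLike.congr_fun h1 h)
    have hent : ∀ z ∈ {x | ∃ h i j, x = (R h).1 i j}, θ l z = θ l' z := by
      rintro _ ⟨h, i, j, rfl⟩
      rw [← hSθ, ← hSθ, he2]
    have hall : ∀ z, θ l z = θ l' z := by
      intro z
      have hz : z ∈ Algebra.adjoin (ZMod 2) {x | ∃ h i j, x = (R h).1 i j} := by
        rw [hgen]; trivial
      induction hz using Algebra.adjoin_induction with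
      | mem z hz => exact hent z hz
      | algebraMap c =>
        exact DFunLike.congr_fun (Subsingleton.elim ((θ l).comp (algebraMap (ZMod 2) S))
          ((θ l').comp (algebraMap (ZMod 2) S))) c
      | add z w _ _ h1 h2 => rw [map_add, map_add, h1, h2]
      | mul z w _ _ h1 h2 => rw [map_mul, map_mul, h1, h2]
    refine LinearMap.ext_on_range (v := d) hd ?_
    intro z
    have := congrArg TrivSqZeroExt.snd (hall z)
    rw [hθ, hθ, snd_dn, snd_dn] at this
    exact this
  have hcard := Nat.card_le_card_of_injective Ψ hinj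
  have h1 : Nat.card (Module.Dual κ V) = Nat.card κ ^ Module.finrank κ V := by
    rw [Module.natCard_eq_pow_finrank (K := κ), Subspace.dual_finrank_eq]
  rw [h1] at hcard
  have h3 : 1 < Nat.card κ := Finite.one_lt_card
  exact (Nat.pow_le_pow_iff_right h3).1 (hcard.trans hb)

end core

theorem tan_gen {S Γ : Type} [CommRing S] [Algebra (ZMod 2) S] [Algebra.FiniteType (ZMod 2) S]
    [Group Γ] [Group.FG Γ] (R : Γ →* SpecialLinearGroup (Fin 2) S)
    (hgen : Algebra.adjoin (ZMod 2) {x | ∃ h i j, x = (R h).1 i j} = ⊤) (D : ℕ)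
    (hb : ∀ (κ : Type) [Field κ] [Finite κ] [Algebra (ZMod 2) κ]
      (r : Γ →* SpecialLinearGroup (Fin 2) κ),
      Nat.card {s' : Γ →* SpecialLinearGroup (Fin 2) (DualNumber κ) //
        ∀ g i j, TrivSqZeroExt.fst ((s' g).1 i j) = (r g).1 i j} ≤ Nat.card κ ^ D)
    (m : Ideal S) (hm : m.IsMaximal) :
    ∃ y : Fin D → S, (∀ i, y i ∈ m) ∧ m ≤ Ideal.span (Set.range y) ⊔ m ^ 2 := by
  classical
  let _ : Field (S ⧸ m) := Ideal.Quotient.field m
  have hN : IsNoetherianRing S := Algebra.FiniteType.isNoetherianRing (ZMod 2) _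
  have h1 : Algebra.FiniteType (ZMod 2) (S ⧸ m) := inferInstance
  have h2 : Module.Finite (ZMod 2) (S ⧸ m) := finite_of_finite_type_of_isJacobsonRing _ _
  have h3 : Finite (S ⧸ m) := Module.finite_of_finite (ZMod 2)
  have h4 : CharP (S ⧸ m) 2 :=
    charP_of_injective_algebraMap (algebraMap (ZMod 2) (S ⧸ m)).injective 2
  let _ := Fintype.ofFinite (S ⧸ m)
  obtain ⟨n, -, hn⟩ := FiniteField.card (S ⧸ m) 2
  have hpow : ∀ z : S, z - z ^ 2 ^ (n : ℕ) ∈ m := by
    intro z
    rw [← Ideal.Quotient.eq_zero_iff_mem, map_sub, map_pow, ← hn, FiniteField.pow_card, sub_self]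
  have hn2 : ∀ a ∈ m, a ^ 2 ^ (n : ℕ) ∈ m ^ 2 := by
    intro a ha
    have : 2 ≤ 2 ^ (n : ℕ) := by
      calc 2 = 2 ^ 1 := rfl
        _ ≤ 2 ^ (n : ℕ) := Nat.pow_le_pow_right (by norm_num) n.pos
    exact Ideal.pow_le_pow_right this (Ideal.pow_mem_pow ha _)
  have hadd : ∀ (j : ℕ) (z w' : S), (z + w') ^ 2 ^ j = z ^ 2 ^ j + w' ^ 2 ^ j := by
    intro j z w'
    induction j with
    | zero => simp
    | succ j ih => rw [pow_succ, pow_mul, ih, sq_add, ← pow_mul, ← pow_mul]
  let d : S → m.Cotangent := fun z => m.toCotangent ⟨z - z ^ 2 ^ (n : ℕ), hpow z⟩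
  have hd0 : ∀ a (ha : a ∈ m), d a = m.toCotangent ⟨a, ha⟩ := by
    intro a ha
    rw [Ideal.toCotangent_eq]
    change a - a ^ 2 ^ (n : ℕ) - a ∈ m ^ 2
    have : a - a ^ 2 ^ (n : ℕ) - a = -(a ^ 2 ^ (n : ℕ)) := by ring
    rw [this]
    exact neg_mem (hn2 a ha)
  have hV0 : Module.Finite S m := inferInstance
  have hV : Module.Finite S m.Cotangent :=
    Module.Finite.of_surjective m.toCotangent m.toCotangent_surjective
  have hV2 : FiniteDimensional (S ⧸ m) m.Cotangent :=
    Module.Finite.of_restrictScalars_finite S (S ⧸ m) m.Cotangent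
  have hsm : ∀ (z : S) (v : m.Cotangent), Ideal.Quotient.mk m z • v = z • v :=
    fun z v => rfl
  have hsurj : ∀ v : m.Cotangent, ∃ a : m, m.toCotangent a = v :=
    Ideal.toCotangent_surjective m
  have hNr : Module.finrank (S ⧸ m) m.Cotangent ≤ D := by
    refine rank_core (Ideal.Quotient.mk m) d ?_ ?_ ?_ R hgen D ?_
    · intro z w'
      change m.toCotangent _ = m.toCotangent _ + m.toCotangent _
      rw [← map_add]
      congr 1
      apply Subtype.ext
      change z + w' - (z + w') ^ 2 ^ (n : ℕ) = z - z ^ 2 ^ (n : ℕ) + (w' - w' ^ 2 ^ (n : ℕ))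
      rw [hadd]
      ring
    · intro z w'
      rw [hsm, hsm]
      change m.toCotangent _ = z • m.toCotangent _ + w' • m.toCotangent _
      rw [← map_smul, ← map_smul, ← map_add, Ideal.toCotangent_eq]
      change z * w' - (z * w') ^ 2 ^ (n : ℕ) - (z * (w' - w' ^ 2 ^ (n : ℕ)) +
        w' * (z - z ^ 2 ^ (n : ℕ))) ∈ m ^ 2
      have : z * w' - (z * w') ^ 2 ^ (n : ℕ) - (z * (w' - w' ^ 2 ^ (n : ℕ)) +
        w' * (z - z ^ 2 ^ (n : ℕ))) = -((z - z ^ 2 ^ (n : ℕ)) * (w' - w' ^ 2 ^ (n : ℕ))) := by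
        rw [mul_pow]
        ring
      rw [this, pow_two]
      exact neg_mem (Ideal.mul_mem_mul (hpow z) (hpow w'))
    · rw [eq_top_iff]
      intro v _
      obtain ⟨a, rfl⟩ := hsurj v
      exact Submodule.subset_span ⟨a.1, hd0 a.1 a.2⟩
    · exact hb (S ⧸ m) ((SpecialLinearGroup.map (Ideal.Quotient.mk m)).comp R)
  let b0 := Module.finBasis (S ⧸ m) m.Cotangent
  choose lf hlf using hsurj
  let y : Fin D → S := fun i =>
    if h : i.1 < Module.finrank (S ⧸ m) m.Cotangent then (lf (b0 ⟨i.1, h⟩)).1 else 0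
  have hy : ∀ i, (lf (b0 i)).1 ∈ Ideal.span (Set.range y) := by
    intro i
    refine Ideal.subset_span ⟨⟨i.1, lt_of_lt_of_le i.2 hNr⟩, ?_⟩
    simp only [y]
    rw [dif_pos i.2]
  refine ⟨y, ?_, ?_⟩
  · intro i
    simp only [y]
    split_ifs with h
    · exact (lf _).2
    · exact zero_mem _
  · intro a ha
    have e1 := b0.sum_repr (m.toCotangent ⟨a, ha⟩)
    choose c hc using fun i => Ideal.Quotient.mk_surjective
      (b0.repr (m.toCotangent ⟨a, ha⟩) i)
    have e2 : m.toCotangent (∑ i, c i • lf (b0 i)) = m.toCotangent ⟨a, ha⟩ := by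
      rw [← e1, map_sum]
      refine Finset.sum_congr rfl fun i _ => ?_
      rw [map_smul, hlf, ← hc, hsm]
    rw [Ideal.toCotangent_eq] at e2
    have e3 : a = (∑ i, c i • lf (b0 i) : m).1 - ((∑ i, c i • lf (b0 i) : m).1 - a) := by ring
    rw [e3]
    refine Submodule.sub_mem _ (Submodule.mem_sup_left ?_) (Submodule.mem_sup_right e2)
    have e4 : (∑ i, c i • lf (b0 i) : m).1 = ∑ i, c i * (lf (b0 i)).1 := by
      rw [← Submodule.subtype_apply, map_sum]
      rfl
    rw [e4]
    exact Ideal.sum_mem _ fun i _ => Ideal.mul_mem_left _ _ (hy i)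

end Pool.Agent.SuCM
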