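import Pool.Agent.Lib.MP_305fdd_al.Fr.S.Defs
import Pool.Agent.Lib.MP_305fdd_al.Su.Dual.ZC
import Pool.Agent.Lib.MP_305fdd_al.Su.CM.Tan

/-!
# MP_305fdd_al, closed surface groups, class membership: gluing of crossed homomorphisms

`Glu A A' z`: representations of `A` and `A'` with the same value at `z` glue.
`Glu.card_mul`: the number of the crossed homomorphisms of an amalgam.
`Fac j`: representations over finite fields factor through the surjection `j`.
-/

set_option autoImplicit false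

namespace Pool.Agent.SuCM

open Matrix (SpecialLinearGroup)
open Pool.Agent.SuD Pool.Agent.FrS
open Pool.Agent.Lib.MP_305fdd_al Pool.Agent.MP_305fdd_al Pool.Agent.SurfCnt

/-! ## Crossed homomorphisms -/

section crs

variable {L Q P : Type} [Group L] [Group Q] [AddCommGroup P] [DistribMulAction Q P]

theorem crs_finite [Group.FG L] [Finite Q] [Finite P] (θ : L →* Q) : Finite (Crs θ P) := by
  have : Finite (L →* AF Q P) := finite_homs _
  refine Finite.of_injective (fun c : Crs θ P => Crs.hom c) ?_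
  intro c c' h
  apply Subtype.ext
  funext x
  exact congrArg AF.v (DFunLike.congr_fun h x)

/-- evaluation at an element -/
def evC (θ : L →* Q) (P : Type) [AddCommGroup P] [DistribMulAction Q P] (x : L) :
    Crs θ P →+ P where
  toFun c := c.1 x
  map_zero' := rfl
  map_add' _ _ := rfl

@[simp] theorem evC_apply (θ : L →* Q) (x : L) (c : Crs θ P) : evC θ P x c = c.1 x := rfl

/-- restriction along a homomorphism -/
def resC {L' : Type} [Group L'] (f : L' →* L) (θ : L →* Q) (P : Type) [AddCommGroup P]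
    [DistribMulAction Q P] : Crs θ P →+ Crs (θ.comp f) P where
  toFun c := ⟨fun x => c.1 (f x), fun g h => by
    change c.1 (f (g * h)) = _
    rw [map_mul]
    exact c.2 _ _⟩
  map_zero' := rfl
  map_add' _ _ := rfl

@[simp] theorem resC_apply {L' : Type} [Group L'] (f : L' →* L) (θ : L →* Q) (c : Crs θ P)
    (x : L') : (resC f θ P c).1 x = c.1 (f x) := rfl

theorem resC_inj {L' : Type} [Group L'] (f : L' →* L) (hf : Function.Surjective f) (θ : L →* Q) :
    Function.Injective (resC f θ P) := by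
  intro c c' h
  apply Subtype.ext
  funext x
  obtain ⟨y, rfl⟩ := hf x
  exact congrFun (congrArg Subtype.val h) y

theorem hom_comp {L' : Type} [Group L'] (f : L' →* L) (θ : L →* Q) (c : Crs θ P) :
    Crs.hom (resC f θ P c) = (Crs.hom c).comp f := rfl

end crs

/-! ## Amalgams -/

/-- Representations of `A` and `A'` with the same value at `z` glue. -/
structure Glu {Γ : Type} [Group Γ] (A A' : Subgroup Γ) (z : Γ) : Prop where
  gen : A ⊔ A' = ⊤
  mem : z ∈ A
  mem' : z ∈ A'
  ext : ∀ (R : Type) [CommRing R] [Algebra (ZMod 2) R] (f : A →* SpecialLinearGroup (Fin 2) R)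
    (f' : A' →* SpecialLinearGroup (Fin 2) R), f ⟨z, mem⟩ = f' ⟨z, mem'⟩ →
    ∃ q : Γ →* SpecialLinearGroup (Fin 2) R, (∀ x : A, q x = f x) ∧ ∀ x : A', q x = f' x

section glu

variable {Γ : Type} [Group Γ] {A A' : Subgroup Γ} {z : Γ}

theorem Glu.symm (h : Glu A A' z) : Glu A' A z where
  gen := by rw [sup_comm]; exact h.gen
  mem := h.mem'
  mem' := h.mem
  ext R _ _ f f' hf := by
    obtain ⟨q, h1, h2⟩ := h.ext R f' f hf.symm
    exact ⟨q, h2, h1⟩

theorem glu_of_isAm (h : IsAm (⊤ : Subgroup Γ) A A' (Subgroup.zpowers z)) : Glu A A' z where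
  gen := h.sup.symm
  mem := h.le (Subgroup.mem_zpowers z)
  mem' := h.le' (Subgroup.mem_zpowers z)
  ext R _ _ f f' hf := by
    classical
    obtain ⟨q, hq, h1, h2⟩ := h.ext R (fun x => if hx : x ∈ A then f ⟨x, hx⟩ else 1)
      (fun x => if hx : x ∈ A' then f' ⟨x, hx⟩ else 1) (by
        intro x hx y hy
        simp only [dif_pos hx, dif_pos hy, dif_pos (A.mul_mem hx hy)]
        exact map_mul f ⟨x, hx⟩ ⟨y, hy⟩) (by
        intro x hx y hy
        simp only [dif_pos hx, dif_pos hy, dif_pos (A'.mul_mem hx hy)]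
        exact map_mul f' ⟨x, hx⟩ ⟨y, hy⟩) (by
        intro d hd
        have hz := h.le (Subgroup.mem_zpowers z)
        have hz' := h.le' (Subgroup.mem_zpowers z)
        rw [dif_pos (h.le hd), dif_pos (h.le' hd)]
        obtain ⟨n, rfl⟩ := Subgroup.mem_zpowers_iff.1 hd
        have e1 : (⟨z ^ n, h.le hd⟩ : A) = ⟨z, hz⟩ ^ n := rfl
        have e2 : (⟨z ^ n, h.le' hd⟩ : A') = ⟨z, hz'⟩ ^ n := rfl
        rw [e1, e2, map_zpow, map_zpow, hf])
    have hm : ∀ x y, q (x * y) = q x * q y := fun x y =>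
      hq x (Subgroup.mem_top x) y (Subgroup.mem_top y)
    refine ⟨MonoidHom.mk' q hm, fun x => ?_, fun x => ?_⟩
    · change q x = _
      rw [h1 x x.2, dif_pos x.2]
    · change q x = _
      rw [h2 x x.2, dif_pos x.2]

theorem Glu.hom_ext (h : Glu A A' z) {Q : Type} [Group Q] {q q' : Γ →* Q}
    (h1 : ∀ x : A, q x = q' x) (h2 : ∀ x : A', q x = q' x) : q = q' := by
  have h3 : A ⊔ A' ≤ MonoidHom.eqLocus q q' :=
    sup_le (fun x hx => h1 ⟨x, hx⟩) (fun x hx => h2 ⟨x, hx⟩)
  rw [h.gen] at h3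
  ext x
  exact h3 (Subgroup.mem_top x)

/-- gluing of homomorphisms to a subgroup of `SL_2` -/
theorem Glu.extQ (h : Glu A A' z) {Q R : Type} [Group Q] [CommRing R] [Algebra (ZMod 2) R]
    (ι : Q →* SpecialLinearGroup (Fin 2) R) (hι : Function.Injective ι) (f : A →* Q) (f' : A' →* Q)
    (hf : f ⟨z, h.mem⟩ = f' ⟨z, h.mem'⟩) :
    ∃ q : Γ →* Q, (∀ x : A, q x = f x) ∧ ∀ x : A', q x = f' x := by
  obtain ⟨q, h1, h2⟩ := h.ext R (ι.comp f) (ι.comp f') (congrArg ι hf)
  have h3 : A ⊔ A' ≤ ι.range.comap q := by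
    refine sup_le (fun x hx => ?_) (fun x hx => ?_)
    · exact ⟨f ⟨x, hx⟩, (h1 ⟨x, hx⟩).symm⟩
    · exact ⟨f' ⟨x, hx⟩, (h2 ⟨x, hx⟩).symm⟩
  rw [h.gen] at h3
  have h4 : ∀ x, q x ∈ ι.range := fun x => h3 (Subgroup.mem_top x)
  refine ⟨(MonoidHom.ofInjective hι).symm.toMonoidHom.comp (q.codRestrict ι.range h4),
    fun x => ?_, fun x => ?_⟩
  · apply hι
    have h5 := congrArg Subtype.val
      ((MonoidHom.ofInjective hι).apply_symm_apply ((q.codRestrict ι.range h4) x))
    exact h5.trans (h1 x)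
  · apply hι
    have h5 := congrArg Subtype.val
      ((MonoidHom.ofInjective hι).apply_symm_apply ((q.codRestrict ι.range h4) x))
    exact h5.trans (h2 x)

variable {Q P : Type} [Group Q] [AddCommGroup P] [DistribMulAction Q P]

/-- gluing of crossed homomorphisms -/
theorem Glu.extC (h : Glu A A' z) {R : Type} [CommRing R] [Algebra (ZMod 2) R]
    (ι : AF Q P →* SpecialLinearGroup (Fin 2) R) (hι : Function.Injective ι) (θ : Γ →* Q)
    (c : Crs (θ.comp A.subtype) P) (c' : Crs (θ.comp A'.subtype) P)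
    (hc : c.1 ⟨z, h.mem⟩ = c'.1 ⟨z, h.mem'⟩) :
    ∃ C : Crs θ P, resC A.subtype θ P C = c ∧ resC A'.subtype θ P C = c' := by
  obtain ⟨q, h1, h2⟩ := h.extQ ι hι (Crs.hom c) (Crs.hom c') (AF.ext hc rfl)
  have h3 : (AF.pr Q P).comp q = θ := by
    refine h.hom_ext (fun x => ?_) (fun x => ?_)
    · rw [MonoidHom.comp_apply, h1]
      rfl
    · rw [MonoidHom.comp_apply, h2]
      rfl
  refine ⟨(crsEquiv θ P).symm ⟨q, h3⟩, ?_, ?_⟩
  · apply Subtype.ext
    funext x
    exact congrArg AF.v (h1 x)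
  · apply Subtype.ext
    funext x
    exact congrArg AF.v (h2 x)

/-- the difference of the values at `z` -/
def difC (h : Glu A A' z) (θ : Γ →* Q) (P : Type) [AddCommGroup P] [DistribMulAction Q P] :
    Crs (θ.comp A.subtype) P × Crs (θ.comp A'.subtype) P →+ P :=
  (evC (θ.comp A.subtype) P ⟨z, h.mem⟩).coprod (-(evC (θ.comp A'.subtype) P ⟨z, h.mem'⟩))

theorem difC_apply (h : Glu A A' z) (θ : Γ →* Q) (c : Crs (θ.comp A.subtype) P)
    (c' : Crs (θ.comp A'.subtype) P) :
    difC h θ P (c, c') = c.1 ⟨z, h.mem⟩ - c'.1 ⟨z, h.mem'⟩ := by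
  rw [difC, AddMonoidHom.coprod_apply, AddMonoidHom.neg_apply, ← sub_eq_add_neg]
  rfl

/-- the values at `z` of the crossed homomorphisms of `A` -/
abbrev im (A : Subgroup Γ) {z : Γ} (hz : z ∈ A) (θ : Γ →* Q) (P : Type) [AddCommGroup P]
    [DistribMulAction Q P] : AddSubgroup P := (evC (θ.comp A.subtype) P ⟨z, hz⟩).range

theorem mem_im {hz : z ∈ A} {θ : Γ →* Q} {p : P} :
    p ∈ im A hz θ P ↔ ∃ c : Crs (θ.comp A.subtype) P, c.1 ⟨z, hz⟩ = p := Iff.rfl

theorem range_difC (h : Glu A A' z) (θ : Γ →* Q) :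
    (difC h θ P).range = im A h.mem θ P ⊔ im A' h.mem' θ P := by
  apply le_antisymm
  · rintro _ ⟨⟨c, c'⟩, rfl⟩
    rw [difC_apply, sub_eq_add_neg]
    exact AddSubgroup.add_mem_sup ⟨c, rfl⟩ (neg_mem ⟨c', rfl⟩)
  · refine sup_le ?_ ?_
    · rintro _ ⟨c, rfl⟩
      exact ⟨(c, 0), by rw [difC_apply]; exact sub_zero _⟩
    · rintro _ ⟨c, rfl⟩
      exact ⟨(0, -c), by rw [difC_apply]; exact (zero_sub _).trans (neg_neg _)⟩

/-- the crossed homomorphisms of an amalgam -/
noncomputable def gluC (h : Glu A A' z) {R : Type} [CommRing R] [Algebra (ZMod 2) R]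
    (ι : AF Q P →* SpecialLinearGroup (Fin 2) R) (hι : Function.Injective ι) (θ : Γ →* Q) :
    Crs θ P ≃ (difC h θ P).ker :=
  Equiv.ofBijective (fun C => ⟨(resC A.subtype θ P C, resC A'.subtype θ P C), by
    rw [AddMonoidHom.mem_ker, difC_apply]
    exact sub_self _⟩) (by
    constructor
    · intro C C' hC
      have h1 := congrArg (fun x => x.1.1) hC
      have h2 := congrArg (fun x => x.1.2) hC
      have h3 : Crs.hom C = Crs.hom C' := by
        refine h.hom_ext (fun x => ?_) (fun x => ?_)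
        · exact AF.ext (congrFun (congrArg Subtype.val h1) x) rfl
        · exact AF.ext (congrFun (congrArg Subtype.val h2) x) rfl
      apply Subtype.ext
      funext x
      exact congrArg AF.v (DFunLike.congr_fun h3 x)
    · rintro ⟨⟨c, c'⟩, hc⟩
      rw [AddMonoidHom.mem_ker, difC_apply, sub_eq_zero] at hc
      obtain ⟨C, h1, h2⟩ := h.extC ι hι θ c c' hc
      exact ⟨C, Subtype.ext (Prod.ext h1 h2)⟩)

/-- THE COUNT for an amalgam -/
theorem Glu.card_mul (h : Glu A A' z) {R : Type} [CommRing R] [Algebra (ZMod 2) R]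
    (ι : AF Q P →* SpecialLinearGroup (Fin 2) R) (hι : Function.Injective ι) (θ : Γ →* Q)
    [Finite Q] [Finite P] [Group.FG A] [Group.FG A'] :
    Nat.card (Crs θ P) * Nat.card (im A h.mem θ P ⊔ im A' h.mem' θ P : AddSubgroup P) =
      Nat.card (Crs (θ.comp A.subtype) P) * Nat.card (Crs (θ.comp A'.subtype) P) := by
  have h1 : Finite (Crs (θ.comp A.subtype) P) := crs_finite _
  have h2 : Finite (Crs (θ.comp A'.subtype) P) := crs_finite _
  rw [← range_difC h θ, Nat.card_congr (gluC h ι hι θ), card_hom_eq, Nat.card_prod]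

end glu

/-! ## Factoring through a surjection -/

/-- Homomorphisms of `Λ` to `SL_2` of a finite field factor through `j : Λ → Γ`. -/
structure Fac {Λ Γ : Type} [Group Λ] [Group Γ] (j : Λ →* Γ) : Prop where
  surj : Function.Surjective j
  fac : ∀ (κ : Type) [Field κ] [Finite κ] [Algebra (ZMod 2) κ]
    (r : Λ →* SpecialLinearGroup (Fin 2) κ), j.ker ≤ r.ker

section fac

variable {Λ Γ : Type} [Group Λ] [Group Γ] {j : Λ →* Γ}

theorem Fac.facQ (h : Fac j) {Q κ : Type} [Group Q] [Field κ] [Finite κ] [Algebra (ZMod 2) κ]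
    (ι : Q →* SpecialLinearGroup (Fin 2) κ) (hι : Function.Injective ι) (f : Λ →* Q) :
    ∃ f' : Γ →* Q, f'.comp j = f := by
  have h1 : j.ker ≤ f.ker := by
    intro x hx
    have h2 := h.fac κ (ι.comp f) hx
    rw [MonoidHom.mem_ker] at h2 ⊢
    apply hι
    rw [map_one]
    exact h2
  exact ⟨j.liftOfSurjective h.surj ⟨f, h1⟩, MonoidHom.liftOfRightInverse_comp _ _ _ _⟩

variable {Q P : Type} [Group Q] [AddCommGroup P] [DistribMulAction Q P]

theorem Fac.crs_surj (h : Fac j) {κ : Type} [Field κ] [Finite κ] [Algebra (ZMod 2) κ]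
    (ι : AF Q P →* SpecialLinearGroup (Fin 2) κ) (hι : Function.Injective ι) (θ : Γ →* Q) :
    Function.Surjective (resC j θ P) := by
  intro c
  obtain ⟨f, hf⟩ := h.facQ ι hι (Crs.hom c)
  have h3 : (AF.pr Q P).comp f = θ := by
    ext x
    obtain ⟨y, rfl⟩ := h.surj x
    rw [MonoidHom.comp_apply, ← MonoidHom.comp_apply f j, hf]
    rfl
  refine ⟨(crsEquiv θ P).symm ⟨f, h3⟩, ?_⟩
  apply Subtype.ext
  funext x
  exact congrArg AF.v (DFunLike.congr_fun hf x)

theorem range_comp_surj (hj : Function.Surjective j) (θ : Γ →* Q) :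
    (θ.comp j).range = θ.range := by
  rw [MonoidHom.range_comp, MonoidHom.range_eq_top.2 hj, ← MonoidHom.range_eq_map]

/-- (ZC) for `Γ`, affine groups inside `SL_2` of a finite field -/
theorem Fac.card (h : Fac j) {g : ℕ} (Φ : NatBij Λ (SurfG g)) {κ : Type} [Field κ] [Finite κ]
    [Algebra (ZMod 2) κ] (ι : AF Q P →* SpecialLinearGroup (Fin 2) κ)
    (hι : Function.Injective ι) (θ : Γ →* Q) [Finite Q] [Finite P] :
    Nat.card (Crs θ P) * Nat.card (IP P θ.range) = Nat.card P ^ (2 * g) := by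
  rw [← card_Crs Φ (θ.comp j) P, range_comp_surj h.surj,
    Nat.card_congr (Equiv.ofBijective (resC j θ P) ⟨resC_inj j h.surj θ, h.crs_surj ι hι θ⟩)]

/-- the upper bound in (ZC) -/
theorem card_le_of_surj (hj : Function.Surjective j) {g : ℕ} (Φ : NatBij Λ (SurfG g))
    (θ : Γ →* Q) [Finite Q] [Finite P] :
    Nat.card (Crs θ P) * Nat.card (IP P θ.range) ≤ Nat.card P ^ (2 * g) := by
  have h1 := card_Crs Φ (θ.comp j) P
  rw [← h1, range_comp_surj hj]
  have h2 : Finite (Crs (θ.comp j) P) := by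
    apply Nat.finite_of_card_ne_zero
    intro h0
    rw [h0, zero_mul] at h1
    exact (pow_pos Nat.card_pos _).ne h1
  exact Nat.mul_le_mul_right _ (Nat.card_le_card_of_injective _ (resC_inj j hj θ))

end fac

end Pool.Agent.SuCM
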