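import Pool.Agent.Lib.MP_305fdd_al.Su.CM.Sq

/-!
# MP_305fdd_al, surface groups, block REG: Nakayama over the ring of the squares

`nak`: if `M = (y) + M ^ 2` and the Frobenius map is surjective modulo `M`, then there is `a ∈ M` with
`(1 + a) ^ 2 x ∈ Nr y` for all `x`.
-/

set_option autoImplicit false
set_option linter.unusedSectionVars false

namespace Pool.Agent.SuCM

open Pool.Agent.F2Ch MvPolynomial

section

variable (S : Type) [CommRing S] [Algebra (ZMod 2) S] {D : ℕ}

/-- the Frobenius endomorphism, as a homomorphism of algebras -/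
def sqA : S →ₐ[ZMod 2] S :=
  { sqh S with
    commutes' := fun c => by
      change (algebraMap (ZMod 2) S c) ^ 2 = _
      rw [← map_pow]
      congr 1
      revert c
      decide }

@[simp] theorem sqA_apply (x : S) : sqA S x = x ^ 2 := rfl

/-- the squares -/
def B0 : Subalgebra (ZMod 2) S := (sqA S).range

theorem sq_mem_B0 (x : S) : x ^ 2 ∈ B0 S := ⟨x, rfl⟩

instance fin_B0 [Algebra.FiniteType (ZMod 2) S] : Module.Finite (B0 S) S := by
  have : Algebra.FiniteType (B0 S) S := Algebra.FiniteType.of_restrictScalars_finiteType (ZMod 2) _ _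
  have : Algebra.IsIntegral (B0 S) S := ⟨fun x => by
    refine ⟨Polynomial.X ^ 2 - Polynomial.C ⟨x ^ 2, sq_mem_B0 S x⟩, ?_, ?_⟩
    · exact Polynomial.monic_X_pow_sub_C _ two_ne_zero
    · simp⟩
  exact Algebra.IsIntegral.finite

variable {S}

/-- the subring `Nr y` as a module over the squares -/
noncomputable def Nm (y : Fin D → S) : Submodule (B0 S) S where
  carrier := Nr y
  zero_mem' := Subring.zero_mem _
  add_mem' := fun ha hb => Subring.add_mem _ ha hb
  smul_mem' := by
    rintro ⟨c, d, rfl⟩ x hx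
    exact Subring.mul_mem _ (sq_mem y d) hx

theorem mem_Nm {y : Fin D → S} {x : S} : x ∈ Nm y ↔ x ∈ Nr y := Iff.rfl

/-- the squares of the elements of `M` -/
def Jm (M : Ideal S) : Ideal (B0 S) where
  carrier := {r | ∃ a ∈ M, r.1 = a ^ 2}
  zero_mem' := ⟨0, M.zero_mem, by simp⟩
  add_mem' := by
    rintro r r' ⟨a, ha, h⟩ ⟨a', ha', h'⟩
    exact ⟨a + a', M.add_mem ha ha', by rw [sq_add, ← h, ← h']; rfl⟩
  smul_mem' := by
    rintro ⟨c, d, rfl⟩ r ⟨a, ha, h⟩
    refine ⟨d * a, M.mul_mem_left _ ha, ?_⟩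
    change d ^ 2 * r.1 = _
    rw [h, mul_pow]

theorem nak [Algebra.FiniteType (ZMod 2) S] (y : Fin D → S) (M : Ideal S) (hy : ∀ i, y i ∈ M)
    (hgen : M ≤ Ideal.span (Set.range y) ⊔ M ^ 2) (hq : ∀ x : S, ∃ x' : S, x - x' ^ 2 ∈ M) :
    ∃ a ∈ M, ∀ x : S, (1 + a) ^ 2 * x ∈ Nr y := by
  have hN : IsNoetherianRing S := Algebra.FiniteType.isNoetherianRing (ZMod 2) S
  -- the Frobenius power
  let F : Ideal S := Ideal.span {x | ∃ a ∈ M, x = a ^ 2}
  have hMF : ∃ k : ℕ, M ^ k ≤ F := by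
    refine Ideal.exists_pow_le_of_le_radical_of_fg ?_ (IsNoetherian.noetherian M)
    intro a ha
    exact ⟨2, Ideal.subset_span ⟨a, ha, rfl⟩⟩
  obtain ⟨k, hk⟩ := hMF
  have hF : ∀ x ∈ F, x ∈ Jm M • (⊤ : Submodule (B0 S) S) := by
    intro x hx
    refine Submodule.span_induction ?_ ?_ ?_ ?_ hx
    · rintro _ ⟨a, ha, rfl⟩
      have h1 : a ^ 2 = (⟨a ^ 2, sq_mem_B0 S a⟩ : B0 S) • (1 : S) := by
        change a ^ 2 = a ^ 2 * 1
        rw [mul_one]
      rw [h1]
      exact Submodule.smul_mem_smul ⟨a, ha, rfl⟩ trivial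
    · exact Submodule.zero_mem _
    · intro u v _ _ hu hv
      exact Submodule.add_mem _ hu hv
    · intro c u _ hu
      refine Submodule.smul_induction_on hu ?_ ?_
      · intro r hr n _
        have h1 : c • (r • n) = r • (c * n) := by
          change c * (r.1 * n) = r.1 * (c * n)
          ring
        rw [h1]
        exact Submodule.smul_mem_smul hr trivial
      · intro u v hu hv
        rw [smul_add]
        exact Submodule.add_mem _ hu hv
  have hle : (⊤ : Submodule (B0 S) S) ≤ Nm y ⊔ Jm M • (⊤ : Submodule (B0 S) S) := by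
    intro x _
    obtain ⟨n, hn, h⟩ := approx y M hy hgen hq k x
    have h1 : x = n + (x - n) := by ring
    rw [h1]
    exact Submodule.add_mem_sup hn (hF _ (hk h))
  obtain ⟨r, ⟨a, ha, hr⟩, h⟩ := Submodule.exists_sub_one_mem_and_smul_le_of_fg_of_le_sup
    (Module.Finite.fg_top (R := B0 S) (M := S)) le_rfl hle
  refine ⟨a, ha, fun x => ?_⟩
  have h1 : r.1 = (1 + a) ^ 2 := by
    have h2 : r.1 - 1 = a ^ 2 := hr
    rw [sq_add, ← h2]
    ring
  rw [← h1]
  exact h (Submodule.smul_mem_pointwise_smul x r ⊤ trivial)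

end

end Pool.Agent.SuCM
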