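import Pool.Agent.Lib.MP_305fdd_al.Su.CM.LB
import Pool.Agent.Lib.MP_305fdd_al.Su.CM.Er
import Pool.Agent.Lib.MP_305fdd_al.Su.CM.Four
import Pool.Agent.Lib.MP_305fdd_al.Su.FI.Fac

/-!
# MP_305fdd_al, closed surface groups, class membership: the numerics of an amalgam
-/

set_option autoImplicit false
set_option linter.unusedSectionVars false

namespace Pool.Agent.SuCM

open Matrix (SpecialLinearGroup)
open Pool.Agent.FrN Pool.Agent.FrS Pool.Agent.SuD Pool.Agent.Lib.MP_305fdd_al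
  Pool.Agent.MP_305fdd_al Pool.Agent.SurfCnt

/-! ## Homomorphisms to abelian groups -/

section hom

/-- crossed homomorphisms for the trivial action -/
def crsOneE (A Q P : Type) [Group A] [Group Q] [AddCommGroup P] [DistribMulAction Q P] :
    Crs (1 : A →* Q) P ≃ (A →* Multiplicative P) where
  toFun c := MonoidHom.mk' (fun x => Multiplicative.ofAdd (c.1 x)) (fun x y => by
    rw [c.2 x y, MonoidHom.one_apply, one_smul]
    rfl)
  invFun f := ⟨fun x => (f x).toAdd, fun x y => by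
    change (f (x * y)).toAdd = _
    rw [map_mul, MonoidHom.one_apply, one_smul]
    rfl⟩
  left_inv _ := rfl
  right_inv _ := rfl

theorem card_crsOne {A Q P : Type} [Group A] [Group Q] [AddCommGroup P] [DistribMulAction Q P] :
    Nat.card (Crs (1 : A →* Q) P) = Nat.card (A →* Multiplicative P) :=
  Nat.card_congr (crsOneE A Q P)

/-- homomorphisms to a product of copies -/
def homPi (A P : Type) [Group A] [AddCommGroup P] (m : ℕ) :
    (A →* Multiplicative (Fin m → P)) ≃ (Fin m → (A →* Multiplicative P)) where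
  toFun f i := MonoidHom.mk' (fun x => Multiplicative.ofAdd ((f x).toAdd i)) (fun x y => by
    rw [map_mul]
    rfl)
  invFun f := MonoidHom.mk' (fun x => Multiplicative.ofAdd (fun i => (f i x).toAdd)) (fun x y => by
    apply Multiplicative.toAdd.injective
    funext i
    change (f i (x * y)).toAdd = _
    rw [map_mul]
    rfl)
  left_inv _ := rfl
  right_inv _ := rfl

/-- homomorphisms to isomorphic groups -/
def homCongr (A : Type) {P P' : Type} [Group A] [AddCommGroup P] [AddCommGroup P'] (e : P ≃+ P') :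
    (A →* Multiplicative P) ≃ (A →* Multiplicative P') where
  toFun f := MonoidHom.mk' (fun x => Multiplicative.ofAdd (e (f x).toAdd)) (fun x y => by
    rw [map_mul, toAdd_mul, map_add]
    rfl)
  invFun f := MonoidHom.mk' (fun x => Multiplicative.ofAdd (e.symm (f x).toAdd)) (fun x y => by
    rw [map_mul, toAdd_mul, map_add]
    rfl)
  left_inv f := by
    ext x
    change Multiplicative.ofAdd (e.symm (e (f x).toAdd)) = f x
    rw [e.symm_apply_apply]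
    rfl
  right_inv f := by
    ext x
    change Multiplicative.ofAdd (e (e.symm (f x).toAdd)) = f x
    rw [e.apply_symm_apply]
    rfl

/-- homomorphisms to an elementary abelian group of exponent two -/
theorem hom_card {A : Type} [Group A] {b : ℕ}
    (hb : Nat.card (A →* Multiplicative (ZMod 2)) = 2 ^ b) (P : Type) [AddCommGroup P] [Finite P]
    (h2 : ∀ x : P, x + x = 0) : Nat.card (A →* Multiplicative P) = Nat.card P ^ b := by
  let _ : Module (ZMod 2) P := AddCommGroup.zmodModule (fun x => by rw [two_nsmul]; exact h2 x)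
  have hfin : Module.Finite (ZMod 2) P := Module.Finite.of_finite
  let B := Module.finBasis (ZMod 2) P
  let e : P ≃+ (Fin (Module.finrank (ZMod 2) P) → ZMod 2) := B.equivFun.toAddEquiv
  rw [Nat.card_congr (homCongr A e), Nat.card_congr (homPi A (ZMod 2) _), Nat.card_fun,
    Nat.card_fin, hb, Nat.card_congr e.toEquiv, Nat.card_fun, Nat.card_fin, Nat.card_zmod,
    ← pow_mul, ← pow_mul, mul_comm]

/-- the number of homomorphisms to the group of order two is a power of two -/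
theorem exists_b (A : Type) [Group A] [Group.FG A] :
    ∃ b : ℕ, Nat.card (A →* Multiplicative (ZMod 2)) = 2 ^ b := by
  have hfin : Finite (Crs (1 : A →* (ZMod 2)ˣ) (ZMod 2)) := crs_finite _
  rw [← card_crsOne (Q := (ZMod 2)ˣ)]
  let _ : Module (ZMod 2) (Crs (1 : A →* (ZMod 2)ˣ) (ZMod 2)) :=
    AddCommGroup.zmodModule (fun x => by
      rw [two_nsmul]
      apply Subtype.ext
      funext a
      exact add_self (x.1 a))
  have hfin2 : Module.Finite (ZMod 2) (Crs (1 : A →* (ZMod 2)ˣ) (ZMod 2)) := Module.Finite.of_finite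
  refine ⟨Module.finrank (ZMod 2) (Crs (1 : A →* (ZMod 2)ˣ) (ZMod 2)), ?_⟩
  rw [Module.natCard_eq_pow_finrank (K := ZMod 2), Nat.card_zmod]

theorem tk_add_self {κ : Type} [Field κ] [Algebra (ZMod 2) κ] (x : TK κ) : x + x = 0 := by
  apply TK.ext
  ext i j
  exact add_self (x.m i j)

end hom

/-! ## Torus representations -/

section torus

variable {κ : Type} [Field κ] [Algebra (ZMod 2) κ]

/-- the antidiagonal matrices -/
def adm (b c : κ) : TK κ := TK.mk !![0, b; c, 0] (by simp)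

theorem adm_mem_IP {Γ : Type} [Group Γ] (y : Γ →* SpecialLinearGroup (Fin 2) κ) {χ : κˣ}
    (hχ : χ ≠ 1) {g : Γ} (hg : y g = dgm χ) (b c : κ) : adm b c ∈ IP (TK κ) y.range := by
  have h1 : (χ : κ) ≠ 0 := χ.ne_zero
  have h2 : (χ : κ) ≠ 1 := fun h => hχ (Units.ext h)
  have h3 : (1 : κ) - (χ : κ) ^ 2 ≠ 0 := by
    intro h
    apply h2
    have h4 : ((χ : κ) - 1) ^ 2 = 0 := by
      have h5 := two_z κ
      linear_combination (1 - (χ : κ)) * h5 - h
    exact sub_eq_zero.1 (pow_eq_zero_iff two_ne_zero |>.1 h4)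
  have h4 : adm b c = adm (b / (1 - (χ : κ) ^ 2)) (-(c * (χ : κ) ^ 2 / (1 - (χ : κ) ^ 2))) -
      y g • adm (b / (1 - (χ : κ) ^ 2)) (-(c * (χ : κ) ^ 2 / (1 - (χ : κ) ^ 2))) := by
    apply TK.ext
    rw [TK.m_sub, TK.m_act, hg]
    have h5 : ((dgm χ)⁻¹ : SpecialLinearGroup (Fin 2) κ).1 = !![((χ⁻¹ : κˣ) : κ), 0; 0, (χ : κ)] := by
      rw [← map_inv, dgm_apply, inv_inv]
    rw [h5, dgm_apply]
    have h6 : ((χ⁻¹ : κˣ) : κ) = (χ : κ)⁻¹ := Units.val_inv_eq_inv_val χ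
    ext i j
    fin_cases i <;> fin_cases j
    · simp [adm]
    · simp [adm, h6]
      field_simp
    · simp [adm, h6]
      field_simp
      ring
    · simp [adm]
  rw [h4]
  exact sub_mem_IP (MonoidHom.mem_range.2 ⟨g, rfl⟩) _

theorem card_IP_torus [Finite κ] {Γ : Type} [Group Γ] (y : Γ →* SpecialLinearGroup (Fin 2) κ)
    {χ : κˣ} (hχ : χ ≠ 1) {g : Γ} (hg : y g = dgm χ) :
    Nat.card κ ^ 2 ≤ Nat.card (IP (TK κ) y.range) := by
  have h1 : Nat.card (κ × κ) = Nat.card κ ^ 2 := by rw [Nat.card_prod, pow_two]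
  rw [← h1]
  refine Nat.card_le_card_of_injective
    (fun x : κ × κ => (⟨adm x.1 x.2, adm_mem_IP y hχ hg x.1 x.2⟩ : IP (TK κ) y.range)) ?_
  intro x x' h
  have h2 : (adm x.1 x.2).m = (adm x'.1 x'.2).m := congrArg (fun z => (z.1 : TK κ).m) h
  have h3 := congrFun (congrFun h2 0) 1
  have h4 := congrFun (congrFun h2 1) 0
  simp [adm] at h3 h4
  exact Prod.ext h3 h4

end torus

/-! ## The input -/

/-- the situation: `Γ` is the amalgam of `A` and `A'` over `z`, as far as representations are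
concerned, and a quotient of `Λ`, which has the same finite quotients as the closed surface group. -/
structure Inp (g : ℕ) {Λ Γ F : Type} [Group Λ] [Group Γ] [Field F] [Algebra (ZMod 2) F]
    (j : Λ →* Γ) (ρ : Γ →* SpecialLinearGroup (Fin 2) F) (A A' : Subgroup Γ) (z : Γ) : Prop where
  one : 1 ≤ g
  glu : Glu A A' z
  fac : Fac j
  nb : Nonempty (NatBij Λ (SurfG g))
  pts : Pts ρ
  fg : Group.FG A
  fg' : Group.FG A'
  rk : ((6 * g - 3 : ℕ) : ℕ∞) ≤ er (OO 2 ρ : Set F)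
  e3 : 3 ≤ er (En ρ {z})
  e4 : 4 ≤ er (En ρ (A : Set Γ))
  e4' : 4 ≤ er (En ρ (A' : Set Γ))

namespace Inp

variable {g : ℕ} {Λ Γ F : Type} [Group Λ] [Group Γ] [Field F] [Algebra (ZMod 2) F]
  {j : Λ →* Γ} {ρ : Γ →* SpecialLinearGroup (Fin 2) F} {A A' : Subgroup Γ} {z : Γ}

theorem symm (h : Inp g j ρ A A' z) : Inp g j ρ A' A z where
  one := h.one
  glu := h.glu.symm
  fac := h.fac
  nb := h.nb
  pts := h.pts
  fg := h.fg'
  fg' := h.fg
  rk := h.rk
  e3 := h.e3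
  e4 := h.e4'
  e4' := h.e4

/-- restriction of a point to a subgroup -/
theorem pt_sub {κ : Type} [Field κ] [Algebra (ZMod 2) κ] (A : Subgroup Γ)
    (φ : OO 2 ρ →ₐ[ZMod 2] κ) {Y : Γ →* SpecialLinearGroup (Fin 2) κ}
    (hφ : ∀ g i j, φ ⟨(ρ g).1 i j, mem_OO ρ g i j⟩ = (Y g).1 i j) :
    ∃ ψ : OO 2 (ρ.comp A.subtype) →ₐ[ZMod 2] κ,
      ∀ g i j, ψ ⟨((ρ.comp A.subtype) g).1 i j, mem_OO (ρ.comp A.subtype) g i j⟩ =
        ((Y.comp A.subtype) g).1 i j := by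
  have hle : OO 2 (ρ.comp A.subtype) ≤ OO 2 ρ := by
    refine Algebra.adjoin_le ?_
    rintro _ ⟨g, i, j, rfl⟩
    exact mem_OO ρ g i j
  exact ⟨φ.comp (Subalgebra.inclusion hle), fun g i j => hφ g i j⟩

/-- the transcendence degree is a natural number -/
theorem exists_d (A : Subgroup Γ) [Group.FG A] : ∃ a : ℕ,
    Algebra.trdeg (ZMod 2) (OO 2 (ρ.comp A.subtype)) = (a : Cardinal) := by
  have h1 : (OO 2 (ρ.comp A.subtype)).FG := Pool.Agent.FrX.OO_fg _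
  have h2 : Algebra.FiniteType (ZMod 2) (OO 2 (ρ.comp A.subtype)) :=
    (Subalgebra.fg_iff_finiteType _).1 h1
  have h3 := trdeg_lt_aleph0_of_finiteType (R := ZMod 2) (S := OO 2 (ρ.comp A.subtype))
  obtain ⟨a, ha⟩ := Cardinal.lt_aleph0.1 h3
  exact ⟨a, ha⟩

/-- the transcendence degree is at most `3 b` -/
theorem d_le (h : Inp g j ρ A A' z) {a b : ℕ}
    (ha : Algebra.trdeg (ZMod 2) (OO 2 (ρ.comp A.subtype)) = (a : Cardinal))
    (hb : Nat.card (A →* Multiplicative (ZMod 2)) = 2 ^ b) : a ≤ 3 * b := by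
  have := h.fg
  obtain ⟨φ, hφ⟩ := h.pts (ZMod 2) 1
  obtain ⟨ψ, hψ⟩ := pt_sub A φ hφ
  have h1 := lbC ha ψ ((1 : Γ →* SpecialLinearGroup (Fin 2) (ZMod 2)).comp A.subtype) hψ
  have h2 : ((1 : Γ →* SpecialLinearGroup (Fin 2) (ZMod 2)).comp A.subtype) = 1 := rfl
  rw [h2, card_crsOne, hom_card hb _ tk_add_self, card_TK, Nat.card_zmod, ← pow_mul] at h1
  exact (Nat.pow_le_pow_iff_right (by norm_num)).1 h1

/-- the count modulo two -/
theorem mod_two (h : Inp g j ρ A A' z) {b b' : ℕ}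
    (hb : Nat.card (A →* Multiplicative (ZMod 2)) = 2 ^ b)
    (hb' : Nat.card (A' →* Multiplicative (ZMod 2)) = 2 ^ b') :
    2 ^ (2 * g) * Nat.card (imE (⟨z, h.glu.mem⟩ : A) (1 : A →* (ZMod 2)ˣ) (ZMod 2) ⊔
      imE (⟨z, h.glu.mem'⟩ : A') (1 : A' →* (ZMod 2)ˣ) (ZMod 2) : AddSubgroup (ZMod 2)) =
      2 ^ (b + b') := by
  have := h.fg
  have := h.fg'
  obtain ⟨Φ⟩ := h.nb
  have h1 := h.glu.cnt_one h.fac Φ (eB (κ := ZMod 2)) eB_inj
  rw [card_crsOne, card_crsOne, hb, hb', Nat.card_zmod, ← pow_add] at h1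
  exact h1

theorem b_le (h : Inp g j ρ A A' z) {b b' : ℕ}
    (hb : Nat.card (A →* Multiplicative (ZMod 2)) = 2 ^ b)
    (hb' : Nat.card (A' →* Multiplicative (ZMod 2)) = 2 ^ b') : b + b' ≤ 2 * g + 1 := by
  have h1 := h.mod_two hb hb'
  have h2 := card_le_P (imE (⟨z, h.glu.mem⟩ : A) (1 : A →* (ZMod 2)ˣ) (ZMod 2) ⊔
      imE (⟨z, h.glu.mem'⟩ : A') (1 : A' →* (ZMod 2)ˣ) (ZMod 2) : AddSubgroup (ZMod 2))
  rw [Nat.card_zmod] at h2
  have h3 : 2 ^ (b + b') ≤ 2 ^ (2 * g + 1) := by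
    rw [← h1, pow_succ]
    exact Nat.mul_le_mul_left _ h2
  exact (Nat.pow_le_pow_iff_right (by norm_num)).1 h3

/-- the main inequality, for a torus representation of `A'` which kills `z` -/
theorem ineq (h : Inp g j ρ A A' z) {b a' : ℕ}
    (hb : Nat.card (A →* Multiplicative (ZMod 2)) = 2 ^ b)
    (ha' : Algebra.trdeg (ZMod 2) (OO 2 (ρ.comp A'.subtype)) = (a' : Cardinal))
    {κ : Type} [Field κ] [Finite κ] [Algebra (ZMod 2) κ] (χ : A' →* κˣ)
    (hχz : χ ⟨z, h.glu.mem'⟩ = 1) (hχ : χ ≠ 1) : 3 * b + a' + 2 ≤ 6 * g + 3 := by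
  have := h.fg
  have := h.fg'
  obtain ⟨Φ⟩ := h.nb
  obtain ⟨a, ha1⟩ : ∃ a, χ a ≠ 1 := by
    by_contra hcon
    push Not at hcon
    exact hχ (MonoidHom.ext hcon)
  obtain ⟨Y, hY1, hY2⟩ := h.glu.ext κ (1 : A →* SpecialLinearGroup (Fin 2) κ)
    ((dgm (κ := κ)).comp χ) (by
      rw [MonoidHom.comp_apply, hχz, map_one]
      rfl)
  have hYA : Y.comp A.subtype = 1 := MonoidHom.ext hY1
  have hYA' : Y.comp A'.subtype = (dgm (κ := κ)).comp χ := MonoidHom.ext hY2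
  have h1 := h.glu.card_mul (eD (κ := κ)) eD_inj Y
  have h2 := card_le_of_surj (P := TK κ) h.fac.surj Φ Y
  have h3 := card_IP_torus Y ha1 (g := (a : Γ)) (hY2 a)
  have h4 := card_le_P (im A h.glu.mem Y (TK κ) ⊔ im A' h.glu.mem' Y (TK κ) : AddSubgroup (TK κ))
  rw [hYA, hYA', card_crsOne, hom_card hb _ tk_add_self, card_TK] at h1
  rw [card_TK] at h2 h4
  obtain ⟨φ, hφ⟩ := h.pts κ Y
  obtain ⟨ψ, hψ⟩ := pt_sub A' φ hφ
  have h5 := lbC ha' ψ (Y.comp A'.subtype) hψ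
  rw [hYA'] at h5
  have hk : 1 < Nat.card κ := Finite.one_lt_card
  have h6 : Nat.card κ ^ (3 * b + a' + 2) ≤ Nat.card κ ^ (6 * g + 3) := by
    calc Nat.card κ ^ (3 * b + a' + 2) = (Nat.card κ ^ 3) ^ b * Nat.card κ ^ a' *
          Nat.card κ ^ 2 := by rw [← pow_mul, ← pow_add, ← pow_add]
      _ ≤ (Nat.card κ ^ 3) ^ b * Nat.card (Crs ((dgm (κ := κ)).comp χ) (TK κ)) *
          Nat.card (IP (TK κ) Y.range) :=
          Nat.mul_le_mul (Nat.mul_le_mul_left _ h5) h3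
      _ = Nat.card (Crs Y (TK κ)) * Nat.card (im A h.glu.mem Y (TK κ) ⊔
          im A' h.glu.mem' Y (TK κ) : AddSubgroup (TK κ)) * Nat.card (IP (TK κ) Y.range) := by
          rw [h1]
      _ = Nat.card (Crs Y (TK κ)) * Nat.card (IP (TK κ) Y.range) *
          Nat.card (im A h.glu.mem Y (TK κ) ⊔
          im A' h.glu.mem' Y (TK κ) : AddSubgroup (TK κ)) := by ring
      _ ≤ (Nat.card κ ^ 3) ^ (2 * g) * Nat.card κ ^ 3 := Nat.mul_le_mul h2 h4
      _ = Nat.card κ ^ (6 * g + 3) := by rw [← pow_mul, ← pow_add]; congr 1; ring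
  exact (Nat.pow_le_pow_iff_right hk).1 h6

/-- existence of a torus representation of `A'` which kills `z` -/
theorem exists_chi (h : Inp g j ρ A A' z) : ∃ (κ : Type) (_ : Field κ) (_ : Finite κ)
    (_ : Algebra (ZMod 2) κ) (χ : A' →* κˣ), χ ⟨z, h.glu.mem'⟩ = 1 ∧ χ ≠ 1 := by
  by_contra hcon
  push Not at hcon
  have := h.fg
  have := h.fg'
  obtain ⟨Φ⟩ := h.nb
  obtain ⟨b, hb⟩ := exists_b A
  obtain ⟨b', hb'⟩ := exists_b A'
  obtain ⟨n, N, hN0, hN1, hN2⟩ := Pool.Agent.SuFI.rank_ab A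
  obtain ⟨l, hlN, hl⟩ := Nat.exists_infinite_primes (N + 3)
  have hlne : l ≠ 2 := by omega
  have hodd : Odd l := hl.odd_of_ne_two hlne
  have hndvd : ¬ l ∣ N := fun hd => by
    have := Nat.le_of_dvd (Nat.pos_of_ne_zero hN0) hd
    omega
  have : Fact l.Prime := ⟨hl⟩
  obtain ⟨κ, _, _, _, f, hf⟩ := Pool.Agent.SuFI.exists_units l hodd
  -- evaluation at `z` is injective
  have hinj : ∀ c : Crs (1 : A' →* ℤˣ) (ZMod l), c.1 ⟨z, h.glu.mem'⟩ = 0 → c = 0 := by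
    intro c hc
    have h1 := hcon κ inferInstance inferInstance inferInstance
      (f.comp (crsOneE A' ℤˣ (ZMod l) c)) (by
        rw [MonoidHom.comp_apply]
        have : (crsOneE A' ℤˣ (ZMod l) c) ⟨z, h.glu.mem'⟩ = 1 := by
          change Multiplicative.ofAdd (c.1 ⟨z, h.glu.mem'⟩) = 1
          rw [hc]
          rfl
        rw [this, map_one])
    apply Subtype.ext
    funext x
    have h2 := DFunLike.congr_fun h1 x
    rw [MonoidHom.comp_apply, MonoidHom.one_apply] at h2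
    have h3 : (crsOneE A' ℤˣ (ZMod l) c) x = 1 := hf (by rw [h2, map_one])
    exact Multiplicative.ofAdd.injective h3
  have hζ : orderOf (f (Multiplicative.ofAdd 1)) = l := by
    rw [orderOf_injective f hf, orderOf_ofAdd_eq_addOrderOf, ZMod.addOrderOf_one]
  have h1 := h.glu.cnt_one h.fac Φ _ (eT_inj _ hζ)
  have hfin' : Finite (Crs (1 : A' →* ℤˣ) (ZMod l)) := crs_finite _
  have hfin : Finite (Crs (1 : A →* ℤˣ) (ZMod l)) := crs_finite _
  have h2 : Nat.card (Crs (1 : A' →* ℤˣ) (ZMod l)) ≤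
      Nat.card (imE (⟨z, h.glu.mem⟩ : A) (1 : A →* ℤˣ) (ZMod l) ⊔
      imE (⟨z, h.glu.mem'⟩ : A') (1 : A' →* ℤˣ) (ZMod l) : AddSubgroup (ZMod l)) := by
    refine Nat.card_le_card_of_injective (fun c => ⟨c.1 ⟨z, h.glu.mem'⟩,
      (le_sup_right : imE (⟨z, h.glu.mem'⟩ : A') (1 : A' →* ℤˣ) (ZMod l) ≤ _) ⟨c, rfl⟩⟩) ?_
    intro c c' hcc
    have h3 : c.1 ⟨z, h.glu.mem'⟩ = c'.1 ⟨z, h.glu.mem'⟩ := congrArg Subtype.val hcc
    have h4 := hinj (c - c') (by
      change c.1 ⟨z, h.glu.mem'⟩ - c'.1 ⟨z, h.glu.mem'⟩ = 0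
      rw [h3, sub_self])
    exact sub_eq_zero.1 h4
  have h3 : l ^ (2 * g) ≤ Nat.card (Crs (1 : A →* ℤˣ) (ZMod l)) := by
    rw [Nat.card_zmod] at h1
    have hpos : 0 < Nat.card (Crs (1 : A' →* ℤˣ) (ZMod l)) := Nat.card_pos
    have h5 : l ^ (2 * g) * Nat.card (Crs (1 : A' →* ℤˣ) (ZMod l)) ≤
        Nat.card (Crs (1 : A →* ℤˣ) (ZMod l)) * Nat.card (Crs (1 : A' →* ℤˣ) (ZMod l)) := by
      rw [← h1]
      exact Nat.mul_le_mul_left _ h2
    exact Nat.le_of_mul_le_mul_right h5 hpos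
  rw [card_crsOne, hN1 l hl hndvd] at h3
  have h4 : 2 * g ≤ n := (Nat.pow_le_pow_iff_right hl.one_lt).1 h3
  have h5 := hN2 2 Nat.prime_two
  rw [hb] at h5
  have h6 : n ≤ b := (Nat.pow_le_pow_iff_right (by norm_num)).1 h5
  have h7 := h.b_le hb hb'
  obtain ⟨a', ha'⟩ := exists_d (ρ := ρ) A'
  have h8 := h.symm.d_le ha' hb'
  have h9 := h.e4'
  rw [er_En ρ ha'] at h9
  have h10 : 4 ≤ a' := by exact_mod_cast h9
  omega

/-- THE NUMERICS -/
theorem num (h : Inp g j ρ A A' z) {a a' b b' : ℕ}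
    (ha : Algebra.trdeg (ZMod 2) (OO 2 (ρ.comp A.subtype)) = (a : Cardinal))
    (ha' : Algebra.trdeg (ZMod 2) (OO 2 (ρ.comp A'.subtype)) = (a' : Cardinal))
    (hb : Nat.card (A →* Multiplicative (ZMod 2)) = 2 ^ b)
    (hb' : Nat.card (A' →* Multiplicative (ZMod 2)) = 2 ^ b') :
    b + b' = 2 * g ∧ a = 3 * b ∧ a' = 3 * b' := by
  obtain ⟨κ, _, _, _, χ, hχz, hχ⟩ := h.exists_chi
  obtain ⟨κ', _, _, _, χ', hχz', hχ'⟩ := h.symm.exists_chi
  have h1 := h.ineq hb ha' χ hχz hχ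
  have h2 := h.symm.ineq hb' ha χ' hχz' hχ'
  have h3 := h.d_le ha hb
  have h4 := h.symm.d_le ha' hb'
  have h5 := n_one ρ h.glu.mem h.glu.mem' h.glu.gen h.e3 ha ha' h.rk
  have h6 := h.one
  omega

/-- `z` is killed by all homomorphisms to the group of order two -/
theorem kill_two (h : Inp g j ρ A A' z) (c : Crs (1 : A →* (ZMod 2)ˣ) (ZMod 2)) :
    c.1 ⟨z, h.glu.mem⟩ = 0 := by
  have := h.fg
  have := h.fg'
  obtain ⟨a, ha⟩ := exists_d (ρ := ρ) A
  obtain ⟨a', ha'⟩ := exists_d (ρ := ρ) A'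
  obtain ⟨b, hb⟩ := exists_b A
  obtain ⟨b', hb'⟩ := exists_b A'
  have h1 := (h.num ha ha' hb hb').1
  have h2 := h.mod_two hb hb'
  rw [h1] at h2
  have h3 : Nat.card (imE (⟨z, h.glu.mem⟩ : A) (1 : A →* (ZMod 2)ˣ) (ZMod 2) ⊔
      imE (⟨z, h.glu.mem'⟩ : A') (1 : A' →* (ZMod 2)ˣ) (ZMod 2) : AddSubgroup (ZMod 2)) = 1 := by
    have h4 : 0 < 2 ^ (2 * g) := by positivity
    exact Nat.eq_of_mul_eq_mul_left h4 (by rw [h2, mul_one])
  have h4 := AddSubgroup.card_eq_one.1 h3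
  have h5 : c.1 ⟨z, h.glu.mem⟩ ∈ (imE (⟨z, h.glu.mem⟩ : A) (1 : A →* (ZMod 2)ˣ) (ZMod 2) ⊔
      imE (⟨z, h.glu.mem'⟩ : A') (1 : A' →* (ZMod 2)ˣ) (ZMod 2) : AddSubgroup (ZMod 2)) :=
    (le_sup_left : imE (⟨z, h.glu.mem⟩ : A) (1 : A →* (ZMod 2)ˣ) (ZMod 2) ≤ _) ⟨c, rfl⟩
  rw [h4] at h5
  exact h5

end Inp

end Pool.Agent.SuCM
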