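import Pool.Agent.Lib.MP_305fdd_al.Su.CM.Nak
import Pool.Agent.Lib.MP_305fdd_al.Fr.N.J_pbex
import Pool.Agent.Lib.MP_305fdd_al.Fr.N.J_pbsub

/-!
# MP_305fdd_al, surface groups, block REG: the local `2`-basis

`B` is a finitely generated subalgebra of the field `K = Frac B` of transcendence degree `D` and
`y : Fin D → B`.  If `(s ^ 2) x ∈ Nr y` for all `x` and some `s ≠ 0` then the monomials in `y` are a
basis of `K` over `K ^ 2`.
-/

set_option autoImplicit false

namespace Pool.Agent.SuCM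

open Pool.Agent.F2Ch Pool.Agent.FrN

section

variable {K : Type} [Field K] [Algebra (ZMod 2) K] {D : ℕ}

theorem cmb_coe (B : Subalgebra (ZMod 2) K) (y : Fin D → B) (e : (Fin D → Fin 2) → B) :
    ((cmb y e : B) : K) = ∑ β, (e β : K) ^ 2 * monY (p := 2) (fun i => (y i : K)) β := by
  unfold cmb monY
  push_cast
  rfl

theorem exists_pb (B : Subalgebra (ZMod 2) K) (hfg : B.FG) (hF : Frc B)
    (hD : Algebra.trdeg (ZMod 2) K = D) (y : Fin D → B) (s : B) (hs : s ≠ 0)
    (h : ∀ x : B, s ^ 2 * x ∈ Nr y) :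
    ∃ π, IsPB 2 (monY (p := 2) fun i => (y i : K)) π := by
  classical
  have : CharP K 2 := charP_of_injective_algebraMap (algebraMap (ZMod 2) K).injective 2
  obtain ⟨t, π, _, hπ⟩ := p_pbex 2 K B hfg hF D hD
  refine pbsub_span hπ.pb _ ?_
  intro x
  obtain ⟨a, ha, b, hb, hb0, hab⟩ := hF x
  obtain ⟨e, he⟩ := mem_Nr.1 (h (⟨a, ha⟩ * ⟨b, hb⟩))
  have hs0 : (s : K) ≠ 0 := fun h0 => hs (Subtype.ext h0)
  refine ⟨fun β => e β / (s * b), ?_⟩
  have h1 := congrArg (fun z : B => (z : K)) he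
  simp only [cmb_coe] at h1
  push_cast at h1
  have h2 : ∑ β, ((e β : K) / (s * b)) ^ 2 * monY (p := 2) (fun i => (y i : K)) β =
      (∑ β, (e β : K) ^ 2 * monY (p := 2) (fun i => (y i : K)) β) / (s * b) ^ 2 := by
    rw [Finset.sum_div]
    refine Finset.sum_congr rfl fun β _ => ?_
    rw [div_pow]
    ring
  rw [h2, ← h1, ← hab]
  field_simp

theorem cmb_inj {B : Subalgebra (ZMod 2) K} {y : Fin D → B}
    (hp : ∃ π, IsPB 2 (monY (p := 2) fun i => (y i : K)) π) {e e' : (Fin D → Fin 2) → B}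
    (h : cmb y e = cmb y e') : e = e' := by
  obtain ⟨π, hπ⟩ := hp
  have h1 := congrArg (fun z : B => (z : K)) h
  simp only [cmb_coe] at h1
  funext β
  apply Subtype.ext
  rw [← hπ.uniq (fun β => (e β : K)) β, ← hπ.uniq (fun β => (e' β : K)) β, h1]

end

end Pool.Agent.SuCM
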