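import Pool.Agent.Lib.MP_305fdd_al.Su.FI.Rank

/-!
# MP_305fdd_al, closed surface groups, class membership: ranks and subgroups of cyclic groups
-/

set_option autoImplicit false

namespace Pool.Agent.SuCM

open Pool.Agent.SuFI

/-- the number of characters of order dividing `q` -/
theorem rank_pow (A : Type) [Group A] [Group.FG A] : ∃ n C : ℕ, ∀ q : ℕ, 0 < q →
    q ^ n ≤ Nat.card (A →* Multiplicative (ZMod q)) ∧
    Nat.card (A →* Multiplicative (ZMod q)) ≤ C * q ^ n := by
  have hsurj : Function.Surjective (Abelianization.of : A →* Abelianization A) :=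
    QuotientGroup.mk'_surjective _
  have hfg : AddGroup.FG (Additive (Abelianization A)) := by
    have : Group.FG (Abelianization A) := Group.fg_of_surjective hsurj
    exact GroupFG.iff_add_fg.1 this
  obtain ⟨n, ι, _, p, hp, e, ⟨E⟩⟩ := AddCommGroup.equiv_free_prod_directSum_zmod
    (Additive (Abelianization A))
  have hfT : Finite (DirectSum ι fun i => ZMod (p i ^ e i)) := by
    have : ∀ i, NeZero (p i ^ e i) := fun i => ⟨pow_ne_zero _ (hp i).ne_zero⟩
    exact Finite.of_equiv _ (DirectSum.addEquivProd fun i => ZMod (p i ^ e i)).symm.toEquiv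
  set T := DirectSum ι fun i => ZMod (p i ^ e i)
  refine ⟨n, Nat.card T ^ Nat.card T, fun q hq => ?_⟩
  have : NeZero q := ⟨hq.ne'⟩
  have hcard : Nat.card (A →* Multiplicative (ZMod q)) = q ^ n * Nat.card (T →+ ZMod q) := by
    rw [Nat.card_congr (homAb A (ZMod q)), Nat.card_congr (homProd E), Nat.card_prod,
      Nat.card_fun, Nat.card_zmod, Nat.card_fin]
  have hfin : Finite (T →+ ZMod q) :=
    Finite.of_injective (fun f : T →+ ZMod q => (f : T → ZMod q)) DFunLike.coe_injective
  rw [hcard]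
  refine ⟨Nat.le_mul_of_pos_right _ Nat.card_pos, ?_⟩
  rw [mul_comm]
  refine Nat.mul_le_mul_right _ ?_
  have hT : 0 < Nat.card T := Nat.card_pos
  have h1 : Nat.card {x : ZMod q // Nat.card T • x = 0} ≤ Nat.card T := by
    have h2 := IsAddCyclic.card_nsmul_eq_zero_le (α := ZMod q) hT
    rw [← Nat.card_eq_finsetCard] at h2
    refine le_trans (le_of_eq ?_) h2
    refine Nat.card_congr (Equiv.subtypeEquivRight fun x => ?_)
    simp
  calc Nat.card (T →+ ZMod q) ≤ Nat.card (T → {x : ZMod q // Nat.card T • x = 0}) := by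
        refine Nat.card_le_card_of_injective (fun f t => ⟨f t, by
          rw [← map_nsmul, card_nsmul_eq_zero', map_zero]⟩) ?_
        intro f f' h
        ext t
        exact congrArg Subtype.val (congrFun h t)
    _ = Nat.card {x : ZMod q // Nat.card T • x = 0} ^ Nat.card T := Nat.card_fun
    _ ≤ Nat.card T ^ Nat.card T := Nat.pow_le_pow_left h1 _

/-- comparison of the growth of powers -/
theorem le_of_pow {l m n C k₀ : ℕ} (hl : 2 ≤ l) (h : ∀ k, k₀ ≤ k → (l ^ k) ^ m ≤ C * (l ^ k) ^ n) :
    m ≤ n := by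
  by_contra hmn
  push Not at hmn
  have hl0 : 0 < l := by omega
  have h1 : ∀ k, k₀ ≤ k → l ^ k ≤ C := by
    intro k hk
    have h2 := h k hk
    obtain ⟨j, rfl⟩ := Nat.exists_eq_add_of_lt hmn
    rw [show n + j + 1 = n + (j + 1) by ring, pow_add, mul_comm C] at h2
    have h3 := Nat.le_of_mul_le_mul_left h2 (by positivity)
    refine le_trans ?_ h3
    exact Nat.le_self_pow (by omega) _
  have h4 := h1 (max k₀ C) (le_max_left _ _)
  have h5 : max k₀ C < l ^ (max k₀ C) := Nat.lt_pow_self (by omega)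
  have h6 := le_max_right k₀ C
  omega

/-- divisibility in the rings `ℤ/l^k` -/
theorem zmod_dvd_total (l k : ℕ) [Fact l.Prime] (x y : ZMod (l ^ k)) : x ∣ y ∨ y ∣ x := by
  obtain ⟨X, rfl⟩ := ZMod.ringHom_surjective (PadicInt.toZModPow (p := l) k) x
  obtain ⟨Y, rfl⟩ := ZMod.ringHom_surjective (PadicInt.toZModPow (p := l) k) y
  rcases ValuationRing.dvd_total X Y with h | h
  · exact Or.inl (map_dvd _ h)
  · exact Or.inr (map_dvd _ h)

theorem mul_mem_zmod {n : ℕ} (I : AddSubgroup (ZMod n)) {x : ZMod n} (hx : x ∈ I) (c : ZMod n) :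
    c * x ∈ I := by
  obtain ⟨k, rfl⟩ := ZMod.intCast_surjective c
  rw [← zsmul_eq_mul]
  exact I.zsmul_mem hx k

/-- the subgroups of `ℤ/l^k` form a chain -/
theorem zmod_chain (l k : ℕ) [Fact l.Prime] (I J : AddSubgroup (ZMod (l ^ k))) :
    I ≤ J ∨ J ≤ I := by
  by_contra h
  push Not at h
  obtain ⟨h1, h2⟩ := h
  obtain ⟨x, hx, hx'⟩ := SetLike.not_le_iff_exists.1 h1
  obtain ⟨y, hy, hy'⟩ := SetLike.not_le_iff_exists.1 h2
  rcases zmod_dvd_total l k x y with ⟨c, hc⟩ | ⟨c, hc⟩
  · apply hy'
    rw [hc, mul_comm]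
    exact mul_mem_zmod I hx c
  · apply hx'
    rw [hc, mul_comm]
    exact mul_mem_zmod J hy c

/-- the order of the sum of two comparable subgroups -/
theorem card_sup_of_chain {P : Type} [AddCommGroup P] [Finite P] {I J : AddSubgroup P}
    (h : I ≤ J ∨ J ≤ I) : Nat.card (I ⊔ J : AddSubgroup P) = max (Nat.card I) (Nat.card J) := by
  rcases h with h | h
  · rw [sup_eq_right.2 h, max_eq_right]
    exact Nat.card_le_card_of_injective (AddSubgroup.inclusion h) (AddSubgroup.inclusion_injective h)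
  · rw [sup_eq_left.2 h, max_eq_left]
    exact Nat.card_le_card_of_injective (AddSubgroup.inclusion h) (AddSubgroup.inclusion_injective h)

/-- the arithmetic of the four terms -/
theorem four_arith {n x x' y y' : ℕ} (hn : 1 < n) (h : n * max x x' * max y y' =
    max x y' * max y x') (hx : 1 ≤ x) (hx' : 1 ≤ x') (hy : 1 ≤ y) (hy' : 1 ≤ y') (lx : x ≤ n)
    (lx' : x' ≤ n) (ly : y ≤ n) (ly' : y' ≤ n) :
    (x = n ∧ x' = n ∧ y = 1 ∧ y' = 1) ∨ (x = 1 ∧ x' = 1 ∧ y = n ∧ y' = n) := by
  set X := max x x' with hX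
  set Y := max y y' with hY
  have hxX : x ≤ X := le_max_left _ _
  have hxX' : x' ≤ X := le_max_right _ _
  have hyY : y ≤ Y := le_max_left _ _
  have hyY' : y' ≤ Y := le_max_right _ _
  have hX0 : 1 ≤ X := hx.trans hxX
  have hY0 : 1 ≤ Y := hy.trans hyY
  have hlt : X * Y < n * X * Y := by
    rw [mul_assoc]
    nlinarith [Nat.mul_le_mul hX0 hY0]
  rcases max_choice x y' with h1 | h1 <;> rcases max_choice y x' with h2 | h2 <;>
    rw [h1, h2] at h
  · exfalso
    have := Nat.mul_le_mul hxX hyY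
    omega
  · left
    have h3 : x * x' ≤ n * X := Nat.mul_le_mul lx hxX'
    have h4 : n * X * Y ≤ n * X * 1 := by rw [mul_one, h]; exact h3
    have h5 : Y ≤ 1 := Nat.le_of_mul_le_mul_left h4 (by positivity)
    have h6 : Y = 1 := le_antisymm h5 hY0
    rw [h6, mul_one] at h
    have h7 : x = n := by
      by_contra hne
      have : x < n := lt_of_le_of_ne lx hne
      nlinarith
    have h8 : x' = n := by
      by_contra hne
      have : x' < n := lt_of_le_of_ne lx' hne
      have : X * n ≤ x * x' := by rw [← h]; exact (mul_comm _ _).le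
      nlinarith
    exact ⟨h7, h8, by omega, by omega⟩
  · right
    have h3 : y' * y ≤ n * Y := Nat.mul_le_mul ly' hyY
    have h4 : n * Y * X ≤ n * Y * 1 := by
      rw [mul_one, mul_assoc, mul_comm Y X, ← mul_assoc, h]; exact h3
    have h5 : X ≤ 1 := Nat.le_of_mul_le_mul_left h4 (by positivity)
    have h6 : X = 1 := le_antisymm h5 hX0
    rw [h6, mul_one] at h
    have h7 : y' = n := by
      by_contra hne
      have : y' < n := lt_of_le_of_ne ly' hne
      nlinarith
    have h8 : y = n := by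
      by_contra hne
      have : y < n := lt_of_le_of_ne ly hne
      nlinarith
    exact ⟨by omega, by omega, h8, h7⟩
  · exfalso
    have := Nat.mul_le_mul hxX' hyY'
    rw [mul_comm y' x'] at h
    omega

end Pool.Agent.SuCM
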