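import Pool.Agent.Lib.MP_305fdd_al.Fr.N.StmJ

/-!
# MP_305fdd_al, surface groups, block REG: the ring generated by the squares and some elements

`Nr y` is the subring generated by the squares and the `y i`; its elements are the
`∑ e_β ^ 2 y ^ β`, `β ∈ {0, 1} ^ D`.  If `M` is an ideal, `M = (y) + M ^ 2` and the Frobenius map is
surjective modulo `M` then every element is in `Nr y + M ^ k`.
-/

set_option autoImplicit false
set_option linter.unusedSectionVars false

namespace Pool.Agent.SuCM

open Pool.Agent.F2Ch MvPolynomial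

section

variable {S : Type} [CommRing S] [Algebra (ZMod 2) S] {D : ℕ}

theorem two_z (S : Type) [CommRing S] [Algebra (ZMod 2) S] : (2 : S) = 0 := by
  have h := map_ofNat (algebraMap (ZMod 2) S) 2
  rw [← h]
  have : (OfNat.ofNat 2 : ZMod 2) = 0 := by decide
  rw [this, map_zero]

theorem sq_add (x y : S) : (x + y) ^ 2 = x ^ 2 + y ^ 2 := by
  have h := two_z S
  linear_combination (x * y) * h

theorem add_self (x : S) : x + x = 0 := by
  have h := two_z S
  linear_combination x * h

/-- the Frobenius endomorphism -/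
def sqh (S : Type) [CommRing S] [Algebra (ZMod 2) S] : S →+* S where
  toFun x := x ^ 2
  map_one' := one_pow 2
  map_zero' := by rw [zero_pow two_ne_zero]
  map_add' := sq_add
  map_mul' x y := mul_pow x y 2

@[simp] theorem sqh_apply (x : S) : sqh S x = x ^ 2 := rfl

theorem sum_sq {ι : Type} (s : Finset ι) (f : ι → S) : (∑ i ∈ s, f i) ^ 2 = ∑ i ∈ s, f i ^ 2 := by
  rw [← sqh_apply, map_sum]
  rfl

/-- the subring generated by the squares and the `y i` -/
noncomputable def Nr (y : Fin D → S) : Subring S := (eval₂Hom (sqh S) y).range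

theorem sq_mem (y : Fin D → S) (x : S) : x ^ 2 ∈ Nr y :=
  ⟨C x, by simp⟩

theorem y_mem (y : Fin D → S) (i : Fin D) : y i ∈ Nr y :=
  ⟨X i, by simp⟩

/-- the combination of monomials with the coefficients `e β ^ 2` -/
noncomputable def cmb (y : Fin D → S) (e : (Fin D → Fin 2) → S) : S :=
  ∑ β, e β ^ 2 * monY (p := 2) y β

theorem cmb_add (y : Fin D → S) (e e' : (Fin D → Fin 2) → S) :
    cmb y e + cmb y e' = cmb y (e + e') := by
  unfold cmb
  rw [← Finset.sum_add_distrib]
  refine Finset.sum_congr rfl fun β _ => ?_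
  rw [Pi.add_apply, sq_add, add_mul]

theorem sq_mul_cmb (y : Fin D → S) (e : (Fin D → Fin 2) → S) (a : S) :
    a ^ 2 * cmb y e = cmb y (fun β => a * e β) := by
  unfold cmb
  rw [Finset.mul_sum]
  refine Finset.sum_congr rfl fun β _ => ?_
  rw [mul_pow, mul_assoc]

theorem monY_zero {M : Type} [CommMonoid M] (y : Fin D → M) : monY (p := 2) y 0 = 1 := by
  simp [monY]

theorem sq_eq_cmb (y : Fin D → S) (a : S) :
    cmb y (fun β => if β = 0 then a else 0) = a ^ 2 := by
  unfold cmb
  rw [Finset.sum_eq_single 0]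
  · simp [monY_zero]
  · intro β _ hβ
    simp [hβ]
  · intro h
    exact absurd (Finset.mem_univ _) h

/-- the products `y ^ β y_i` -/
theorem monY_mul {M : Type} [CommMonoid M] (y : Fin D → M) (β : Fin D → Fin 2) (i : Fin D) :
    monY (p := 2) y β * y i =
      (if β i = 0 then 1 else y i ^ 2) * monY (p := 2) y (Function.update β i (β i + 1)) := by
  classical
  unfold monY
  rw [← Finset.mul_prod_erase _ _ (Finset.mem_univ i), ← Finset.mul_prod_erase (a := i) _
    (fun j => y j ^ ((Function.update β i (β i + 1) j : Fin 2) : ℕ)) (Finset.mem_univ i)]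
  rw [Function.update_self]
  have h : ∏ x ∈ Finset.univ.erase i, y x ^ ((Function.update β i (β i + 1) x : Fin 2) : ℕ) =
      ∏ x ∈ Finset.univ.erase i, y x ^ ((β x : Fin 2) : ℕ) := by
    refine Finset.prod_congr rfl fun j hj => ?_
    rw [Function.update_of_ne (Finset.ne_of_mem_erase hj)]
  rw [h]
  have h2 : β i = 0 ∨ β i = 1 := by
    have := (β i).isLt
    rcases Fin.eq_zero_or_eq_succ (β i) with h | ⟨j, h⟩
    · exact Or.inl h
    · right
      rw [h, Subsingleton.elim j 0]
      rfl
  rcases h2 with h2 | h2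
  · rw [h2, if_pos rfl]
    simp [mul_comm]
  · rw [h2, if_neg (by decide)]
    have h3 : (1 + 1 : Fin 2) = 0 := by decide
    rw [h3]
    simp only [Fin.val_one, pow_one, Fin.val_zero, pow_zero, one_mul]
    rw [pow_two, mul_assoc, mul_comm (∏ x ∈ Finset.univ.erase i, y x ^ ((β x : Fin 2) : ℕ)) (y i),
      ← mul_assoc]

theorem cmb_mul_y (y : Fin D → S) (e : (Fin D → Fin 2) → S) (i : Fin D) :
    ∃ e', cmb y e * y i = cmb y e' := by
  classical
  unfold cmb
  let σ : (Fin D → Fin 2) → (Fin D → Fin 2) := fun β => Function.update β i (β i + 1)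
  have hσ : Function.Involutive σ := by
    intro β
    change Function.update (Function.update β i (β i + 1)) i
      (Function.update β i (β i + 1) i + 1) = β
    rw [Function.update_self, Function.update_idem]
    have : β i + 1 + 1 = β i := by
      rw [add_assoc]
      have h3 : (1 + 1 : Fin 2) = 0 := by decide
      rw [h3, add_zero]
    rw [this, Function.update_eq_self]
  let g : (Fin D → Fin 2) → S := fun β => if β i = 0 then 1 else y i
  refine ⟨fun β => e (σ β) * g (σ β), ?_⟩
  rw [Finset.sum_mul, ← Equiv.sum_comp hσ.toPerm]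
  refine Finset.sum_congr rfl fun β _ => ?_
  change e (σ β) ^ 2 * monY (p := 2) y (σ β) * y i = (e (σ β) * g (σ β)) ^ 2 * monY (p := 2) y β
  rw [mul_assoc, monY_mul]
  have h1 : Function.update (σ β) i (σ β i + 1) = β := hσ β
  rw [h1, mul_pow]
  have h2 : (if σ β i = 0 then (1 : S) else y i ^ 2) = g (σ β) ^ 2 := by
    simp only [g]
    split_ifs <;> simp
  rw [h2, mul_assoc]

theorem mem_Nr {y : Fin D → S} {x : S} : x ∈ Nr y ↔ ∃ e, x = cmb y e := by
  constructor
  · rintro ⟨f, rfl⟩
    induction f using MvPolynomial.induction_on with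
    | C a => exact ⟨fun β => if β = 0 then a else 0, by rw [sq_eq_cmb]; simp⟩
    | add f g hf hg =>
      obtain ⟨e, he⟩ := hf
      obtain ⟨e', he'⟩ := hg
      exact ⟨e + e', by rw [map_add, he, he', cmb_add]⟩
    | mul_X f i hf =>
      obtain ⟨e, he⟩ := hf
      obtain ⟨e', he'⟩ := cmb_mul_y y e i
      exact ⟨e', by rw [map_mul, he, ← he']; simp⟩
  · rintro ⟨e, rfl⟩
    refine Subring.sum_mem _ fun β _ => Subring.mul_mem _ (sq_mem y _) ?_
    exact Subring.prod_mem _ fun i _ => Subring.pow_mem _ (y_mem y i) _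

/-- approximation modulo powers of `M` -/
theorem approx (y : Fin D → S) (M : Ideal S) (hy : ∀ i, y i ∈ M) (hgen : M ≤ Ideal.span (Set.range y) ⊔ M ^ 2)
    (hq : ∀ x : S, ∃ x' : S, x - x' ^ 2 ∈ M) (k : ℕ) : ∀ x : S, ∃ n ∈ Nr y, x - n ∈ M ^ k := by
  have step : ∀ j : ℕ, ∀ x ∈ M ^ j, ∃ n ∈ Nr y, x - n ∈ M ^ (j + 1) := by
    intro j
    induction j with
    | zero =>
      intro x _
      obtain ⟨x', h⟩ := hq x
      exact ⟨x' ^ 2, sq_mem y x', by simpa using h⟩
    | succ j ih =>
      intro x hx
      rw [pow_succ'] at hx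
      refine Submodule.mul_induction_on hx ?_ ?_
      · intro a ha b hb
        obtain ⟨s, hs, t, ht, rfl⟩ := Submodule.mem_sup.1 (hgen ha)
        -- `s` is a combination of the `y i`
        obtain ⟨c, hc⟩ := (Ideal.mem_span_range_iff_exists_fun).1 hs
        have h1 : ∀ i, ∃ n ∈ Nr y, c i * b - n ∈ M ^ (j + 1) := fun i =>
          ih _ (Ideal.mul_mem_left _ _ hb)
        choose n hn hn' using h1
        refine ⟨∑ i, n i * y i, Subring.sum_mem _ fun i _ => Subring.mul_mem _ (hn i) (y_mem y i),
          ?_⟩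
        have e1 : (s + t) * b - ∑ i, n i * y i = ∑ i, (c i * b - n i) * y i + t * b := by
          rw [← hc, add_mul, Finset.sum_mul, add_sub_right_comm, ← Finset.sum_sub_distrib]
          congr 1
          refine Finset.sum_congr rfl fun i _ => ?_
          ring
        rw [e1]
        refine Ideal.add_mem _ (Ideal.sum_mem _ fun i _ => ?_) ?_
        · rw [pow_succ]
          exact Ideal.mul_mem_mul (hn' i) (hy i)
        · have h2 : j + 1 + 1 = 2 + j := by ring
          rw [h2, pow_add]
          exact Ideal.mul_mem_mul ht hb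
      · intro a b ha hb
        obtain ⟨n, hn, hn'⟩ := ha
        obtain ⟨n', h1, h1'⟩ := hb
        refine ⟨n + n', Subring.add_mem _ hn h1, ?_⟩
        have : a + b - (n + n') = (a - n) + (b - n') := by ring
        rw [this]
        exact Ideal.add_mem _ hn' h1'
  induction k with
  | zero =>
    intro x
    exact ⟨0, Subring.zero_mem _, by simp⟩
  | succ k ih =>
    intro x
    obtain ⟨n, hn, h⟩ := ih x
    obtain ⟨n', hn', h'⟩ := step k _ h
    refine ⟨n + n', Subring.add_mem _ hn hn', ?_⟩
    have : x - (n + n') = x - n - n' := by ring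
    rw [this]
    exact h'

end

end Pool.Agent.SuCM
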