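import Pool.Agent.Lib.MP_305fdd_al.Su.CM.Pb
import Mathlib.RingTheory.Filtration

/-!
# MP_305fdd_al, surface groups, block REG: universality

`uni`: `π : S → B` a surjection of finitely generated `F_2`-algebras, `B` a domain of transcendence
degree `D`, every maximal ideal of `S` contains the kernel and has at most `D` tangent directions.
Then `π` is injective.
-/

set_option autoImplicit false
set_option linter.unusedSectionVars false

namespace Pool.Agent.SuCM

open Pool.Agent.F2Ch Pool.Agent.FrN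

section

variable {S : Type} [CommRing S] [Algebra (ZMod 2) S] {D : ℕ}

/-- the ideal generated by the squares of the elements of `I` -/
def Fb (I : Ideal S) : Ideal S := Ideal.span {x | ∃ a ∈ I, x = a ^ 2}

theorem Fb_le (I : Ideal S) : Fb I ≤ I := by
  refine Ideal.span_le.2 ?_
  rintro _ ⟨a, ha, rfl⟩
  rw [pow_two]
  exact I.mul_mem_left _ ha

/-- the map from the residue field is onto -/
theorem sq_surj [Algebra.FiniteType (ZMod 2) S] (M : Ideal S) (hM : M.IsMaximal) :
    ∀ x : S, ∃ x' : S, x - x' ^ 2 ∈ M := by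
  let : Field (S ⧸ M) := Ideal.Quotient.field M
  have h1 : Algebra.FiniteType (ZMod 2) (S ⧸ M) :=
    Algebra.FiniteType.of_surjective (Ideal.Quotient.mkₐ (ZMod 2) M)
      (Ideal.Quotient.mkₐ_surjective _ _)
  have h2 : Module.Finite (ZMod 2) (S ⧸ M) := finite_of_finite_type_of_isJacobsonRing _ _
  have h3 : Finite (S ⧸ M) := Module.finite_of_finite (ZMod 2)
  intro x
  have hinj : Function.Injective (sqh (S ⧸ M)) := RingHom.injective _
  obtain ⟨c, hc⟩ := (Finite.injective_iff_surjective.1 hinj) (Ideal.Quotient.mk M x)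
  obtain ⟨x', rfl⟩ := Ideal.Quotient.mk_surjective c
  refine ⟨x', ?_⟩
  rw [← Ideal.Quotient.eq, ← hc]
  rfl

theorem cmb_Fb {y : Fin D → S} {s : S} (hs : ∀ x : S, s ^ 2 * x ∈ Nr y) (I : Ideal S) (z : S)
    (hz : z ∈ Fb I) : ∃ f : (Fin D → Fin 2) → S, (∀ β, f β ∈ I) ∧ s ^ 2 * z = cmb y f := by
  have key : ∀ c : S, ∃ f : (Fin D → Fin 2) → S, (∀ β, f β ∈ I) ∧ s ^ 2 * (c * z) = cmb y f := by
    refine Submodule.span_induction ?_ ?_ ?_ ?_ hz
    · rintro _ ⟨a, ha, rfl⟩ c
      obtain ⟨e, he⟩ := mem_Nr.1 (hs c)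
      refine ⟨fun β => a * e β, fun β => I.mul_mem_right _ ha, ?_⟩
      rw [← sq_mul_cmb, ← he]
      ring
    · intro c
      refine ⟨0, fun β => I.zero_mem, ?_⟩
      simp [cmb]
    · rintro u v _ _ hu hv c
      obtain ⟨f, hf, h⟩ := hu c
      obtain ⟨f', hf', h'⟩ := hv c
      exact ⟨f + f', fun β => I.add_mem (hf β) (hf' β), by rw [mul_add, mul_add, h, h', cmb_add]⟩
    · rintro c' u _ hu c
      obtain ⟨f, hf, h⟩ := hu (c * c')
      exact ⟨f, hf, by rw [← h, smul_eq_mul, mul_assoc]⟩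
  obtain ⟨f, hf, h⟩ := key 1
  exact ⟨f, hf, by rw [← h, one_mul]⟩

theorem exists_pow_le_Fb [IsNoetherianRing S] (I : Ideal S) (n : ℕ) :
    ∃ k, I ^ k ≤ Fb (I ^ n) := by
  obtain ⟨j, hj⟩ : ∃ j, (I ^ n) ^ j ≤ Fb (I ^ n) := by
    refine Ideal.exists_pow_le_of_le_radical_of_fg ?_ (IsNoetherian.noetherian _)
    intro a ha
    exact ⟨2, Ideal.subset_span ⟨a, ha, rfl⟩⟩
  exact ⟨n * j, by rw [pow_mul]; exact hj⟩

/-- `1 + a` is invertible modulo the powers of `I` -/
theorem of_one_add_mul {I : Ideal S} {a : S} (ha : a ∈ I) (n : ℕ) {e : S}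
    (h : (1 + a) * e ∈ I ^ n) : e ∈ I ^ n := by
  have h1 : ∀ j : ℕ, (1 + a) ^ (2 ^ j) = 1 + a ^ (2 ^ j) := by
    intro j
    induction j with
    | zero => simp
    | succ j ih => rw [pow_succ, pow_mul, ih, sq_add, one_pow, ← pow_mul]
  have h2 : e = (1 + a) ^ (2 ^ n - 1) * ((1 + a) * e) + a ^ (2 ^ n) * e := by
    have h3 : (1 + a) ^ (2 ^ n - 1) * ((1 + a) * e) = (1 + a) ^ (2 ^ n) * e := by
      rw [← mul_assoc, ← pow_succ, Nat.sub_add_cancel (Nat.one_le_two_pow)]
    rw [h3, h1]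
    have := add_self (a ^ 2 ^ n * e)
    linear_combination -this
  rw [h2]
  refine Ideal.add_mem _ (Ideal.mul_mem_left _ _ h) (Ideal.mul_mem_right _ _ ?_)
  exact Ideal.pow_le_pow_right (Nat.lt_two_pow_self.le) (Ideal.pow_mem_pow ha _)

variable {K : Type} [Field K] [Algebra (ZMod 2) K]

theorem ker_le [Algebra.FiniteType (ZMod 2) S] (B : Subalgebra (ZMod 2) K) (hfg : B.FG)
    (hF : Frc B) (hD : Algebra.trdeg (ZMod 2) K = D) (π : S →ₐ[ZMod 2] B)
    (hπ : Function.Surjective π) (M : Ideal S) (hM : M.IsMaximal) (hker : RingHom.ker π ≤ M)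
    (y : Fin D → S) (hy : ∀ i, y i ∈ M) (hgen : M ≤ Ideal.span (Set.range y) ⊔ M ^ 2) (n : ℕ) :
    RingHom.ker π ≤ M ^ n ⊔ RingHom.ker π ^ 2 := by
  have hN : IsNoetherianRing S := Algebra.FiniteType.isNoetherianRing (ZMod 2) S
  have hfB : Algebra.FiniteType (ZMod 2) B := Algebra.FiniteType.of_surjective π hπ
  set m : Ideal B := M.map π with hm
  have hcm : ∀ x, π x ∈ m ↔ x ∈ M := by
    intro x
    have := Ideal.comap_map_of_surjective' π.toRingHom hπ M
    constructor
    · intro h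
      have h1 : x ∈ Ideal.comap π.toRingHom (M.map π.toRingHom) := h
      rw [this] at h1
      exact (sup_le le_rfl hker) h1
    · exact fun h => Ideal.mem_map_of_mem _ h
  have hmt : (1 : B) ∉ m := by
    intro h
    have h1 : (1 : S) ∈ M := (hcm 1).1 (by rw [map_one]; exact h)
    exact hM.ne_top ((Ideal.eq_top_iff_one _).2 h1)
  have hy' : ∀ i, π (y i) ∈ m := fun i => (hcm _).2 (hy i)
  have hspan : (Ideal.span (Set.range y)).map π = Ideal.span (Set.range fun i => π (y i)) := by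
    rw [Ideal.map_span, ← Set.range_comp]
    rfl
  have hgen' : m ≤ Ideal.span (Set.range fun i => π (y i)) ⊔ m ^ 2 := by
    rw [← hspan, hm, ← Ideal.map_pow, ← Ideal.map_sup]
    exact Ideal.map_mono hgen
  have hq := sq_surj M hM
  have hq' : ∀ x : B, ∃ x' : B, x - x' ^ 2 ∈ m := by
    intro x
    obtain ⟨x, rfl⟩ := hπ x
    obtain ⟨x', h⟩ := hq x
    exact ⟨π x', by rw [← map_pow, ← map_sub]; exact (hcm _).2 h⟩
  obtain ⟨a, ha, hs⟩ := nak (fun i => π (y i)) m hy' hgen' hq'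
  have hs0 : (1 + a : B) ≠ 0 := by
    intro h
    apply hmt
    have : (1 : B) = a := by
      have h1 := add_self a
      linear_combination h - h1
    rw [this]
    exact ha
  have hpb := exists_pb B hfg hF hD (fun i => π (y i)) (1 + a) hs0 hs
  intro x hx
  obtain ⟨k, hk⟩ := exists_pow_le_Fb M n
  obtain ⟨u, hu, hxu⟩ := approx y M hy hgen hq k x
  obtain ⟨e, rfl⟩ := mem_Nr.1 hu
  have hz := hk hxu
  -- apply `π`
  have hz' : π (x - cmb y e) ∈ Fb (m ^ n) := by
    have h1 : (Fb (M ^ n)).map π ≤ Fb (m ^ n) := by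
      rw [Fb, Ideal.map_span]
      refine Ideal.span_le.2 ?_
      rintro _ ⟨_, ⟨b, hb, rfl⟩, rfl⟩
      refine Ideal.subset_span ⟨π b, ?_, by rw [map_pow]⟩
      rw [hm, ← Ideal.map_pow]
      exact Ideal.mem_map_of_mem _ hb
    exact h1 (Ideal.mem_map_of_mem _ hz)
  have hcmb : π (cmb y e) = cmb (fun i => π (y i)) (fun β => π (e β)) := by
    unfold cmb monY
    rw [map_sum]
    refine Finset.sum_congr rfl fun β _ => ?_
    rw [map_mul, map_pow, map_prod]
    simp_rw [map_pow]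
  obtain ⟨f, hf, hfe⟩ := cmb_Fb hs (m ^ n) _ hz'
  have hx0 : π x = 0 := hx
  have h1 : cmb (fun i => π (y i)) (fun β => (1 + a) * π (e β)) =
      cmb (fun i => π (y i)) f := by
    rw [← sq_mul_cmb, ← hcmb, ← hfe, map_sub, hx0, zero_sub]
    have := add_self ((1 + a) ^ 2 * π (cmb y e))
    linear_combination this
  have h2 := cmb_inj hpb h1
  have h3 : ∀ β, e β ∈ M ^ n ⊔ RingHom.ker π := by
    intro β
    have h4 : (1 + a) * π (e β) ∈ m ^ n := by
      rw [congrFun h2 β]
      exact hf β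
    have h5 := of_one_add_mul ha n h4
    rw [hm, ← Ideal.map_pow] at h5
    have h6 : e β ∈ Ideal.comap π.toRingHom ((M ^ n).map π.toRingHom) := h5
    rw [Ideal.comap_map_of_surjective' π.toRingHom hπ] at h6
    exact h6
  have h7 : x = cmb y e + (x - cmb y e) := by ring
  rw [h7]
  refine Ideal.add_mem _ ?_ (Ideal.mem_sup_left (Fb_le _ hz))
  refine Ideal.sum_mem _ fun β _ => Ideal.mul_mem_right _ _ ?_
  obtain ⟨p, hp, q, hq2, hpq⟩ := Submodule.mem_sup.1 (h3 β)
  rw [← hpq, sq_add]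
  refine Submodule.add_mem_sup ?_ (Ideal.pow_mem_pow hq2 2)
  rw [pow_two]
  exact Ideal.mul_mem_left _ _ hp

theorem uni [Algebra.FiniteType (ZMod 2) S] (B : Subalgebra (ZMod 2) K) (hfg : B.FG)
    (hF : Frc B) (hD : Algebra.trdeg (ZMod 2) K = D) (π : S →ₐ[ZMod 2] B)
    (hπ : Function.Surjective π) (hker : ∀ M : Ideal S, M.IsMaximal → RingHom.ker π ≤ M)
    (htan : ∀ M : Ideal S, M.IsMaximal → ∃ y : Fin D → S, (∀ i, y i ∈ M) ∧
      M ≤ Ideal.span (Set.range y) ⊔ M ^ 2) : Function.Injective π := by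
  have hN : IsNoetherianRing S := Algebra.FiniteType.isNoetherianRing (ZMod 2) S
  set N := RingHom.ker π with hNd
  have hle : N ≤ N ^ 2 := by
    intro x hx
    -- the annihilator of `x` modulo `N ^ 2`
    by_contra hx2
    have h1 : ∃ M : Ideal S, M.IsMaximal ∧ N ^ 2 ≤ M ∧ ∀ r : S, r * x ∈ N ^ 2 → r ∈ M := by
      let A : Ideal S := Submodule.comap (LinearMap.toSpanSingleton S S x) (N ^ 2)
      have hA' : ∀ r, r ∈ A ↔ r * x ∈ N ^ 2 := fun r => Iff.rfl
      have hA : A ≠ ⊤ := by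
        intro h
        have : (1 : S) ∈ A := by rw [h]; trivial
        rw [hA', one_mul] at this
        exact hx2 this
      obtain ⟨M, hM, hAM⟩ := Ideal.exists_le_maximal A hA
      refine ⟨M, hM, ?_, ?_⟩
      · intro r hr
        refine hAM ?_
        rw [hA']
        exact Ideal.mul_mem_right _ _ hr
      · intro r hr
        refine hAM ?_
        rw [hA']
        exact hr
    obtain ⟨M, hM, hNM, hann⟩ := h1
    obtain ⟨y, hy, hgen⟩ := htan M hM
    let Q := S ⧸ (N ^ 2)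
    let M' : Ideal Q := M.map (Ideal.Quotient.mk (N ^ 2))
    let x' : Q := Ideal.Quotient.mk (N ^ 2) x
    have h2 : x' ∈ (⨅ i : ℕ, M' ^ i • ⊤ : Submodule Q Q) := by
      rw [Submodule.mem_iInf]
      intro i
      have h3 := ker_le B hfg hF hD π hπ M hM (hker M hM) y hy hgen i hx
      obtain ⟨u, hu, v, hv, huv⟩ := Submodule.mem_sup.1 h3
      have h4 : x' = Ideal.Quotient.mk (N ^ 2) u := by
        rw [Ideal.Quotient.eq, ← huv]
        have : u + v - u = v := by ring
        rw [this]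
        exact hv
      rw [h4, smul_eq_mul, Ideal.mul_top, ← Ideal.map_pow]
      exact Ideal.mem_map_of_mem _ hu
    obtain ⟨⟨r, hr⟩, hrx⟩ := (Ideal.mem_iInf_smul_pow_eq_bot_iff M' x').1 h2
    obtain ⟨r', hr', rfl⟩ : ∃ r' ∈ M, Ideal.Quotient.mk (N ^ 2) r' = r := by
      rcases (Ideal.mem_map_iff_of_surjective _ Ideal.Quotient.mk_surjective).1 hr with ⟨r', h, h'⟩
      exact ⟨r', h, h'⟩
    have h5 : (1 - r') * x ∈ N ^ 2 := by
      rw [← Ideal.Quotient.eq_zero_iff_mem, map_mul, map_sub, map_one, sub_mul, one_mul]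
      change x' - Ideal.Quotient.mk (N ^ 2) r' * x' = 0
      rw [sub_eq_zero]
      exact hrx.symm
    have h6 := hann _ h5
    apply hM.ne_top
    rw [Ideal.eq_top_iff_one]
    have h7 : (1 : S) = (1 - r') + r' := by ring
    rw [h7]
    exact Ideal.add_mem _ h6 hr'
  have hbot : N = ⊥ := by
    refine Submodule.eq_bot_of_le_smul_of_le_jacobson_bot N N (IsNoetherian.noetherian N) ?_ ?_
    · rw [smul_eq_mul, ← pow_two]
      exact hle
    · intro x hx
      rw [Ideal.jacobson, Submodule.mem_sInf]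
      rintro M ⟨_, hM⟩
      exact hker M hM hx
  exact (RingHom.injective_iff_ker_eq_bot _).2 hbot

end

end Pool.Agent.SuCM
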